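import Pool.Agent.Helper47.EB.Defs

set_option autoImplicit false

open MeasureTheory Set Metric Polynomial Filter
open scoped Real Topology

namespace Pool.Agent.Helper47.EB

/-- block EB1. The residue at `v`. Hint: with `h u = Psi N l u * aeval (zz u) f * v * (u^2-1) /
((u*v-1)*u)` the integrand is `h u / (u - v)`, `h` is differentiable on `0 < ‖u‖ ≤ 1`, and
`dslope h v` is continuous on the closed annulus and differentiable off `v`, so
`Complex.circleIntegral_eq_of_differentiable_on_annulus_off_countable` applies; then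
`circleIntegral.integral_sub_inv_of_mem_ball` and the analogue outside the disc. -/
theorem JJ_annulus (N l : ℕ) (f : ℝ[X]) {R v : ℝ} (hR : 0 < R) (hRv : R < v) (hv : v < 1) :
    JJ N l f 1 v = ((PsiR N l v * f.eval (bb / 2 * (v + v⁻¹)) : ℝ) : ℂ) + JJ N l f R v := by
  have hv0 : 0 < v := hR.trans hRv
  have hvn : ‖(v : ℂ)‖ = v := by rw [Complex.norm_real, Real.norm_eq_abs, abs_of_pos hv0]
  set h : ℂ → ℂ := fun u => Psi N l u * aeval (zz u) f * (v * (u ^ 2 - 1)) / ((u * v - 1) * u) with hh
  have huv : ∀ u : ℂ, ‖u‖ ≤ 1 → u * v - 1 ≠ 0 := by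
    intro u hu h0
    have h1 : u * v = 1 := by linear_combination h0
    have h2 : ‖u‖ * v = 1 := by
      rw [← hvn, ← norm_mul, h1, norm_one]
    nlinarith [norm_nonneg u]
  have hd : ∀ u : ℂ, u ≠ 0 → ‖u‖ ≤ 1 → DifferentiableAt ℂ h u := by
    intro u hu0 hu
    have h1 := den_ne hu
    have h2 := huv u hu
    have h3 : DifferentiableAt ℂ (fun u => Psi N l u) u := by
      unfold Psi BL
      fun_prop (disch := exact h1)
    have h4 : DifferentiableAt ℂ (fun u => aeval (zz u) f) u := by
      have h5 : DifferentiableAt ℂ zz u := by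
        unfold zz
        fun_prop (disch := exact hu0)
      exact (Polynomial.differentiableAt_aeval f).comp u h5
    have h6 : DifferentiableAt ℂ (fun u : ℂ => (v : ℂ) * (u ^ 2 - 1)) u := by fun_prop
    have h7 : DifferentiableAt ℂ (fun u : ℂ => (u * v - 1) * u) u := by fun_prop
    exact ((h3.mul h4).mul h6).div h7 (mul_ne_zero h2 hu0)
  have hvv : DifferentiableAt ℂ h v := by
    apply hd
    · exact_mod_cast hv0.ne'
    · rw [hvn]
      exact hv.le
  have hval : h v = ((PsiR N l v * f.eval (bb / 2 * (v + v⁻¹)) : ℝ) : ℂ) := by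
    have h1 : (v : ℂ) ≠ 0 := by exact_mod_cast hv0.ne'
    have h2 : (v : ℂ) * v - 1 ≠ 0 := huv v (by rw [hvn]; exact hv.le)
    change Psi N l v * aeval (zz (v : ℂ)) f * (v * ((v : ℂ) ^ 2 - 1)) / (((v : ℂ) * v - 1) * v) = _
    rw [Psi_ofReal, aeval_zz_ofReal]
    have h3 : (v : ℂ) ^ 2 - 1 = v * v - 1 := by ring
    rw [h3, mul_comm ((v : ℂ) * v - 1) (v : ℂ), mul_div_assoc, div_self (mul_ne_zero h1 h2), mul_one]
    push_cast
    rfl
  -- the integrand
  have hF : ∀ ρ : ℝ, 0 < ρ → ρ ≤ 1 → ρ ≠ v → (∮ u in C(0, ρ), Psi N l u * aeval (zz u) f * qk v u / u) =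
      (∮ u in C(0, ρ), dslope h v u) + h v * ∮ u in C(0, ρ), (u - v)⁻¹ := by
    intro ρ hρ hρ1 hρv
    have hne : ∀ u ∈ sphere (0 : ℂ) ρ, u ≠ v ∧ u ≠ 0 ∧ ‖u‖ ≤ 1 := by
      intro u hu
      rw [mem_sphere_zero_iff_norm] at hu
      refine ⟨?_, ?_, by rw [hu]; exact hρ1⟩
      · intro h0
        rw [h0, hvn] at hu
        exact hρv hu.symm
      · intro h0
        rw [h0, norm_zero] at hu
        exact hρ.ne hu
    have hc1 : CircleIntegrable (dslope h v) 0 ρ := by
      apply ContinuousOn.circleIntegrable hρ.le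
      intro u hu
      obtain ⟨h1, h2, h3⟩ := hne u hu
      exact ((continuousAt_dslope_of_ne h1).mpr (hd u h2 h3).continuousAt).continuousWithinAt
    have hc2 : CircleIntegrable (fun u => h v * (u - v)⁻¹) 0 ρ := by
      apply ContinuousOn.circleIntegrable hρ.le
      intro u hu
      obtain ⟨h1, h2, h3⟩ := hne u hu
      have h4 : u - v ≠ 0 := sub_ne_zero.mpr h1
      apply ContinuousAt.continuousWithinAt
      fun_prop (disch := exact h4)
    rw [← circleIntegral.integral_const_mul, ← circleIntegral.integral_add hc1 hc2]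
    apply circleIntegral.integral_congr hρ.le
    intro u hu
    obtain ⟨h1, h2, h3⟩ := hne u hu
    have h4 : u - v ≠ 0 := sub_ne_zero.mpr h1
    have h5 := huv u h3
    change Psi N l u * aeval (zz u) f * qk v u / u = dslope h v u + h v * (u - v)⁻¹
    rw [dslope_of_ne _ h1, slope_def_field]
    have h6 : Psi N l u * aeval (zz u) f * qk v u / u = h u / (u - v) := by
      change _ = Psi N l u * aeval (zz u) f * (v * (u ^ 2 - 1)) / ((u * v - 1) * u) / (u - v)
      unfold qk
      field_simp
    rw [h6, sub_div, div_eq_mul_inv (h v)]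
    ring
  have hann : (∮ u in C(0, 1), dslope h v u) = ∮ u in C(0, R), dslope h v u := by
    apply Complex.circleIntegral_eq_of_differentiable_on_annulus_off_countable hR (hRv.trans hv).le
      (Set.countable_singleton (v : ℂ))
    · intro u hu
      apply ContinuousAt.continuousWithinAt
      have h1 : ‖u‖ ≤ 1 := by simpa using hu.1
      have h2 : u ≠ 0 := by
        rintro rfl
        apply hu.2
        simpa using hR
      by_cases h3 : u = v
      · rw [h3]
        exact continuousAt_dslope_same.mpr hvv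
      · exact (continuousAt_dslope_of_ne h3).mpr (hd u h2 h1).continuousAt
    · rintro u ⟨⟨h1, h2⟩, h3⟩
      have h4 : ‖u‖ ≤ 1 := by
        have : ‖u‖ < 1 := by simpa using h1
        exact this.le
      have h5 : u ≠ 0 := by
        rintro rfl
        apply h2
        simpa using hR.le
      exact (differentiableAt_dslope_of_ne h3).mpr (hd u h5 h4)
  have h1 : (∮ u in C(0, 1), (u - (v : ℂ))⁻¹) = 2 * π * Complex.I := by
    apply circleIntegral.integral_sub_inv_of_mem_ball
    rw [mem_ball_zero_iff, hvn]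
    exact hv
  have h2 : (∮ u in C(0, R), (u - (v : ℂ))⁻¹) = 0 := by
    have hne : ∀ u ∈ closedBall (0 : ℂ) R, u - v ≠ 0 := by
      intro u hu h0
      rw [mem_closedBall_zero_iff, sub_eq_zero.mp h0, hvn] at hu
      linarith
    apply Complex.circleIntegral_eq_zero_of_differentiable_on_off_countable hR.le Set.countable_empty
    · intro u hu
      have h4 := hne u hu
      apply ContinuousAt.continuousWithinAt
      fun_prop (disch := exact h4)
    · rintro u ⟨hu, -⟩
      have h4 := hne u (ball_subset_closedBall hu)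
      fun_prop (disch := exact h4)
  have h2pi : (2 * π * Complex.I : ℂ) ≠ 0 := Complex.two_pi_I_ne_zero
  unfold JJ
  rw [hF 1 one_pos le_rfl hv.ne', hF R hR (hRv.trans hv).le hRv.ne, hann, h1, h2, hval]
  field_simp
  ring

end Pool.Agent.Helper47.EB
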