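import Pool.Agent.Helper47.EB.Defs

set_option autoImplicit false

open MeasureTheory Set Metric Polynomial Filter
open scoped Real Topology

namespace Pool.Agent.Helper47.EB

private theorem qk_le63 {R v : ℝ} {u : ℂ} (hu : ‖u‖ = R) (hR1 : R ≤ 44 / 100)
    (hv : 45 / 100 ≤ v) (hv1 : v < 1) : ‖qk v u‖ ≤ 220 := by
  have hR0 : 0 ≤ R := hu ▸ norm_nonneg u
  have hvn : ‖(v : ℂ)‖ = v := by
    rw [Complex.norm_real, Real.norm_eq_abs, abs_of_nonneg (by linarith)]
  have h1 : ‖u ^ 2 - 1‖ ≤ 12 / 10 := by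
    refine (norm_sub_le _ _).trans ?_
    rw [norm_pow, hu, norm_one]
    nlinarith
  have h2 : 1 / 100 ≤ ‖u - v‖ := by
    have h := norm_sub_norm_le (v : ℂ) u
    rw [norm_sub_rev, hvn, hu] at h
    linarith
  have h3 : 56 / 100 ≤ ‖u * v - 1‖ := by
    have h := norm_sub_norm_le (1 : ℂ) (u * v)
    rw [norm_sub_rev, norm_mul, hvn, hu, norm_one] at h
    have h4 : R * v ≤ 44 / 100 * 1 := mul_le_mul hR1 hv1.le (by linarith) (by norm_num)
    linarith
  have h4 : 1 / 100 * (56 / 100) ≤ ‖u - v‖ * ‖u * v - 1‖ :=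
    mul_le_mul h2 h3 (by norm_num) (by linarith)
  have h5 : v * ‖u ^ 2 - 1‖ ≤ 1 * (12 / 10) := mul_le_mul hv1.le h1 (norm_nonneg _) (by norm_num)
  unfold qk
  rw [norm_div, norm_mul, norm_mul, hvn, div_le_iff₀ (by linarith)]
  linarith

/-- block EB2a -/
theorem norm_JJ_le {N l : ℕ} {f : ℝ[X]} {R v S : ℝ} (hR : 0 < R) (hR1 : R ≤ 44 / 100)
    (hv : 45 / 100 ≤ v) (hv1 : v < 1)
    (hS : ∀ u : ℂ, ‖u‖ = R → ‖Psi N l u‖ * ‖aeval (zz u) f‖ ≤ S) :
    ‖JJ N l f R v‖ ≤ 220 * S := by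
  have h := circleIntegral.norm_two_pi_i_inv_smul_integral_le_of_norm_le_const
    (f := fun u => Psi N l u * aeval (zz u) f * qk v u / u) (c := 0) (R := R)
    (C := 220 * S / R) hR.le (fun u hu => ?_)
  · rw [smul_eq_mul, mul_div_cancel₀ _ hR.ne'] at h
    exact h
  · have hu' : ‖u‖ = R := by rwa [mem_sphere_zero_iff_norm] at hu
    have h1 := hS u hu'
    have h2 := qk_le63 hu' hR1 hv hv1
    rw [norm_div, norm_mul, norm_mul, hu']
    refine div_le_div_of_nonneg_right ?_ hR.le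
    have h0 : 0 ≤ ‖Psi N l u‖ * ‖aeval (zz u) f‖ := by positivity
    calc ‖Psi N l u‖ * ‖aeval (zz u) f‖ * ‖qk v u‖ ≤ S * 220 :=
          mul_le_mul h1 h2 (norm_nonneg _) (h0.trans h1)
      _ = 220 * S := mul_comm _ _

private theorem cont_aux63 (N l : ℕ) (f : ℝ[X]) {X : Type*} [TopologicalSpace X] {v : X → ℝ}
    {u : X → ℂ} (hv : Continuous v) (hu : Continuous u) (hv0 : ∀ x, 0 < v x) (hv1 : ∀ x, v x < 1)
    (hu1 : ∀ x, ‖u x‖ = 1) :
    Continuous fun x => Psi N l (u x) * aeval (zz (u x)) f * qk (v x) (u x) / u x := by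
  have hu0 : ∀ x, u x ≠ 0 := by
    intro x h
    have := hu1 x
    rw [h, norm_zero] at this
    exact zero_ne_one this
  have hvc : Continuous fun x => ((v x : ℝ) : ℂ) := Complex.continuous_ofReal.comp hv
  have hvn : ∀ x, ‖((v x : ℝ) : ℂ)‖ = v x := by
    intro x
    rw [Complex.norm_real, Real.norm_eq_abs, abs_of_nonneg (hv0 x).le]
  have c1 : Continuous fun x => Psi N l (u x) := by
    unfold Psi BL
    refine ((continuous_const.sub (continuous_const.mul (hu.pow 2))).pow N |>.mul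
      (hu.pow _)).mul (Continuous.pow ?_ _)
    exact ((continuous_const.mul (hu.pow 2)).add continuous_const).div
      (continuous_const.add (hu.pow 2)) fun x => den_ne (hu1 x).le
  have c2 : Continuous fun x => aeval (zz (u x)) f := by
    have h : Continuous fun x => zz (u x) := by
      unfold zz
      exact continuous_const.mul (hu.add (hu.inv₀ hu0))
    exact (Polynomial.continuous_aeval f).comp h
  have c3 : Continuous fun x => qk (v x) (u x) := by
    unfold qk
    refine (hvc.mul ((hu.pow 2).sub continuous_const)).div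
      ((hu.sub hvc).mul ((hu.mul hvc).sub continuous_const)) fun x => ?_
    refine mul_ne_zero ?_ ?_
    · intro h
      have h1 : u x = v x := sub_eq_zero.1 h
      have h2 := hu1 x
      rw [h1, hvn] at h2
      linarith [hv1 x]
    · intro h
      have h1 : u x * v x = 1 := sub_eq_zero.1 h
      have h2 : ‖u x * v x‖ = 1 := by rw [h1, norm_one]
      rw [norm_mul, hu1, hvn, one_mul] at h2
      linarith [hv1 x]
  exact ((c1.mul c2).mul c3).div hu hu0

private theorem circ63 (N l : ℕ) (f : ℝ[X]) {v : ℝ} (hv0 : 0 < v) (hv : v < 1) :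
    CircleIntegrable (fun u => Psi N l u * aeval (zz u) f * qk v u / u) 0 1 := by
  have h := cont_aux63 N l f (X := ℝ) (v := fun _ => v) (u := circleMap 0 1) continuous_const
    (continuous_circleMap 0 1) (fun _ => hv0) (fun _ => hv) (fun θ => by simp)
  exact h.intervalIntegrable _ _

/-- block EB2b -/
theorem JJ_add (N l : ℕ) (f g : ℝ[X]) {v : ℝ} (hv0 : 0 < v) (hv : v < 1) :
    JJ N l (f + g) 1 v = JJ N l f 1 v + JJ N l g 1 v := by
  unfold JJ
  rw [← mul_add, ← circleIntegral.integral_add (circ63 N l f hv0 hv) (circ63 N l g hv0 hv)]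
  congr 1
  refine circleIntegral.integral_congr zero_le_one fun u _ => ?_
  simp only [map_add]
  ring

theorem JJ_C_mul (N l : ℕ) (c : ℝ) (f : ℝ[X]) (v : ℝ) :
    JJ N l (C c * f) 1 v = c * JJ N l f 1 v := by
  unfold JJ
  have h : (∮ u in C(0, 1), Psi N l u * aeval (zz u) (C c * f) * qk v u / u) =
      c * ∮ u in C(0, 1), Psi N l u * aeval (zz u) f * qk v u / u := by
    rw [← circleIntegral.integral_const_mul]
    refine circleIntegral.integral_congr zero_le_one fun u _ => ?_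
    simp only [map_mul, aeval_C, Complex.coe_algebraMap]
    ring
  rw [h]
  ring

/-- block EB2c -/
theorem continuousOn_JJ (N l : ℕ) (f : ℝ[X]) :
    ContinuousOn (fun v => JJ N l f 1 v) (Icc (45 / 100) (994 / 1000)) := by
  have hc : Continuous fun v : ℝ => JJ N l f 1 (max (45 / 100) (min v (994 / 1000))) := by
    unfold JJ circleIntegral
    refine continuous_const.mul ?_
    refine intervalIntegral.continuous_parametric_intervalIntegral_of_continuous' ?_ _ _
    have h := cont_aux63 N l f (X := ℝ × ℝ) (v := fun p => max (45 / 100) (min p.1 (994 / 1000)))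
      (u := fun p => circleMap 0 1 p.2)
      (continuous_const.max (continuous_fst.min continuous_const))
      ((continuous_circleMap 0 1).comp continuous_snd)
      (fun p => lt_of_lt_of_le (by norm_num) (le_max_left _ _))
      (fun p => max_lt (by norm_num) (lt_of_le_of_lt (min_le_right _ _) (by norm_num)))
      (fun p => by simp)
    have h2 : Continuous fun p : ℝ × ℝ => deriv (circleMap 0 1) p.2 := by
      simp only [deriv_circleMap]
      exact ((continuous_circleMap 0 1).comp continuous_snd).mul continuous_const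
    exact h2.smul h
  refine hc.continuousOn.congr fun v hv => ?_
  have h1 : max (45 / 100) (min v (994 / 1000)) = v := by
    rw [min_eq_left hv.2, max_eq_right hv.1]
  simp only [h1]

/-- block EB2d: polynomials of degree `< 15 l`. Hint: `‖aeval (zz u) f‖ ≤ (∑ |coeff|) R^(-deg)`,
`‖Psi N l u‖ ≤ 2^N R^(15 l) 2^(9 l)` for `‖u‖ = R ≤ 44/100`. -/
theorem small_S (N l : ℕ) (f : ℝ[X]) (hf : f.natDegree < 15 * l) {ε : ℝ} (hε : 0 < ε) :
    ∃ R : ℝ, 0 < R ∧ R ≤ 44 / 100 ∧
      ∀ u : ℂ, ‖u‖ = R → ‖Psi N l u‖ * ‖aeval (zz u) f‖ ≤ ε := by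
  set A : ℝ := ∑ i ∈ Finset.range (f.natDegree + 1), |f.coeff i| with hA
  have hA0 : 0 ≤ A := Finset.sum_nonneg fun i _ => abs_nonneg _
  have hB : 0 < 2 ^ N * A + 1 := by positivity
  refine ⟨min (44 / 100) (ε / (2 ^ N * A + 1)), lt_min (by norm_num) (by positivity),
    min_le_left _ _, fun u hu => ?_⟩
  set R : ℝ := min (44 / 100) (ε / (2 ^ N * A + 1)) with hRdef
  have hR0 : 0 < R := lt_min (by norm_num) (by positivity)
  have hR1 : R ≤ 44 / 100 := min_le_left _ _
  have hR2 : R * (2 ^ N * A + 1) ≤ ε := by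
    rw [← le_div_iff₀ hB]
    exact min_le_right _ _
  have hRle : R ≤ 1 := by linarith
  have hinv : 1 ≤ R⁻¹ := one_le_inv_iff₀.2 ⟨hR0, hRle⟩
  -- the polynomial
  have hz : ‖zz u‖ ≤ R⁻¹ := by
    have hb := bb_pos
    have hb2 := bb_lt
    unfold zz
    rw [norm_mul, Complex.norm_real, Real.norm_eq_abs, abs_of_pos (by linarith)]
    have h1 : ‖u + u⁻¹‖ ≤ R + R⁻¹ := by
      refine (norm_add_le _ _).trans ?_
      rw [norm_inv, hu]
    calc bb / 2 * ‖u + u⁻¹‖ ≤ 1 / 2 * (R⁻¹ + R⁻¹) :=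
          mul_le_mul (by linarith) (by linarith) (norm_nonneg _) (by norm_num)
      _ = R⁻¹ := by ring
  have hf1 : ‖aeval (zz u) f‖ ≤ A * R⁻¹ ^ f.natDegree := by
    rw [Polynomial.aeval_eq_sum_range, hA, Finset.sum_mul]
    refine (norm_sum_le _ _).trans (Finset.sum_le_sum fun i hi => ?_)
    have hi' : i ≤ f.natDegree := Nat.lt_succ_iff.1 (Finset.mem_range.1 hi)
    rw [norm_smul, Real.norm_eq_abs, norm_pow]
    refine mul_le_mul_of_nonneg_left ?_ (abs_nonneg _)
    calc ‖zz u‖ ^ i ≤ R⁻¹ ^ i := pow_le_pow_left₀ (norm_nonneg _) hz i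
      _ ≤ R⁻¹ ^ f.natDegree := pow_le_pow_right₀ hinv hi'
  -- the weight
  have hBL : ‖BL u‖ ≤ 1 := by
    unfold BL
    have hd : 0 < ‖98 + u ^ 2‖ := norm_pos_iff.2 (den_ne (by rw [hu]; exact hRle))
    rw [norm_div, div_le_one hd]
    have h1 : ‖98 * u ^ 2 + 1‖ ≤ 98 * R ^ 2 + 1 := by
      refine (norm_add_le _ _).trans ?_
      rw [norm_mul, norm_pow, hu, norm_one]
      simp
    have h2 : 98 - R ^ 2 ≤ ‖98 + u ^ 2‖ := by
      have h := norm_sub_norm_le (98 : ℂ) (-(u ^ 2))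
      rw [norm_neg, norm_pow, hu, sub_neg_eq_add] at h
      simpa using h
    have h3 : R ^ 2 ≤ (44 / 100) ^ 2 := pow_le_pow_left₀ hR0.le hR1 2
    linarith
  have hal : ‖1 - (al : ℂ) ^ 2 * u ^ 2‖ ≤ 2 := by
    refine (norm_sub_le _ _).trans ?_
    rw [norm_mul, norm_pow, norm_pow, hu, norm_one, Complex.norm_real, Real.norm_eq_abs,
      abs_of_pos al_pos]
    have h1 : al ^ 2 ≤ 1 := by unfold al; norm_num
    have h2 : R ^ 2 ≤ 1 := by nlinarith
    have h3 : al ^ 2 * R ^ 2 ≤ 1 * 1 := mul_le_mul h1 h2 (by positivity) (by norm_num)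
    linarith
  have hPsi : ‖Psi N l u‖ ≤ 2 ^ N * R ^ (15 * l) := by
    unfold Psi
    rw [norm_mul, norm_mul, norm_pow, norm_pow, norm_pow, hu]
    calc ‖1 - (al : ℂ) ^ 2 * u ^ 2‖ ^ N * R ^ (15 * l) * ‖BL u‖ ^ (9 * l) ≤
        2 ^ N * R ^ (15 * l) * 1 := by
          gcongr
          exact pow_le_one₀ (norm_nonneg _) hBL
      _ = _ := mul_one _
  have hexp : R ^ (15 * l) * R⁻¹ ^ f.natDegree ≤ R := by
    obtain ⟨m, hm⟩ : ∃ m, 15 * l = f.natDegree + (m + 1) := ⟨15 * l - f.natDegree - 1, by omega⟩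
    rw [hm, pow_add, inv_pow]
    have h1 : R ^ f.natDegree * R ^ (m + 1) * (R ^ f.natDegree)⁻¹ = R ^ (m + 1) := by
      have : R ^ f.natDegree ≠ 0 := (pow_pos hR0 _).ne'
      field_simp
    rw [h1, pow_succ]
    have h2 : R ^ m ≤ 1 := pow_le_one₀ hR0.le hRle
    nlinarith
  calc ‖Psi N l u‖ * ‖aeval (zz u) f‖ ≤ (2 ^ N * R ^ (15 * l)) * (A * R⁻¹ ^ f.natDegree) :=
        mul_le_mul hPsi hf1 (norm_nonneg _) (by positivity)
    _ = (2 ^ N * A) * (R ^ (15 * l) * R⁻¹ ^ f.natDegree) := by ring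
    _ ≤ (2 ^ N * A) * R := mul_le_mul_of_nonneg_left hexp (by positivity)
    _ ≤ ε := by linarith

end Pool.Agent.Helper47.EB
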