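import Pool.Agent.Helper47.EB.Defs

set_option autoImplicit false

open MeasureTheory Set Metric Polynomial Filter
open scoped Real Topology

namespace Pool.Agent.Helper47.EB

/-- the identity for the square of the absolute value -/
private lemma alg54 {q r β α S x y : ℝ} (h1 : α ^ 2 + S ^ 2 = 1) (h2 : x ^ 2 + y ^ 2 = 1) :
    (1 - q * α + r * (x * (r * (α ^ 2 - S ^ 2) - β * α) - y * (2 * r * α * S - β * S))) ^ 2 +
      (-(q * S) + r * (x * (2 * r * α * S - β * S) + y * (r * (α ^ 2 - S ^ 2) - β * α))) ^ 2 =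
    (1 - q) ^ 2 + r ^ 2 * (β - r) ^ 2 - 2 * r * (1 - q) * (β - r) * x +
      (2 * q + 2 * r ^ 3 * β) * (1 - α) +
      2 * r * (2 * r * (1 - α) * (x * (1 - α) + y * S) - (1 - α) * x * (4 * r - β - q * r) -
        y * S * (2 * r - β - q * r)) := by
  linear_combination (q ^ 2 + r ^ 2 * (r ^ 2 * (α ^ 2 + S ^ 2 + 1) - 2 * r * β * α + β ^ 2) +
    2 * x * r * (-(q * r * α) + q * β) + 2 * y * r ^ 2 * q * S - 2 * r ^ 2 * x) * h1 +
    ((r * (r * (α ^ 2 - S ^ 2) - β * α)) ^ 2 + (r * (2 * r * α * S - β * S)) ^ 2) * h2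

/-- the real inequality -/
private lemma ineq54 {q r β L α S x y : ℝ} (hr : 0 < r) (hom : 0 ≤ 2 * r - β - q * r)
    (hden : 0 < 2 * q + 2 * r ^ 3 * β - 2 * r * (4 * r - β - q * r))
    (hL : 2 * r ^ 2 * (2 * r - β - q * r) ^ 2 ≤
      L * (2 * q + 2 * r ^ 3 * β - 2 * r * (4 * r - β - q * r)))
    (h1 : α ^ 2 + S ^ 2 = 1) (h2 : x ^ 2 + y ^ 2 = 1) :
    -(L * y ^ 2) ≤ (2 * q + 2 * r ^ 3 * β) * (1 - α) +
      2 * r * (2 * r * (1 - α) * (x * (1 - α) + y * S) - (1 - α) * x * (4 * r - β - q * r) -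
        y * S * (2 * r - β - q * r)) := by
  obtain ⟨ω, hω⟩ : ∃ ω, ω = 2 * r - β - q * r := ⟨_, rfl⟩
  obtain ⟨D, hD⟩ : ∃ D, D = 2 * q + 2 * r ^ 3 * β - 2 * r * (4 * r - β - q * r) := ⟨_, rfl⟩
  obtain ⟨e, he⟩ : ∃ e, e = 1 - α := ⟨_, rfl⟩
  have hw : 4 * r - β - q * r = ω + 2 * r := by rw [hω]; ring
  have hA : 2 * q + 2 * r ^ 3 * β = D + 2 * r * (ω + 2 * r) := by rw [hD, hw]; ring
  rw [← hD, ← hω] at hL
  rw [← hω] at hom
  rw [← hD] at hden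
  rw [hA, hw, ← hω, ← he]
  have he0 : 0 ≤ e := by nlinarith [sq_nonneg S]
  have hS : S ^ 2 = 2 * e - e ^ 2 := by
    rw [he]
    linear_combination h1
  have hL0 : 0 ≤ L := by
    by_contra hcon
    push Not at hcon
    have h3 : L * D < 0 := mul_neg_of_neg_of_pos hcon hden
    have h4 : 0 ≤ 2 * r ^ 2 * ω ^ 2 := by positivity
    linarith
  -- Cauchy-Schwarz
  have hcs : -(ω + 2 * r) ≤ x * (2 * r * e - (ω + 2 * r)) + 2 * r * y * S := by
    have h3 : (x * (2 * r * e - (ω + 2 * r)) + 2 * r * y * S) ^ 2 ≤ (ω + 2 * r) ^ 2 := by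
      have h4 : (x * (2 * r * e - (ω + 2 * r)) + 2 * r * y * S) ^ 2 +
          (y * (2 * r * e - (ω + 2 * r)) - 2 * r * x * S) ^ 2 =
          (2 * r * e - (ω + 2 * r)) ^ 2 + 4 * r ^ 2 * S ^ 2 := by
        linear_combination ((2 * r * e - (ω + 2 * r)) ^ 2 + 4 * r ^ 2 * S ^ 2) * h2
      have h5 : (2 * r * e - (ω + 2 * r)) ^ 2 + 4 * r ^ 2 * S ^ 2 =
          (ω + 2 * r) ^ 2 - 4 * r * e * ω := by
        rw [hS]; ring
      have h6 : 0 ≤ 4 * r * e * ω := by positivity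
      nlinarith [sq_nonneg (y * (2 * r * e - (ω + 2 * r)) - 2 * r * x * S)]
    have h7 := abs_le_of_sq_le_sq h3 (by positivity)
    exact (abs_le.mp h7).1
  -- the term with `y`
  have hy : 2 * r * y * S * ω ≤ D * e + L * y ^ 2 := by
    have h3 : (2 * r * y * S * ω) ^ 2 ≤ (D * e + L * y ^ 2) ^ 2 := by
      have h4 : (2 * r * y * S * ω) ^ 2 = 4 * r ^ 2 * ω ^ 2 * y ^ 2 * S ^ 2 := by ring
      have h5 : 4 * r ^ 2 * ω ^ 2 * y ^ 2 * S ^ 2 ≤ 4 * r ^ 2 * ω ^ 2 * y ^ 2 * (2 * e) := by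
        apply mul_le_mul_of_nonneg_left _ (by positivity)
        rw [hS]
        nlinarith [sq_nonneg e]
      have h6 : 4 * r ^ 2 * ω ^ 2 * y ^ 2 * (2 * e) = (4 * y ^ 2 * e) * (2 * r ^ 2 * ω ^ 2) := by
        ring
      have h7 : (4 * y ^ 2 * e) * (2 * r ^ 2 * ω ^ 2) ≤ (4 * y ^ 2 * e) * (L * D) :=
        mul_le_mul_of_nonneg_left hL (by positivity)
      nlinarith [sq_nonneg (D * e - L * y ^ 2)]
    have h8 := abs_le_of_sq_le_sq h3 (by positivity)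
    exact (abs_le.mp h8).2
  have h9 := mul_le_mul_of_nonneg_left hcs (show 0 ≤ 2 * r * e by positivity)
  nlinarith [h9, hy]

/-- block EB6. Write `q = b r / R`, `σ = s R / (r u)` (unit modulus), `v = u²/R² = x + i y`. Then
`1 - 2 zz u s + s² = 1 - q σ + v σ r (r σ - b R)`. With `σ = (1-e) + i S`, `S² = 2e - e²`,
`ω = 2r - bR - q r ≥ 0`, `w = ω + 2r`, `A = 2q + 2r³ b R`:
`‖·‖² - D1(x) = A e + 2r (2 r e (x e + y S) - e x w - y S ω)`,
`x (2 r e - w) + 2 r y S ≥ -w` (Cauchy-Schwarz, `(2re-w)² + 4r²S² = w² - 4re(w-2r) ≤ w²`) and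
`2 r y S ω ≤ L y² + r² ω² S² / L ≤ L y² + 2 r² ω² e / L ≤ L y² + (A - 2 r w) e`. -/
theorem torus {R r L : ℝ} (hR : 0 < R) (hr : 0 < r)
    (hom : 0 ≤ 2 * r - bb * R - bb * r / R * r)
    (hden : 0 < 2 * (bb * r / R) + 2 * r ^ 3 * bb * R - 2 * r * (4 * r - bb * R - bb * r / R * r))
    (hL : 2 * r ^ 2 * (2 * r - bb * R - bb * r / R * r) ^ 2 ≤
      L * (2 * (bb * r / R) + 2 * r ^ 3 * bb * R - 2 * r * (4 * r - bb * R - bb * r / R * r)))
    {u s : ℂ} (hu : ‖u‖ = R) (hs : ‖s‖ = r) :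
    (1 - bb * r / R) ^ 2 + r ^ 2 * (bb * R - r) ^ 2
      - 2 * r * (1 - bb * r / R) * (bb * R - r) * ((u ^ 2).re / R ^ 2)
      - L * (1 - ((u ^ 2).re / R ^ 2) ^ 2) ≤ ‖1 - 2 * zz u * s + s ^ 2‖ ^ 2 := by
  have hu0 : u ≠ 0 := by
    intro h
    rw [h, norm_zero] at hu
    linarith
  have hRC : (R : ℂ) ≠ 0 := by exact_mod_cast hR.ne'
  have hrC : (r : ℂ) ≠ 0 := by exact_mod_cast hr.ne'
  obtain ⟨σ, hσ⟩ : ∃ σ : ℂ, σ = s * R / (r * u) := ⟨_, rfl⟩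
  obtain ⟨v, hv⟩ : ∃ v : ℂ, v = u ^ 2 / (R : ℂ) ^ 2 := ⟨_, rfl⟩
  have hσ1 : ‖σ‖ = 1 := by
    rw [hσ, norm_div, norm_mul, norm_mul, hs, hu, Complex.norm_real, Complex.norm_real,
      Real.norm_of_nonneg hR.le, Real.norm_of_nonneg hr.le]
    field_simp
  have hv1 : ‖v‖ = 1 := by
    rw [hv, norm_div, norm_pow, norm_pow, hu, Complex.norm_real, Real.norm_of_nonneg hR.le]
    field_simp
  have hσ2 : σ.re ^ 2 + σ.im ^ 2 = 1 := by
    have h := Complex.sq_norm σ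
    rw [hσ1, Complex.normSq_apply] at h
    linarith
  have hv2 : v.re ^ 2 + v.im ^ 2 = 1 := by
    have h := Complex.sq_norm v
    rw [hv1, Complex.normSq_apply] at h
    linarith
  have hx : (u ^ 2).re / R ^ 2 = v.re := by
    have h : v = u ^ 2 / ((R ^ 2 : ℝ) : ℂ) := by rw [hv]; push_cast; rfl
    rw [h, Complex.div_ofReal_re]
  obtain ⟨q, hq⟩ : ∃ q : ℝ, q = bb * r / R := ⟨_, rfl⟩
  have hZ : 1 - 2 * zz u * s + s ^ 2 =
      1 - (q : ℂ) * σ + (r : ℂ) * (v * ((r : ℂ) * σ ^ 2 - ((bb * R : ℝ) : ℂ) * σ)) := by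
    rw [hσ, hv, hq]
    unfold zz
    push_cast
    field_simp
    ring
  have hre : (1 - 2 * zz u * s + s ^ 2).re = 1 - q * σ.re + r * (v.re * (r * (σ.re ^ 2 - σ.im ^ 2) -
      (bb * R) * σ.re) - v.im * (2 * r * σ.re * σ.im - (bb * R) * σ.im)) := by
    rw [hZ]
    simp only [Complex.add_re, Complex.sub_re, Complex.one_re, Complex.mul_re, Complex.ofReal_re,
      Complex.ofReal_im, Complex.sub_im, Complex.mul_im, pow_two]
    ring
  have him : (1 - 2 * zz u * s + s ^ 2).im = -(q * σ.im) + r * (v.re * (2 * r * σ.re * σ.im -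
      (bb * R) * σ.im) + v.im * (r * (σ.re ^ 2 - σ.im ^ 2) - (bb * R) * σ.re)) := by
    rw [hZ]
    simp only [Complex.add_im, Complex.sub_re, Complex.one_im, Complex.mul_re, Complex.ofReal_re,
      Complex.ofReal_im, Complex.sub_im, Complex.mul_im, pow_two]
    ring
  have hnorm : ‖1 - 2 * zz u * s + s ^ 2‖ ^ 2 = (1 - 2 * zz u * s + s ^ 2).re ^ 2 +
      (1 - 2 * zz u * s + s ^ 2).im ^ 2 := by
    rw [Complex.sq_norm, Complex.normSq_apply]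
    ring
  rw [hnorm, hre, him, hx, alg54 hσ2 hv2]
  have e1 : 2 * (bb * r / R) + 2 * r ^ 3 * bb * R - 2 * r * (4 * r - bb * R - bb * r / R * r) =
      2 * q + 2 * r ^ 3 * (bb * R) - 2 * r * (4 * r - bb * R - q * r) := by
    rw [hq]; ring
  rw [e1] at hden hL
  rw [← hq] at hom hL ⊢
  have h := ineq54 hr hom hden hL hσ2 hv2
  have h3 : 1 - v.re ^ 2 = v.im ^ 2 := by linarith
  rw [h3]
  linarith

end Pool.Agent.Helper47.EB
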