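import Pool.Agent.Helper47.EB.Gen
import Pool.Agent.Helper47.EB.Torus

set_option autoImplicit false

open MeasureTheory Set Metric Polynomial Filter
open scoped Real Topology

namespace Pool.Agent.Helper47.EB

open Pool.Agent.Helper47.KP (PP)

/-- the rational inequalities of one cell -/
structure Cell (R r L β κ : ℝ) : Prop where
  R_pos : 0 < R
  R_le : R ≤ 44 / 100
  r_pos : 0 < r
  r_lt : r < 1
  β_pos : 0 < β
  κ_pos : 0 < κ
  small : bb * r * (R + 1 / R) + r ^ 2 < 1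
  om : 0 ≤ 2 * r - bb * R - bb * r / R * r
  den : 0 < 2 * (bb * r / R) + 2 * r ^ 3 * bb * R - 2 * r * (4 * r - bb * R - bb * r / R * r)
  hL : 2 * r ^ 2 * (2 * r - bb * R - bb * r / R * r) ^ 2 ≤
      L * (2 * (bb * r / R) + 2 * r ^ 3 * bb * R - 2 * r * (4 * r - bb * R - bb * r / R * r))
  poly : ∀ x : ℝ, -1 ≤ x → x ≤ 1 →
    (1 - 2 * al ^ 2 * R ^ 2 * x + al ^ 4 * R ^ 4) ^ 2 *
      (193 * β * (1 + 2 / 98 * R ^ 2 * x + R ^ 4 / 98 ^ 2) +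
        18 * (R ^ 4 + 2 / 98 * R ^ 2 * x + 1 / 98 ^ 2)) ≤
    κ * 211 * β * (1 + 2 / 98 * R ^ 2 * x + R ^ 4 / 98 ^ 2) *
      ((1 - bb * r / R) ^ 2 + r ^ 2 * (bb * R - r) ^ 2
        - 2 * r * (1 - bb * r / R) * (bb * R - r) * x - L * (1 - x ^ 2))

private lemma nsq61 (c : ℝ) (w : ℂ) : ‖(c : ℂ) + w‖ ^ 2 = c ^ 2 + 2 * c * w.re + ‖w‖ ^ 2 := by
  rw [Complex.sq_norm, Complex.sq_norm, Complex.normSq_apply, Complex.normSq_apply]
  simp only [Complex.add_re, Complex.add_im, Complex.ofReal_re, Complex.ofReal_im]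
  ring

/-- weighted AM-GM -/
private lemma amgm61 {y : ℝ} (hy : 0 ≤ y) : y ^ 18 ≤ ((193 + 18 * y) / 211) ^ 211 := by
  have h1 := Real.geom_mean_le_arith_mean2_weighted (w₁ := 193 / 211) (w₂ := 18 / 211) (p₁ := 1) (p₂ := y)
    (by norm_num) (by norm_num) (by norm_num) hy (by norm_num)
  rw [Real.one_rpow, one_mul, mul_one] at h1
  have h2 : (y ^ ((18 : ℝ) / 211)) ^ 211 = y ^ 18 := by
    rw [← Real.rpow_natCast (y ^ ((18 : ℝ) / 211)) 211, ← Real.rpow_mul hy]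
    norm_num
  rw [← h2]
  refine pow_le_pow_left₀ (Real.rpow_nonneg hy _) (h1.trans (le_of_eq ?_)) 211
  ring

/-- block EB7. With `x = Re(u²)/R²`, `A = ‖1 - a² u²‖² = 1 - 2a²R²x + a⁴R⁴`,
`B = ‖BL u‖² = (R⁴ + 2/98 R² x + 1/98²)/(1 + 2/98 R² x + R⁴/98²)`, `m =` the left side of `torus`,
`L1 = (193 β + 18 B)/(211 β)`: `Cell.poly` is `A² L1 ≤ κ m` (so `m > 0`), Bernoulli gives
`B^18 ≤ β^18 L1^211` (`(1 + (18/211)(B/β - 1))^(211) ≥ (B/β)^18`, weighted AM-GM), so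
`(A²/m)^(211 l) B^(18 l) ≤ (κ^211 β^18)^l`, and `‖Psi‖^4 = A^(2N) R^(60 l) B^(18 l)`; the leftover
`(A²/m)^(N-211 l) / m` is bounded since `A²/m ≤ 211 κ/193`, `m ≥ 193 A²/(211 κ)`, `A ≥ 1/2`. -/
theorem cell_bound {R r L β κ : ℝ} (hc : Cell R r L β κ) :
    ∃ K : ℝ, 0 < K ∧ ∀ d l k : ℕ, 3 ≤ d → 211 * l ≤ d - 3 → d - 3 < 211 * (l + 1) →
      ∀ u : ℂ, ‖u‖ = R →
        (‖Psi (d - 3) l u‖ * ‖aeval (zz u) (PP d k)‖ *
          ((Nat.choose (k + (d - 3)) k : ℝ) * r ^ k)) ^ 4 ≤ K * (κ ^ 211 * β ^ 18 * R ^ 60) ^ l := by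
  have hκ := hc.κ_pos
  have hβ := hc.β_pos
  have hR := hc.R_pos
  have hr := hc.r_pos
  refine ⟨(1 + 211 / 193 * κ) ^ 211 * (4 * (211 / 193 * κ)), by positivity, ?_⟩
  intro d l k hd hl1 hl2 u hu
  obtain ⟨N, hN⟩ : ∃ N, N = d - 3 := ⟨_, rfl⟩
  obtain ⟨j, hj⟩ : ∃ j, N = 211 * l + j := ⟨N - 211 * l, by omega⟩
  have hj2 : j ≤ 211 := by omega
  rw [← hN]
  obtain ⟨x, hx⟩ : ∃ x, x = (u ^ 2).re / R ^ 2 := ⟨_, rfl⟩
  have hu2 : ‖u ^ 2‖ = R ^ 2 := by rw [norm_pow, hu]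
  have hre : (u ^ 2).re = R ^ 2 * x := by
    rw [hx]
    field_simp
  have habs : |(u ^ 2).re| ≤ R ^ 2 := (Complex.abs_re_le_norm _).trans hu2.le
  have hx1 : -1 ≤ x := by
    rw [hx, le_div_iff₀ (by positivity)]
    have := (abs_le.1 habs).1
    linarith
  have hx2 : x ≤ 1 := by
    rw [hx, div_le_iff₀ (by positivity)]
    have := (abs_le.1 habs).2
    linarith
  have hR1 : R ≤ 44 / 100 := hc.R_le
  have hR2 : R ^ 2 ≤ 1 := pow_le_one₀ hR.le (by linarith)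
  -- A
  obtain ⟨A, hA⟩ : ∃ A, A = 1 - 2 * al ^ 2 * R ^ 2 * x + al ^ 4 * R ^ 4 := ⟨_, rfl⟩
  have hAn : ‖1 - (al : ℂ) ^ 2 * u ^ 2‖ ^ 2 = A := by
    have h1 : 1 - (al : ℂ) ^ 2 * u ^ 2 = ((1 : ℝ) : ℂ) + ((-al ^ 2 : ℝ) : ℂ) * u ^ 2 := by
      push_cast
      ring
    rw [h1, nsq61, norm_mul, hu2, Complex.norm_real, Complex.re_ofReal_mul, hre, hA, Real.norm_eq_abs, abs_neg,
      abs_of_nonneg (by positivity)]
    ring
  have hA1 : 1 / 2 ≤ A := by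
    rw [hA]
    have h1 : al ^ 2 ≤ 1 / 4 := by unfold al; norm_num
    have h2 : 2 * al ^ 2 * R ^ 2 * x ≤ 1 / 2 := by
      have h3 : R ^ 2 * x ≤ 1 := by
        have := mul_le_mul_of_nonneg_left hx2 (sq_nonneg R)
        linarith
      have h4 := mul_le_mul_of_nonneg_left h3 (show 0 ≤ 2 * al ^ 2 by positivity)
      linarith
    have h3 : 0 ≤ al ^ 4 * R ^ 4 := by positivity
    linarith
  have hA0 : 0 < A := by linarith
  -- B
  obtain ⟨Dn, hDn⟩ : ∃ Dn, Dn = 1 + 2 / 98 * R ^ 2 * x + R ^ 4 / 98 ^ 2 := ⟨_, rfl⟩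
  obtain ⟨Bn, hBn⟩ : ∃ Bn, Bn = R ^ 4 + 2 / 98 * R ^ 2 * x + 1 / 98 ^ 2 := ⟨_, rfl⟩
  have hDn0 : 0 < Dn := by
    rw [hDn]
    have h3 : -1 ≤ R ^ 2 * x := by
      have := mul_le_mul_of_nonneg_left hx1 (sq_nonneg R)
      linarith
    have h4 : 0 ≤ R ^ 4 / 98 ^ 2 := by positivity
    linarith
  obtain ⟨B, hB⟩ : ∃ B, B = ‖BL u‖ ^ 2 := ⟨_, rfl⟩
  have hB0 : 0 ≤ B := by rw [hB]; positivity
  have hBD : B * Dn = Bn := by
    have h1 : ‖(98 : ℂ) + u ^ 2‖ ^ 2 = 98 ^ 2 * Dn := by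
      have h2 : (98 : ℂ) + u ^ 2 = ((98 : ℝ) : ℂ) + u ^ 2 := by push_cast; ring
      rw [h2, nsq61, hu2, hre, hDn]
      ring
    have h3 : ‖98 * u ^ 2 + 1‖ ^ 2 = 98 ^ 2 * Bn := by
      have h4 : 98 * u ^ 2 + 1 = ((1 : ℝ) : ℂ) + ((98 : ℝ) : ℂ) * u ^ 2 := by push_cast; ring
      rw [h4, nsq61, norm_mul, hu2, Complex.norm_real, Complex.re_ofReal_mul, hre, hBn, Real.norm_eq_abs,
        abs_of_pos (by norm_num)]
      ring
    have h5 : B = (98 ^ 2 * Bn) / (98 ^ 2 * Dn) := by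
      rw [hB]
      unfold BL
      rw [norm_div, div_pow, h1, h3]
    rw [h5]
    field_simp
  -- m
  obtain ⟨m, hm⟩ : ∃ m, m = (1 - bb * r / R) ^ 2 + r ^ 2 * (bb * R - r) ^ 2
        - 2 * r * (1 - bb * r / R) * (bb * R - r) * x - L * (1 - x ^ 2) := ⟨_, rfl⟩
  have hpoly : A ^ 2 * (193 * β * Dn + 18 * Bn) ≤ κ * 211 * β * Dn * m := by
    have := hc.poly x hx1 hx2
    rw [← hA, ← hDn, ← hBn, ← hm] at this
    exact this
  obtain ⟨L1, hL1⟩ : ∃ L1, L1 = (193 + 18 * (B / β)) / 211 := ⟨_, rfl⟩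
  have hL1a : 193 / 211 ≤ L1 := by
    rw [hL1]
    have : 0 ≤ B / β := by positivity
    linarith
  have hL10 : 0 < L1 := by linarith
  have hAm : A ^ 2 * L1 ≤ κ * m := by
    have h1 : 193 * β * Dn + 18 * Bn = L1 * (211 * β * Dn) := by
      rw [← hBD, hL1]
      field_simp
    rw [h1] at hpoly
    have h2 : 0 < 211 * β * Dn := by positivity
    have h3 : (A ^ 2 * L1) * (211 * β * Dn) ≤ (κ * m) * (211 * β * Dn) := by linarith
    exact le_of_mul_le_mul_right h3 h2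
  have hm0 : 0 < m := by
    have h1 : 0 < κ * m := lt_of_lt_of_le (by positivity) hAm
    exact (mul_pos_iff_of_pos_left hκ).1 h1
  have hρ : A ^ 2 / m ≤ κ / L1 := by
    rw [div_le_div_iff₀ hm0 hL10]
    linarith
  have hκ1 : κ / L1 ≤ 211 / 193 * κ := by
    rw [div_le_iff₀ hL10]
    have := mul_le_mul_of_nonneg_left hL1a (show 0 ≤ 211 / 193 * κ by positivity)
    linarith
  have hm1 : 1 / m ≤ 4 * (211 / 193 * κ) := by
    rw [div_le_iff₀ hm0]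
    have h1 : (1 / 4) * (193 / 211) ≤ κ * m := by
      refine le_trans ?_ hAm
      have h2 : (1 / 4 : ℝ) ≤ A ^ 2 := by
        have := pow_le_pow_left₀ (by norm_num : (0 : ℝ) ≤ 1 / 2) hA1 2
        norm_num at this ⊢
        exact this
      exact mul_le_mul h2 hL1a (by norm_num) (by positivity)
    linarith
  -- Bernoulli
  have hBern : B ^ 18 ≤ β ^ 18 * L1 ^ 211 := by
    have h1 := amgm61 (y := B / β) (by positivity)
    rw [← hL1, div_pow, div_le_iff₀ (by positivity)] at h1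
    linarith
  -- Psi
  have hPsi : ‖Psi N l u‖ ^ 4 = (A ^ 2) ^ N * (R ^ 60) ^ l * (B ^ 18) ^ l := by
    unfold Psi
    rw [norm_mul, norm_mul, norm_pow, norm_pow, norm_pow, hu, hB, ← hAn]
    ring
  -- PP
  have hz : 2 * ‖zz u‖ * r + r ^ 2 < 1 := by
    have h1 : ‖zz u‖ ≤ bb / 2 * (R + 1 / R) := by
      unfold zz
      rw [norm_mul, Complex.norm_real, Real.norm_eq_abs, abs_of_pos (by have := bb_pos; positivity)]
      refine mul_le_mul_of_nonneg_left ?_ (by have := bb_pos; positivity)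
      refine (norm_add_le _ _).trans ?_
      rw [norm_inv, hu, one_div]
    have h2 := hc.small
    have h3 : 2 * ‖zz u‖ * r ≤ bb * r * (R + 1 / R) := by
      have := mul_le_mul_of_nonneg_left h1 (show 0 ≤ 2 * r by positivity)
      linarith
    linarith
  have hPP := PP_coeff_bound hd k (zz u) hr hz hm0 (fun s hs => by
    have := torus hR hr hc.om hc.den hc.hL hu hs
    rw [← hx, ← hm] at this
    exact this)
  have hd2 : d - 2 = N + 1 := by omega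
  rw [hd2, ← hN] at hPP
  -- assembly
  have e1 : (‖Psi N l u‖ * ‖aeval (zz u) (PP d k)‖ * ((Nat.choose (k + N) k : ℝ) * r ^ k)) ^ 4 =
      ‖Psi N l u‖ ^ 4 * ((Nat.choose (k + N) k : ℝ) * ‖aeval (zz u) (PP d k)‖ * r ^ k) ^ 4 := by ring
  rw [e1, hPsi]
  have h1 : ((Nat.choose (k + N) k : ℝ) * ‖aeval (zz u) (PP d k)‖ * r ^ k) ^ 4 ≤ 1 / m ^ (N + 1) := by
    rw [le_div_iff₀ (by positivity)]
    exact hPP
  have h2 : (A ^ 2) ^ N * (R ^ 60) ^ l * (B ^ 18) ^ l * (1 / m ^ (N + 1)) =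
      ((A ^ 2 / m) ^ 211 * B ^ 18 * R ^ 60) ^ l * ((A ^ 2 / m) ^ j * (1 / m)) := by
    rw [hj]
    simp only [mul_pow, div_pow, pow_add, pow_mul, pow_one]
    field_simp
  have h3 : (A ^ 2 / m) ^ 211 * B ^ 18 * R ^ 60 ≤ κ ^ 211 * β ^ 18 * R ^ 60 := by
    refine mul_le_mul_of_nonneg_right ?_ (by positivity)
    calc (A ^ 2 / m) ^ 211 * B ^ 18 ≤ (κ / L1) ^ 211 * (β ^ 18 * L1 ^ 211) :=
          mul_le_mul (pow_le_pow_left₀ (by positivity) hρ _) hBern (by positivity) (by positivity)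
      _ = κ ^ 211 * β ^ 18 := by
          rw [div_pow]
          field_simp
  have h4' : ∀ e : ℕ, j ≤ e → (A ^ 2 / m) ^ j ≤ (1 + 211 / 193 * κ) ^ e := by
    intro e he
    calc (A ^ 2 / m) ^ j ≤ (1 + 211 / 193 * κ) ^ j :=
          pow_le_pow_left₀ (by positivity) (by linarith) _
      _ ≤ (1 + 211 / 193 * κ) ^ e := pow_le_pow_right₀ (by linarith [mul_pos (show (0 : ℝ) < 211 / 193 by norm_num) hκ]) he
  have h4 : (A ^ 2 / m) ^ j ≤ (1 + 211 / 193 * κ) ^ 211 := h4' 211 hj2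
  have q1 : 0 ≤ A ^ 2 / m := by positivity
  have p1 : 0 ≤ (A ^ 2 / m) ^ 211 * B ^ 18 * R ^ 60 :=
    mul_nonneg (mul_nonneg (pow_nonneg q1 _) (pow_nonneg hB0 _)) (pow_nonneg hR.le _)
  have p2 : 0 ≤ 1 / m := by positivity
  have q2 : 0 ≤ 1 + 211 / 193 * κ := by positivity
  have p3 : 0 ≤ (1 + 211 / 193 * κ) ^ 211 := pow_nonneg q2 _
  have p4 : 0 ≤ (A ^ 2 / m) ^ j * (1 / m) := by positivity
  have p5 : 0 ≤ (A ^ 2) ^ N * (R ^ 60) ^ l * (B ^ 18) ^ l := by positivity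
  have h5 := mul_le_mul_of_nonneg_left h1 p5
  rw [h2] at h5
  refine h5.trans ?_
  clear h5 h2 h1 hPsi hPP e1
  generalize (A ^ 2 / m) ^ 211 * B ^ 18 * R ^ 60 = G at *
  generalize κ ^ 211 * β ^ 18 * R ^ 60 = H at *
  generalize (1 + 211 / 193 * κ) ^ 211 = E at *
  generalize 4 * (211 / 193 * κ) = F at *
  rw [mul_comm (E * F)]
  exact mul_le_mul (pow_le_pow_left₀ p1 h3 l) (mul_le_mul h4 hm1 p2 p3) p4 (pow_nonneg (p1.trans h3) l)

end Pool.Agent.Helper47.EB
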