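import Pool.Agent.Helper47.KP.Bound

/-!
The explicit dual function with exponent `0.3962`: definitions.

`zz u = (b/2)(u + 1/u)` maps the unit circle onto `[-b, b]`, `b = 2a/(1+a²) < 1/2`, and
`1 - (zz u)² = c² (1 - a² u²)(1 - a² u⁻²)`, `c = 1/(1+a²)`.
-/

set_option autoImplicit false

open MeasureTheory Set Metric Polynomial Filter
open scoped Real Topology

namespace Pool.Agent.Helper47.EB

open Pool.Agent.Helper47.KP (wt)

/-- `a` -/
noncomputable def al : ℝ := 56 / 209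

/-- `b = 2a/(1+a²)` -/
noncomputable def bb : ℝ := 23408 / 46817

/-- `c = 1/(1+a²)` -/
noncomputable def cc : ℝ := 43681 / 46817

/-- Joukowski map -/
noncomputable def zz (u : ℂ) : ℂ := ((bb / 2 : ℝ) : ℂ) * (u + u⁻¹)

/-- the factor of absolute value one on the unit circle -/
noncomputable def BL (u : ℂ) : ℂ := (98 * u ^ 2 + 1) / (98 + u ^ 2)

/-- the function `Ψ` -/
noncomputable def Psi (N l : ℕ) (u : ℂ) : ℂ :=
  (1 - (al : ℂ) ^ 2 * u ^ 2) ^ N * u ^ (15 * l) * BL u ^ (9 * l)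

/-- `Ψ` on the real axis -/
noncomputable def PsiR (N l : ℕ) (v : ℝ) : ℝ :=
  (1 - al ^ 2 * v ^ 2) ^ N * v ^ (15 * l) * ((98 * v ^ 2 + 1) / (98 + v ^ 2)) ^ (9 * l)

/-- inverse of the Joukowski map on `[b, 1]` -/
noncomputable def uu (t : ℝ) : ℝ := (t - √(t ^ 2 - bb ^ 2)) / bb

/-- the kernel -/
noncomputable def qk (v : ℝ) (u : ℂ) : ℂ := v * (u ^ 2 - 1) / ((u - v) * (u * v - 1))

/-- the contour integral over `|u| = R` -/
noncomputable def JJ (N l : ℕ) (f : ℝ[X]) (R v : ℝ) : ℂ :=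
  (2 * π * Complex.I)⁻¹ * ∮ u in C(0, R), Psi N l u * aeval (zz u) f * qk v u / u

lemma Psi_ofReal (N l : ℕ) (v : ℝ) : Psi N l (v : ℂ) = (PsiR N l v : ℂ) := by
  unfold Psi PsiR BL
  push_cast
  rfl

lemma zz_ofReal (v : ℝ) : zz (v : ℂ) = ((bb / 2 * (v + v⁻¹) : ℝ) : ℂ) := by
  unfold zz
  push_cast
  rfl

lemma aeval_zz_ofReal (f : ℝ[X]) (v : ℝ) :
    aeval (zz (v : ℂ)) f = ((f.eval (bb / 2 * (v + v⁻¹)) : ℝ) : ℂ) := by
  rw [zz_ofReal]
  have h := Polynomial.aeval_algebraMap_apply (A := ℝ) ℂ (bb / 2 * (v + v⁻¹)) f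
  rw [Polynomial.coe_aeval_eq_eval] at h
  exact h

lemma al_pos : 0 < al := by unfold al; norm_num
lemma bb_pos : 0 < bb := by unfold bb; norm_num
lemma bb_lt : bb < 1 / 2 := by unfold bb; norm_num
lemma cc_pos : 0 < cc := by unfold cc; norm_num
lemma cc_lt : cc < 1 := by unfold cc; norm_num

/-- `98 + u² ≠ 0` for `|u| ≤ 1` -/
lemma den_ne {u : ℂ} (hu : ‖u‖ ≤ 1) : (98 : ℂ) + u ^ 2 ≠ 0 := by
  intro h
  have h1 : u ^ 2 = -98 := by linear_combination h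
  have h2 : ‖u‖ ^ 2 = 98 := by rw [← norm_pow, h1]; simp
  have h3 := norm_nonneg u
  nlinarith

lemma one_sub_sq {u : ℂ} (hu : u ≠ 0) :
    1 - zz u ^ 2 = (cc : ℂ) ^ 2 * (1 - (al : ℂ) ^ 2 * u ^ 2) * (1 - (al : ℂ) ^ 2 * (u⁻¹) ^ 2) := by
  unfold zz bb cc al
  push_cast
  field_simp
  ring

/-- properties of `uu` -/
lemma uu_spec {t : ℝ} (h1 : 1 / 2 ≤ t) (h2 : t ≤ 2 / 3) :
    45 / 100 ≤ uu t ∧ uu t ≤ 994 / 1000 ∧ bb / 2 * (uu t + (uu t)⁻¹) = t := by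
  have hb := bb_pos
  have hb2 := bb_lt
  have hs0 : 0 ≤ t ^ 2 - bb ^ 2 := by nlinarith
  set s := √(t ^ 2 - bb ^ 2) with hs
  have hs1 : s ^ 2 = t ^ 2 - bb ^ 2 := Real.sq_sqrt hs0
  have hs2 : 0 ≤ s := Real.sqrt_nonneg _
  have hst : s < t := by nlinarith
  have e : uu t = (t - s) / bb := rfl
  refine ⟨?_, ?_, ?_⟩
  · rw [e, le_div_iff₀ hb]
    have h3 : 0 ≤ t - 45 / 100 * bb := by linarith
    have h4 : s ≤ t - 45 / 100 * bb := by
      apply le_of_sq_le_sq _ h3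
      rw [hs1]
      have h5 : t ≤ 2 / 3 := h2
      unfold bb
      nlinarith
    linarith
  · rw [e, div_le_iff₀ hb]
    have h3 : t - 994 / 1000 * bb ≤ s := by
      apply le_of_sq_le_sq _ hs2
      rw [hs1]
      unfold bb
      nlinarith
    linarith
  · have h3 : uu t ≠ 0 := by
      rw [e]
      exact (div_pos (by linarith) hb).ne'
    rw [e]
    have h4 : t - s ≠ 0 := by linarith
    rw [inv_div]
    field_simp
    nlinarith [hs1]

lemma continuousOn_uu : ContinuousOn uu (Icc (1 / 2) (2 / 3)) := by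
  unfold uu
  have hb := bb_pos
  apply Continuous.continuousOn
  fun_prop

end Pool.Agent.Helper47.EB
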