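import Pool.Agent.Helper47.KP.Dens

set_option autoImplicit false

open MeasureTheory Set Metric Polynomial Filter
open scoped Real Topology

namespace Pool.Agent.Helper47.EB

open Pool.Agent.Helper47.KP (wt wt_nonneg continuous_wt pol pol_natDegree pol_eq pol_add
  continuous_pol2 Psi Psi' hasDerivAt_Psi continuous_Psi continuous_Psi' abs_le_Psi abs_Psi'_le N1
  continuous_N1 N1_smul N1_pos)

lemma pol_lin {n : ℕ} (c e : Fin (n + 1) → ℝ) (s : ℝ) :
    pol (c + s • e) = pol c + C s * pol e := by
  apply Polynomial.funext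
  intro t
  rw [pol_add, eval_add, eval_mul, eval_C]

/-- duality for a general linear functional (copy of `KP.exists_dual`) -/
theorem exists_dual_gen {n D : ℕ} {b r r' : ℝ} (hb0 : 0 < b) (hb1 : b < 1) (hr' : 0 ≤ r')
    (hr : r' < r) (Λ : ℝ[X] → ℝ) (hadd : ∀ f g, Λ (f + g) = Λ f + Λ g)
    (hmul : ∀ (c : ℝ) f, Λ (C c * f) = c * Λ f)
    (hrem : ∀ f : ℝ[X], f.natDegree ≤ n → Λ f ≤ r' * ∫ t in (-b)..b, |f.eval t| * wt D t) :
    ∃ a : ℝ → ℝ, Continuous a ∧ (∀ t, |a t| ≤ r) ∧ ∀ f : ℝ[X], f.natDegree ≤ n →
      ∫ t in (-b)..b, a t * (f.eval t * wt D t) = Λ f := by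
  have hr0 : 0 < r := by linarith
  have hw := continuous_wt D
  set ℓ : (Fin (n + 1) → ℝ) → ℝ := fun c => Λ (pol c) with hℓ
  have hℓadd : ∀ (c e : Fin (n + 1) → ℝ) (s : ℝ), ℓ (c + s • e) = ℓ c + s * ℓ e := by
    intro c e s
    simp only [hℓ]
    rw [pol_lin, hadd, hmul]
  have hℓ0 : ℓ 0 = 0 := by
    have h := hℓadd 0 0 1
    simp only [smul_zero, add_zero, one_mul] at h
    linarith
  have hℓc : Continuous ℓ := by
    let L : (Fin (n + 1) → ℝ) →ₗ[ℝ] ℝ :=
      { toFun := ℓ
        map_add' := fun c e => by
          have h := hℓadd c e 1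
          rw [one_smul, one_mul] at h
          exact h
        map_smul' := fun s c => by
          have h := hℓadd 0 c s
          rw [zero_add, hℓ0, zero_add] at h
          exact h }
    exact L.continuous_of_finiteDimensional
  set J : (Fin (n + 1) → ℝ) → ℝ := fun c =>
    (∫ t in (-b)..b, r * (Psi ((pol c).eval t) * wt D t)) - ℓ c with hJ
  have hJc : Continuous J := by
    apply Continuous.sub _ hℓc
    apply intervalIntegral.continuous_parametric_intervalIntegral_of_continuous'
    exact continuous_const.mul ((continuous_Psi.comp continuous_pol2).mul (hw.comp continuous_snd))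
  -- coercivity
  have hlow : ∀ c, (r - r') * N1 D b c ≤ J c := by
    intro c
    have h1 : r * N1 D b c ≤ ∫ t in (-b)..b, r * (Psi ((pol c).eval t) * wt D t) := by
      unfold N1
      rw [← intervalIntegral.integral_const_mul]
      apply intervalIntegral.integral_mono_on (by linarith)
      · exact (continuous_const.mul ((pol c).continuous.abs.mul hw)).intervalIntegrable _ _
      · exact (continuous_const.mul ((continuous_Psi.comp (pol c).continuous).mul
          hw)).intervalIntegrable _ _
      · intro t _
        apply mul_le_mul_of_nonneg_left _ hr0.le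
        exact mul_le_mul_of_nonneg_right (abs_le_Psi _) (wt_nonneg _ _)
    have h2 := hrem (pol c) (pol_natDegree c)
    have h3 : ℓ c ≤ r' * N1 D b c := h2
    simp only [hJ]
    linarith
  obtain ⟨κ, hκ, hκN⟩ : ∃ κ : ℝ, 0 < κ ∧ ∀ c : Fin (n + 1) → ℝ, κ * ‖c‖ ≤ N1 D b c := by
    have hcomp : IsCompact (sphere (0 : Fin (n + 1) → ℝ) 1) := isCompact_sphere _ _
    have hne : (sphere (0 : Fin (n + 1) → ℝ) 1).Nonempty := by
      refine ⟨fun _ => 1, ?_⟩
      rw [mem_sphere_zero_iff_norm]
      simp
    obtain ⟨c₀, hc₀, hmin⟩ := hcomp.exists_isMinOn hne (continuous_N1 D b).continuousOn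
    have hc₀ne : c₀ ≠ 0 := by
      intro h
      rw [h] at hc₀
      simp at hc₀
    refine ⟨N1 D b c₀, N1_pos D hb0 hb1 hc₀ne, fun c => ?_⟩
    by_cases hc : c = 0
    · subst hc
      rw [norm_zero, mul_zero]
      have := N1_smul D b 0 c₀
      rw [zero_smul, abs_zero, zero_mul] at this
      exact this.ge
    · have hn : 0 < ‖c‖ := norm_pos_iff.2 hc
      have h1 : (‖c‖⁻¹ • c) ∈ sphere (0 : Fin (n + 1) → ℝ) 1 := by
        rw [mem_sphere_zero_iff_norm, norm_smul, norm_inv, norm_norm, inv_mul_cancel₀ hn.ne']
      have h2 := hmin h1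
      simp only [mem_ofPred_eq] at h2
      rw [N1_smul, abs_of_pos (inv_pos.2 hn), inv_mul_eq_div, le_div_iff₀ hn] at h2
      exact h2
  have hlim : Tendsto J (cocompact _) atTop := by
    have h1 : Tendsto (fun c : Fin (n + 1) → ℝ => ((r - r') * κ) * ‖c‖) (cocompact _) atTop :=
      (tendsto_norm_cocompact_atTop).const_mul_atTop (mul_pos (by linarith) hκ)
    refine tendsto_atTop_mono (fun c => ?_) h1
    have h2 := hlow c
    have h3 := hκN c
    have h4 : (r - r') * (κ * ‖c‖) ≤ (r - r') * N1 D b c :=
      mul_le_mul_of_nonneg_left h3 (by linarith)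
    linarith
  obtain ⟨c, hc⟩ := hJc.exists_forall_le hlim
  -- the function
  refine ⟨fun t => r * Psi' ((pol c).eval t),
    continuous_const.mul (continuous_Psi'.comp (pol c).continuous), ?_, ?_⟩
  · intro t
    rw [abs_mul, abs_of_pos hr0]
    have := abs_Psi'_le ((pol c).eval t)
    nlinarith
  intro f hf
  set e : Fin (n + 1) → ℝ := fun k => f.coeff k with he
  have hpe : pol e = f := pol_eq hf
  -- the derivative in direction `e`
  obtain ⟨M, hM⟩ := (isCompact_Icc (a := -b) (b := b)).image
    ((pol e).continuous.mul hw) |>.isBounded.exists_norm_le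
  have hder := (intervalIntegral.hasDerivAt_integral_of_dominated_loc_of_deriv_le
    (μ := volume) (a := -b) (b := b) (x₀ := (0 : ℝ)) (s := univ)
    (F := fun s t => r * (Psi ((pol c).eval t + s * (pol e).eval t) * wt D t))
    (F' := fun s t => r * (Psi' ((pol c).eval t + s * (pol e).eval t) * (pol e).eval t * wt D t))
    (bound := fun _ => r * M) univ_mem
    (Eventually.of_forall fun s => by
      apply Continuous.aestronglyMeasurable
      exact continuous_const.mul ((continuous_Psi.comp
        ((pol c).continuous.add (continuous_const.mul (pol e).continuous))).mul hw))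
    (by
      apply Continuous.intervalIntegrable
      exact continuous_const.mul ((continuous_Psi.comp
        ((pol c).continuous.add (continuous_const.mul (pol e).continuous))).mul hw))
    (by
      apply Continuous.aestronglyMeasurable
      exact continuous_const.mul (((continuous_Psi'.comp
        ((pol c).continuous.add (continuous_const.mul (pol e).continuous))).mul
          (pol e).continuous).mul hw))
    (Eventually.of_forall fun t ht s _ => by
      rw [uIoc_of_le (by linarith)] at ht
      have h1 : |(pol e).eval t * wt D t| ≤ M := hM _ ⟨t, ⟨ht.1.le, ht.2⟩, rfl⟩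
      rw [Real.norm_eq_abs]
      rw [abs_mul, abs_of_pos hr0, mul_assoc, abs_mul]
      apply mul_le_mul_of_nonneg_left _ hr0.le
      have h2 := abs_Psi'_le ((pol c).eval t + s * (pol e).eval t)
      have h3 := abs_nonneg ((pol e).eval t * wt D t)
      nlinarith)
    (by simp)
    (Eventually.of_forall fun t _ s _ => by
      have h1 : HasDerivAt (fun s => (pol c).eval t + s * (pol e).eval t) ((pol e).eval t) s := by
        simpa using ((hasDerivAt_id s).mul_const ((pol e).eval t)).const_add ((pol c).eval t)
      have h2 := (hasDerivAt_Psi ((pol c).eval t + s * (pol e).eval t)).comp s h1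
      exact (h2.mul_const (wt D t)).const_mul r)).2
  have hder2 : HasDerivAt (fun s : ℝ => J (c + s • e))
      ((∫ t in (-b)..b, r * (Psi' ((pol c).eval t + 0 * (pol e).eval t) * (pol e).eval t * wt D t))
        - ℓ e) 0 := by
    have h1 : (fun s : ℝ => J (c + s • e)) = fun s =>
        (∫ t in (-b)..b, r * (Psi ((pol c).eval t + s * (pol e).eval t) * wt D t)) -
          (ℓ c + s * ℓ e) := by
      funext s
      simp only [hJ, hℓadd, pol_add]
    rw [h1]
    apply hder.sub
    simpa using ((hasDerivAt_id (0 : ℝ)).mul_const (ℓ e)).const_add (ℓ c)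
  have hmin : IsLocalMin (fun s : ℝ => J (c + s • e)) 0 := by
    apply Eventually.of_forall
    intro s
    simp only [zero_smul, add_zero]
    exact hc _
  have h0 := hmin.hasDerivAt_eq_zero hder2
  have h1 : ℓ e = Λ f := by
    simp only [hℓ, hpe]
  rw [← h1]
  rw [sub_eq_zero] at h0
  rw [← h0]
  apply intervalIntegral.integral_congr
  intro t _
  simp only [hpe, zero_mul, add_zero]
  ring

end Pool.Agent.Helper47.EB
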