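import Pool.Agent.Helper47.EB.Defs

set_option autoImplicit false

open MeasureTheory Set Metric Polynomial Filter
open scoped Real Topology

namespace Pool.Agent.Helper47.EB

open Pool.Agent.Helper47.KP (wt)

private noncomputable def A_h12 : ℝ := 3136 / 43681

private lemma al_sq_h12 : al ^ 2 = A_h12 := by
  unfold al A_h12
  norm_num

private noncomputable def g_h12 (y : ℝ) : ℝ :=
  211 * (Real.log (1 - A_h12 / y) - Real.log (1 - A_h12 * y)) - 15 * Real.log y -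
    18 * (Real.log (98 * y + 1) - Real.log (98 + y))

private lemma A_pos_h12 : 0 < A_h12 := by unfold A_h12; norm_num
private lemma A_lt_h12 : A_h12 < 1 / 5 := by unfold A_h12; norm_num

private lemma g_deriv_h12 {y : ℝ} (h1 : 1 / 5 ≤ y) (h2 : y ≤ 1) :
    HasDerivAt g_h12 (211 * ((A_h12 / y ^ 2) / (1 - A_h12 / y) - (- A_h12) / (1 - A_h12 * y)) - 15 * (1 / y) -
      18 * (98 / (98 * y + 1) - 1 / (98 + y))) y := by
  have hA := A_pos_h12
  have hA2 := A_lt_h12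
  have hy : 0 < y := by linarith
  have p1 : 0 < 1 - A_h12 / y := by
    rw [sub_pos, div_lt_one hy]; linarith
  have p2 : 0 < 1 - A_h12 * y := by nlinarith
  have d0 : HasDerivAt (fun y : ℝ => 1 - A_h12 / y) (A_h12 / y ^ 2) y := by
    have h := (((hasDerivAt_inv hy.ne').const_mul A_h12).const_sub 1).congr_deriv
      (show -(A_h12 * -(y ^ 2)⁻¹) = A_h12 / y ^ 2 by rw [div_eq_mul_inv]; ring)
    exact h
  have d1 : HasDerivAt (fun y : ℝ => Real.log (1 - A_h12 / y)) ((A_h12 / y ^ 2) / (1 - A_h12 / y)) y := d0.log p1.ne'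
  have d2 : HasDerivAt (fun y : ℝ => Real.log (1 - A_h12 * y)) ((- A_h12) / (1 - A_h12 * y)) y := by
    have h := ((hasDerivAt_id' y).const_mul A_h12).const_sub 1
    have h' := h.congr_deriv (show -(A_h12 * 1) = -A_h12 by ring)
    exact h'.log p2.ne'
  have d3 : HasDerivAt (fun y : ℝ => Real.log y) (1 / y) y := by
    have := Real.hasDerivAt_log hy.ne'
    rwa [← one_div] at this
  have d4 : HasDerivAt (fun y : ℝ => Real.log (98 * y + 1)) (98 / (98 * y + 1)) y := by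
    have h := ((hasDerivAt_id' y).const_mul (98 : ℝ)).add_const 1
    have h' := h.congr_deriv (show (98 : ℝ) * 1 = 98 by ring)
    exact h'.log (by positivity)
  have d5 : HasDerivAt (fun y : ℝ => Real.log (98 + y)) (1 / (98 + y)) y := by
    exact ((hasDerivAt_id' y).const_add (98 : ℝ)).log (by positivity)
  exact (((d1.sub d2).const_mul 211).sub (d3.const_mul 15)).sub ((d4.sub d5).const_mul 18)

private lemma g_pos_h12 {y : ℝ} (h1 : 1 / 5 ≤ y) (h2 : y ≤ 1) :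
    0 < 211 * ((A_h12 / y ^ 2) / (1 - A_h12 / y) - (- A_h12) / (1 - A_h12 * y)) - 15 * (1 / y) -
      18 * (98 / (98 * y + 1) - 1 / (98 + y)) := by
  have hA := A_pos_h12
  have hA2 := A_lt_h12
  have hy : 0 < y := by linarith
  have q1 : 0 < y - A_h12 := by linarith
  have q2 : 0 < 1 - A_h12 * y := by nlinarith
  have q3 : 0 < 1 - A_h12 := by linarith
  have e1 : (A_h12 / y ^ 2) / (1 - A_h12 / y) = A_h12 / (y - A_h12) / y := by
    have : y ^ 2 * (1 - A_h12 / y) = (y - A_h12) * y := by field_simp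
    rw [div_div, div_div, this]
  have e2 : 98 / (98 * y + 1) - 1 / (98 + y) = 9603 / ((98 * y + 1) * (98 + y)) := by
    field_simp
    ring
  have k1 : 2 * A_h12 / (1 - A_h12) ≤ A_h12 / (y - A_h12) + A_h12 * y / (1 - A_h12 * y) := by
    have : A_h12 / (y - A_h12) + A_h12 * y / (1 - A_h12 * y) - 2 * A_h12 / (1 - A_h12) =
        A_h12 * (1 + A_h12) * (1 - y) ^ 2 / ((1 - A_h12) * (y - A_h12) * (1 - A_h12 * y)) := by
      field_simp
      ring
    have h3 : 0 ≤ A_h12 * (1 + A_h12) * (1 - y) ^ 2 / ((1 - A_h12) * (y - A_h12) * (1 - A_h12 * y)) := by positivity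
    linarith
  have k2 : 9603 * y / ((98 * y + 1) * (98 + y)) ≤ 9603 / 9801 := by
    rw [div_le_div_iff₀ (by positivity) (by norm_num)]
    nlinarith [sq_nonneg (1 - y)]
  have k3 : 0 < 211 * (2 * A_h12 / (1 - A_h12)) - 15 - 18 * (9603 / 9801) := by
    unfold A_h12
    norm_num
  have k4 : 211 * ((A_h12 / y ^ 2) / (1 - A_h12 / y) - (- A_h12) / (1 - A_h12 * y)) - 15 * (1 / y) -
      18 * (98 / (98 * y + 1) - 1 / (98 + y)) =
      (211 * (A_h12 / (y - A_h12) + A_h12 * y / (1 - A_h12 * y)) - 15 - 18 * (9603 * y / ((98 * y + 1) * (98 + y)))) / y := by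
    rw [e1, e2]
    field_simp
    ring
  rw [k4]
  apply div_pos _ hy
  linarith

private lemma g_mono_h12 : StrictMonoOn g_h12 (Icc (1 / 5) 1) := by
  apply strictMonoOn_of_deriv_pos (convex_Icc _ _)
  · intro y hy
    exact (g_deriv_h12 hy.1 hy.2).continuousAt.continuousWithinAt
  · intro y hy
    rw [interior_Icc] at hy
    rw [(g_deriv_h12 hy.1.le hy.2.le).deriv]
    exact g_pos_h12 hy.1.le hy.2.le

private lemma g_one_h12 : g_h12 1 = 0 := by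
  unfold g_h12
  norm_num

private lemma exp_g_h12 {y : ℝ} (h1 : 1 / 5 ≤ y) (h2 : y ≤ 1) :
    (1 - A_h12 / y) ^ 211 = Real.exp (g_h12 y) * ((1 - A_h12 * y) ^ 211 * y ^ 15 * ((98 * y + 1) / (98 + y)) ^ 18) := by
  have hA := A_pos_h12
  have hA2 := A_lt_h12
  have hy : 0 < y := by linarith
  have p1 : 0 < 1 - A_h12 / y := by
    rw [sub_pos, div_lt_one hy]; linarith
  have p2 : 0 < 1 - A_h12 * y := by nlinarith
  have p4 : 0 < 98 * y + 1 := by linarith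
  have p5 : 0 < 98 + y := by linarith
  have e1 : (1 - A_h12 / y) ^ 211 = Real.exp (211 * Real.log (1 - A_h12 / y)) := by
    rw [show (211 : ℝ) = ((211 : ℕ) : ℝ) by norm_num, Real.exp_nat_mul, Real.exp_log p1]
  have e2 : (1 - A_h12 * y) ^ 211 = Real.exp (211 * Real.log (1 - A_h12 * y)) := by
    rw [show (211 : ℝ) = ((211 : ℕ) : ℝ) by norm_num, Real.exp_nat_mul, Real.exp_log p2]
  have e3 : y ^ 15 = Real.exp (15 * Real.log y) := by
    rw [show (15 : ℝ) = ((15 : ℕ) : ℝ) by norm_num, Real.exp_nat_mul, Real.exp_log hy]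
  have e4 : ((98 * y + 1) / (98 + y)) ^ 18 = Real.exp (18 * (Real.log (98 * y + 1) - Real.log (98 + y))) := by
    rw [show (18 : ℝ) = ((18 : ℕ) : ℝ) by norm_num, Real.exp_nat_mul, Real.exp_sub, Real.exp_log p4, Real.exp_log p5]
  rw [e1, e2, e3, e4, ← Real.exp_add, ← Real.exp_add, ← Real.exp_add]
  congr 1
  unfold g_h12
  ring

private lemma alg_h12 (th a y b : ℝ) (l r : ℕ) :
    (th * (a ^ 211 * y ^ 15 * b ^ 18)) ^ l * a ^ r = th ^ l * (a ^ (211 * l + r) * y ^ (15 * l) * b ^ (18 * l)) := by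
  rw [mul_pow, mul_pow, mul_pow, ← pow_mul, ← pow_mul, ← pow_mul, pow_add]
  ring

/-- block EB4. With `y = (uu t)²`, `1 - t² = c² (1 - a² y)(1 - a²/y)` (real form of `one_sub_sq`), so
it is enough to bound `((1-a²/y)/(1-a² y))^211 y^(-15) B^(-18)`, `B = (98 y + 1)/(98 + y)`, by some
`θ₁ < 1` for `y ≤ (994/1000)²`. The logarithm `g y = 211 (log(1-a²/y) - log(1-a² y)) - 15 log y -
18 log B` is `0` at `y = 1` and strictly increasing on `(a², 1]`:
`y g' = 211 (a²/(y-a²) + a² y/(1-a² y)) - 15 - 36·(98²-1) y /((98 y+1)(98+y))·(1/2)`..., the first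
bracket decreases, `y/((98y+1)(98+y))` increases, and at `y = 1` one gets
`211·2a²/(1-a²) - 15 - 18·(97/99) > 0` (it is `0.0038`). -/
theorem gap_le : ∃ C θ : ℝ, 0 < C ∧ 0 < θ ∧ θ < 1 ∧ ∀ N l : ℕ, 211 * l ≤ N → N < 211 * (l + 1) →
    ∀ t : ℝ, 1 / 2 ≤ t → t ≤ 2 / 3 → 0 < PsiR N l (uu t) ∧
      wt N t ≤ C * θ ^ N * cc ^ N * PsiR N l (uu t) := by
  have hA := A_pos_h12
  have hA2 := A_lt_h12
  set y1 : ℝ := (994 / 1000) ^ 2 with hy1
  have hg1 : g_h12 y1 < 0 := by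
    rw [← g_one_h12]
    apply g_mono_h12
    · rw [hy1]; constructor <;> norm_num
    · constructor <;> norm_num
    · rw [hy1]; norm_num
  set θ₁ : ℝ := Real.exp (g_h12 y1) with hθ₁
  have ht0 : 0 < θ₁ := Real.exp_pos _
  have ht1 : θ₁ < 1 := by
    rw [hθ₁, Real.exp_lt_one_iff]
    exact hg1
  refine ⟨θ₁⁻¹, θ₁ ^ ((1 : ℝ) / 422), inv_pos.2 ht0, Real.rpow_pos_of_pos ht0 _, Real.rpow_lt_one ht0.le ht1 (by norm_num), ?_⟩
  intro N l hl1 hl2 t h1 h2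
  obtain ⟨hv1, hv2, hv3⟩ := uu_spec h1 h2
  set v := uu t with hv
  have hv0 : 0 < v := by linarith
  have hc := cc_pos
  have hy0 : 0 < v ^ 2 := by positivity
  have hyl : 1 / 5 ≤ v ^ 2 := by nlinarith
  have hyu : v ^ 2 ≤ y1 := by
    rw [hy1]
    exact pow_le_pow_left₀ hv0.le hv2 2
  have hyu1 : v ^ 2 ≤ 1 := hyu.trans (by rw [hy1]; norm_num)
  have p1 : 0 < 1 - A_h12 / v ^ 2 := by
    rw [sub_pos, div_lt_one hy0]; linarith
  have p2 : 0 < 1 - A_h12 * v ^ 2 := by nlinarith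
  have p3 : 0 < (98 * v ^ 2 + 1) / (98 + v ^ 2) := by positivity
  have hP : PsiR N l v = (1 - A_h12 * v ^ 2) ^ N * v ^ (15 * l) * ((98 * v ^ 2 + 1) / (98 + v ^ 2)) ^ (9 * l) := by
    unfold PsiR
    rw [al_sq_h12]
  have hPpos : 0 < PsiR N l v := by
    rw [hP]
    positivity
  refine ⟨hPpos, ?_⟩
  -- the identity for 1 - t^2
  have hid : 1 - t ^ 2 = cc ^ 2 * (1 - A_h12 * v ^ 2) * (1 - A_h12 / v ^ 2) := by
    rw [← hv3]
    unfold bb cc A_h12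
    field_simp
    ring
  have ht2 : 0 ≤ 1 - t ^ 2 := by nlinarith
  have hw0 : 0 ≤ wt N t := Pool.Agent.Helper47.KP.wt_nonneg N t
  have hw2 : wt N t ^ 2 = (cc ^ 2) ^ N * (1 - A_h12 * v ^ 2) ^ N * (1 - A_h12 / v ^ 2) ^ N := by
    unfold wt
    rw [← pow_mul, mul_comm N 2, pow_mul, Real.sq_sqrt ht2, hid, mul_pow, mul_pow]
  -- the core
  have hcore : (1 - A_h12 / v ^ 2) ^ 211 ≤ θ₁ * ((1 - A_h12 * v ^ 2) ^ 211 * (v ^ 2) ^ 15 * ((98 * v ^ 2 + 1) / (98 + v ^ 2)) ^ 18) := by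
    rw [exp_g_h12 hyl hyu1]
    apply mul_le_mul_of_nonneg_right _ (by positivity)
    rw [hθ₁]
    apply Real.exp_le_exp.2
    exact g_mono_h12.monotoneOn ⟨hyl, hyu1⟩ ⟨by rw [hy1]; norm_num, by rw [hy1]; norm_num⟩ hyu
  have hle : 1 - A_h12 / v ^ 2 ≤ 1 - A_h12 * v ^ 2 := by
    have : A_h12 * v ^ 2 ≤ A_h12 / v ^ 2 := by
      rw [le_div_iff₀ hy0]
      have h4 : v ^ 2 * v ^ 2 ≤ 1 := mul_le_one₀ hyu1 hy0.le hyu1
      calc A_h12 * v ^ 2 * v ^ 2 = A_h12 * (v ^ 2 * v ^ 2) := by ring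
        _ ≤ A_h12 * 1 := mul_le_mul_of_nonneg_left h4 hA.le
        _ = A_h12 := mul_one _
    linarith
  obtain ⟨r, hr⟩ := Nat.exists_eq_add_of_le hl1
  have hmain : (1 - A_h12 / v ^ 2) ^ N ≤ θ₁ ^ l * ((1 - A_h12 * v ^ 2) ^ N * (v ^ 2) ^ (15 * l) * ((98 * v ^ 2 + 1) / (98 + v ^ 2)) ^ (18 * l)) := by
    calc (1 - A_h12 / v ^ 2) ^ N = ((1 - A_h12 / v ^ 2) ^ 211) ^ l * (1 - A_h12 / v ^ 2) ^ r := by
          rw [hr, pow_add, pow_mul]
      _ ≤ (θ₁ * ((1 - A_h12 * v ^ 2) ^ 211 * (v ^ 2) ^ 15 * ((98 * v ^ 2 + 1) / (98 + v ^ 2)) ^ 18)) ^ l * (1 - A_h12 * v ^ 2) ^ r := by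
          apply mul_le_mul (pow_le_pow_left₀ (by positivity) hcore l) (pow_le_pow_left₀ p1.le hle r) (by positivity) (by positivity)
      _ = _ := by
          rw [hr]
          exact alg_h12 _ _ _ _ l r
  -- squares
  have hθN : θ₁ ^ l ≤ (θ₁⁻¹) ^ 2 * ((θ₁ ^ ((1 : ℝ) / 422)) ^ N) ^ 2 := by
    have e1 : ((θ₁ ^ ((1 : ℝ) / 422)) ^ N) ^ 2 = θ₁ ^ ((N : ℝ) / 211) := by
      rw [← pow_mul, ← Real.rpow_natCast, ← Real.rpow_mul ht0.le]
      congr 1
      push_cast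
      ring
    have e2 : θ₁ ^ (l + 2) ≤ θ₁ ^ ((N : ℝ) / 211) := by
      rw [← Real.rpow_natCast]
      apply Real.rpow_le_rpow_of_exponent_ge ht0 ht1.le
      have h3 : (N : ℝ) < 211 * (l + 1) := by exact_mod_cast hl2
      push_cast
      linarith
    rw [e1, inv_pow, inv_mul_eq_div, le_div_iff₀ (by positivity), ← pow_add]
    exact e2
  have hP2 : PsiR N l v ^ 2 = (1 - A_h12 * v ^ 2) ^ N * ((1 - A_h12 * v ^ 2) ^ N * (v ^ 2) ^ (15 * l) * ((98 * v ^ 2 + 1) / (98 + v ^ 2)) ^ (18 * l)) := by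
    rw [hP]
    have e1 : (v ^ 2) ^ (15 * l) = (v ^ (15 * l)) ^ 2 := by rw [← pow_mul, ← pow_mul, mul_comm]
    have e2 : ((98 * v ^ 2 + 1) / (98 + v ^ 2)) ^ (18 * l) = (((98 * v ^ 2 + 1) / (98 + v ^ 2)) ^ (9 * l)) ^ 2 := by
      rw [← pow_mul, show 9 * l * 2 = 18 * l by ring]
    rw [e1, e2]
    ring
  have hsq : wt N t ^ 2 ≤ (θ₁⁻¹ * (θ₁ ^ ((1 : ℝ) / 422)) ^ N * cc ^ N * PsiR N l v) ^ 2 := by
    calc wt N t ^ 2 = (cc ^ 2) ^ N * (1 - A_h12 * v ^ 2) ^ N * (1 - A_h12 / v ^ 2) ^ N := hw2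
      _ ≤ (cc ^ 2) ^ N * (1 - A_h12 * v ^ 2) ^ N * (θ₁ ^ l * ((1 - A_h12 * v ^ 2) ^ N * (v ^ 2) ^ (15 * l) * ((98 * v ^ 2 + 1) / (98 + v ^ 2)) ^ (18 * l))) :=
          mul_le_mul_of_nonneg_left hmain (by positivity)
      _ = θ₁ ^ l * ((cc ^ N) ^ 2 * PsiR N l v ^ 2) := by
          rw [hP2, ← pow_mul, ← pow_mul, mul_comm 2 N]
          ring
      _ ≤ ((θ₁⁻¹) ^ 2 * ((θ₁ ^ ((1 : ℝ) / 422)) ^ N) ^ 2) * ((cc ^ N) ^ 2 * PsiR N l v ^ 2) :=
          mul_le_mul_of_nonneg_right hθN (by positivity)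
      _ = _ := by ring
  exact (pow_le_pow_iff_left₀ hw0 (by positivity) two_ne_zero).1 hsq

end Pool.Agent.Helper47.EB
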