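import Pool.Agent.Helper47.EB.Defs

set_option autoImplicit false

open MeasureTheory Set Metric Polynomial Filter
open scoped Real Topology

namespace Pool.Agent.Helper47.EB

open Pool.Agent.Helper47.KP (wt)

private lemma inv38 {u : ℂ} (hu : ‖u‖ = 1) : u⁻¹ = (starRingEnd ℂ) u := by
  rw [Complex.inv_def, Complex.normSq_eq_norm_sq, hu]
  simp

private lemma add_inv38 (θ : ℝ) : Complex.exp (θ * Complex.I) + (Complex.exp (θ * Complex.I))⁻¹ =
    ((2 * Real.cos θ : ℝ) : ℂ) := by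
  rw [← Complex.exp_neg, ← neg_mul]
  push_cast
  rw [Complex.two_cos]

private lemma sub_inv38 (θ : ℝ) : Complex.exp (θ * Complex.I) - (Complex.exp (θ * Complex.I))⁻¹ =
    ((2 * Real.sin θ : ℝ) : ℂ) * Complex.I := by
  rw [← Complex.exp_neg, ← neg_mul]
  push_cast
  rw [Complex.two_sin, mul_assoc, Complex.I_mul_I]
  ring

private lemma zz38 (θ : ℝ) : zz (Complex.exp (θ * Complex.I)) = ((bb * Real.cos θ : ℝ) : ℂ) := by
  unfold zz
  rw [add_inv38]
  push_cast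
  ring

private lemma aeval38 (f : ℝ[X]) (x : ℝ) : aeval (x : ℂ) f = ((f.eval x : ℝ) : ℂ) := by
  have h := Polynomial.aeval_algebraMap_apply (A := ℝ) ℂ x f
  rw [Polynomial.coe_aeval_eq_eval] at h
  exact h

private lemma factor38 (θ : ℝ) : cc * ‖1 - (al : ℂ) ^ 2 * Complex.exp (θ * Complex.I) ^ 2‖ =
    Real.sqrt (1 - (bb * Real.cos θ) ^ 2) := by
  obtain ⟨u, hu⟩ : ∃ u, u = Complex.exp (θ * Complex.I) := ⟨_, rfl⟩
  have hu1 : ‖u‖ = 1 := by rw [hu, Complex.norm_exp_ofReal_mul_I]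
  have hu0 : u ≠ 0 := by
    intro h
    rw [h, norm_zero] at hu1
    exact zero_ne_one hu1
  have h1 := one_sub_sq hu0
  have h2 : ‖1 - (al : ℂ) ^ 2 * u⁻¹ ^ 2‖ = ‖1 - (al : ℂ) ^ 2 * u ^ 2‖ := by
    rw [inv38 hu1]
    have : (1 - (al : ℂ) ^ 2 * (starRingEnd ℂ) u ^ 2) = (starRingEnd ℂ) (1 - (al : ℂ) ^ 2 * u ^ 2) := by
      simp
    rw [this, Complex.norm_conj]
  have h3 : ‖1 - zz u ^ 2‖ = 1 - (bb * Real.cos θ) ^ 2 := by
    rw [hu, zz38]
    have e : (1 : ℂ) - ((bb * Real.cos θ : ℝ) : ℂ) ^ 2 = ((1 - (bb * Real.cos θ) ^ 2 : ℝ) : ℂ) := by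
      push_cast
      ring
    rw [e, Complex.norm_real, Real.norm_of_nonneg]
    have hb := bb_pos
    have hb2 := bb_lt
    have hc := Real.cos_sq_le_one θ
    rw [mul_pow]
    nlinarith [sq_nonneg (Real.cos θ)]
  rw [← hu]
  rw [h1, norm_mul, norm_mul, h2, norm_pow, Complex.norm_real, Real.norm_of_nonneg cc_pos.le] at h3
  rw [← h3, show cc ^ 2 * ‖1 - (al : ℂ) ^ 2 * u ^ 2‖ * ‖1 - (al : ℂ) ^ 2 * u ^ 2‖ =
    (cc * ‖1 - (al : ℂ) ^ 2 * u ^ 2‖) ^ 2 by ring, Real.sqrt_sq (mul_nonneg cc_pos.le (norm_nonneg _))]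

private lemma BL38 {u : ℂ} (hu : ‖u‖ = 1) : ‖BL u‖ = 1 := by
  have hu0 : u ≠ 0 := by
    intro h
    rw [h, norm_zero] at hu
    exact zero_ne_one hu
  have h1 : 98 * u ^ 2 + 1 = u ^ 2 * (starRingEnd ℂ) (98 + u ^ 2) := by
    have h2 : (starRingEnd ℂ) (98 + u ^ 2) = 98 + u⁻¹ ^ 2 := by
      rw [inv38 hu, map_add, map_pow]
      congr 1
      exact Complex.conj_ofNat 98
    rw [h2]
    field_simp
  unfold BL
  rw [h1, norm_div, norm_mul, Complex.norm_conj, norm_pow, hu, one_pow, one_mul]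
  exact div_self (norm_ne_zero_iff.2 (den_ne hu.le))

private lemma qk38 {v : ℝ} (hv0 : 0 < v) (hv : v < 1) (θ : ℝ) :
    ‖qk v (Complex.exp (θ * Complex.I))‖ ≤ 2 / (1 - v) ^ 2 * |Real.sin θ| := by
  obtain ⟨u, hu⟩ : ∃ u, u = Complex.exp (θ * Complex.I) := ⟨_, rfl⟩
  have hu1 : ‖u‖ = 1 := by rw [hu, Complex.norm_exp_ofReal_mul_I]
  have hu0 : u ≠ 0 := by
    intro h
    rw [h, norm_zero] at hu1
    exact zero_ne_one hu1
  have h1 : ‖u ^ 2 - 1‖ = 2 * |Real.sin θ| := by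
    have e : u ^ 2 - 1 = u * (u - u⁻¹) := by
      field_simp
    rw [e, norm_mul, hu1, one_mul, hu, sub_inv38, norm_mul, Complex.norm_I, mul_one, Complex.norm_real,
      Real.norm_eq_abs, abs_mul, abs_of_pos (by norm_num : (0 : ℝ) < 2)]
  have h2 : 1 - v ≤ ‖u - v‖ := by
    have := norm_sub_norm_le u (v : ℂ)
    rw [hu1, Complex.norm_real, Real.norm_of_nonneg hv0.le] at this
    exact this
  have h3 : 1 - v ≤ ‖u * v - 1‖ := by
    have := norm_sub_norm_le (1 : ℂ) (u * v)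
    rw [norm_mul, hu1, norm_one, Complex.norm_real, Real.norm_of_nonneg hv0.le, one_mul] at this
    rwa [norm_sub_rev] at this
  have h4 : 0 < 1 - v := by linarith
  rw [← hu]
  unfold qk
  rw [norm_div, norm_mul, norm_mul, h1, Complex.norm_real, Real.norm_of_nonneg hv0.le,
    div_mul_eq_mul_div]
  have h5 : (1 - v) ^ 2 ≤ ‖u - v‖ * ‖u * v - 1‖ := by
    rw [pow_two]
    exact mul_le_mul h2 h3 h4.le (h4.le.trans h2)
  refine div_le_div₀ (by positivity) ?_ (by positivity) h5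
  nlinarith [abs_nonneg (Real.sin θ)]

/-- block EB3. On the unit circle `u = e^{iτ}`: `zz u = b cos τ`, `‖BL u‖ = 1`,
`cc^N ‖1 - a² u²‖^N = wt N (b cos τ)` (from `one_sub_sq`), `‖qk v u‖ ≤ 2 |sin τ| / (1-v)²`; then
substitute `t = b cos τ` on `[0, π]` and `[π, 2π]`. -/
theorem norm_JJ_one_le (N l : ℕ) (f : ℝ[X]) {v : ℝ} (hv0 : 0 < v) (hv : v < 1) :
    cc ^ N * ‖JJ N l f 1 v‖ ≤
      2 / (π * bb * (1 - v) ^ 2) * ∫ t in (-bb)..bb, |f.eval t| * wt N t := by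
  have hcN : 0 < cc ^ N := pow_pos cc_pos N
  have hb := bb_pos
  have h1v : 0 < 1 - v := by linarith
  obtain ⟨G, hG⟩ : ∃ G : ℝ → ℝ, ∀ t, G t = |f.eval t| * wt N t := ⟨_, fun _ => rfl⟩
  have hGc : Continuous G := by
    rw [funext hG]
    exact f.continuous.abs.mul (Pool.Agent.Helper47.KP.continuous_wt N)
  -- pointwise bound
  have hpt : ∀ θ : ℝ, ‖deriv (circleMap 0 1) θ • (Psi N l (circleMap 0 1 θ) *
      aeval (zz (circleMap 0 1 θ)) f * qk v (circleMap 0 1 θ) / circleMap 0 1 θ)‖ ≤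
      (cc ^ N)⁻¹ * (2 / (1 - v) ^ 2 * (G (bb * Real.cos θ) * |Real.sin θ|)) := by
    intro θ
    have e : circleMap 0 1 θ = Complex.exp (θ * Complex.I) := by
      simp [circleMap]
    have hd : ‖deriv (circleMap 0 1) θ‖ = 1 := by
      rw [deriv_circleMap, e, norm_mul, Complex.norm_I, mul_one, Complex.norm_exp_ofReal_mul_I]
    rw [norm_smul, hd, one_mul, e]
    obtain ⟨u, hu⟩ : ∃ u, u = Complex.exp (θ * Complex.I) := ⟨_, rfl⟩
    have hu1 : ‖u‖ = 1 := by rw [hu, Complex.norm_exp_ofReal_mul_I]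
    have hq := qk38 hv0 hv θ
    have hf := factor38 θ
    have hz := zz38 θ
    rw [← hu] at hq hf hz ⊢
    rw [norm_div, hu1, div_one, norm_mul, norm_mul, hz, aeval38, Complex.norm_real, Real.norm_eq_abs]
    have hP : cc ^ N * ‖Psi N l u‖ = wt N (bb * Real.cos θ) := by
      unfold Psi
      rw [norm_mul, norm_mul, norm_pow, norm_pow, norm_pow, hu1, BL38 hu1, one_pow, one_pow, mul_one,
        mul_one, ← mul_pow, hf]
      rfl
    have hP2 : ‖Psi N l u‖ = (cc ^ N)⁻¹ * wt N (bb * Real.cos θ) := by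
      rw [← hP, ← mul_assoc, inv_mul_cancel₀ hcN.ne', one_mul]
    rw [hP2, hG]
    have hw : 0 ≤ wt N (bb * Real.cos θ) := by
      rw [← hP]
      positivity
    calc (cc ^ N)⁻¹ * wt N (bb * Real.cos θ) * |f.eval (bb * Real.cos θ)| * ‖qk v u‖
        ≤ (cc ^ N)⁻¹ * wt N (bb * Real.cos θ) * |f.eval (bb * Real.cos θ)| *
          (2 / (1 - v) ^ 2 * |Real.sin θ|) := mul_le_mul_of_nonneg_left hq (by positivity)
      _ = _ := by ring
  obtain ⟨H, hH⟩ : ∃ H : ℝ → ℝ, ∀ θ, H θ = G (bb * Real.cos θ) * |Real.sin θ| := ⟨_, fun _ => rfl⟩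
  have hHc : Continuous H := by
    rw [funext hH]
    fun_prop
  simp_rw [← hH] at hpt
  have h2 : ‖∮ u in C(0, 1), Psi N l u * aeval (zz u) f * qk v u / u‖ ≤
      ∫ θ in (0 : ℝ)..2 * π, (cc ^ N)⁻¹ * (2 / (1 - v) ^ 2 * H θ) := by
    refine intervalIntegral.norm_integral_le_of_norm_le (by positivity) ?_ ?_
    · exact Eventually.of_forall fun θ _ => hpt θ
    · exact (continuous_const.mul (continuous_const.mul hHc)).intervalIntegrable _ _
  rw [intervalIntegral.integral_const_mul, intervalIntegral.integral_const_mul] at h2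
  -- the integral of `H`
  have h3 : ∫ θ in (0 : ℝ)..2 * π, H θ = 2 * ∫ θ in (0 : ℝ)..π, H θ := by
    have h4 : ∫ θ in π..2 * π, H θ = ∫ θ in (0 : ℝ)..π, H θ := by
      have h5 := intervalIntegral.integral_comp_sub_left (a := π) (b := 2 * π) H (2 * π)
      rw [show 2 * π - 2 * π = 0 by ring, show 2 * π - π = π by ring] at h5
      rw [← h5]
      refine intervalIntegral.integral_congr fun θ _ => ?_
      rw [hH, hH, Real.cos_two_pi_sub, Real.sin_two_pi_sub, abs_neg]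
    rw [← intervalIntegral.integral_add_adjacent_intervals (hHc.intervalIntegrable 0 π)
      (hHc.intervalIntegrable π (2 * π)), h4]
    ring
  have h6 : ∫ θ in (0 : ℝ)..π, H θ = bb⁻¹ * ∫ t in (-bb)..bb, G t := by
    have h7 : ∫ θ in (0 : ℝ)..π, (G ∘ fun θ => bb * Real.cos θ) θ * (bb * -Real.sin θ) =
        ∫ t in (bb * Real.cos 0)..(bb * Real.cos π), G t := by
      refine intervalIntegral.integral_comp_mul_deriv (fun θ _ => ?_) (by fun_prop) hGc
      exact (Real.hasDerivAt_cos θ).const_mul bb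
    rw [Real.cos_zero, Real.cos_pi, mul_one, mul_neg, mul_one, intervalIntegral.integral_symm (-bb) bb] at h7
    have h8 : ∫ θ in (0 : ℝ)..π, (G ∘ fun θ => bb * Real.cos θ) θ * (bb * -Real.sin θ) =
        -(bb * ∫ θ in (0 : ℝ)..π, H θ) := by
      rw [← intervalIntegral.integral_const_mul, ← intervalIntegral.integral_neg]
      refine intervalIntegral.integral_congr fun θ hθ => ?_
      rw [uIcc_of_le Real.pi_pos.le] at hθ
      change G (bb * Real.cos θ) * (bb * -Real.sin θ) = -(bb * H θ)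
      rw [hH, abs_of_nonneg (Real.sin_nonneg_of_nonneg_of_le_pi hθ.1 hθ.2)]
      ring
    rw [h8] at h7
    have h9 : bb * ∫ θ in (0 : ℝ)..π, H θ = ∫ t in (-bb)..bb, G t := by linarith
    rw [← h9, ← mul_assoc, inv_mul_cancel₀ hb.ne', one_mul]
  rw [h3, h6] at h2
  have h10 : ‖(2 * π * Complex.I : ℂ)⁻¹‖ = (2 * π)⁻¹ := by
    rw [norm_inv, norm_mul, norm_mul, Complex.norm_I, mul_one, Complex.norm_real, Real.norm_of_nonneg Real.pi_pos.le]
    simp
  simp_rw [← hG]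
  unfold JJ
  rw [norm_mul, h10]
  calc cc ^ N * ((2 * π)⁻¹ * ‖∮ u in C(0, 1), Psi N l u * aeval (zz u) f * qk v u / u‖)
      ≤ cc ^ N * ((2 * π)⁻¹ * ((cc ^ N)⁻¹ * (2 / (1 - v) ^ 2 * (2 * (bb⁻¹ * ∫ t in (-bb)..bb, G t))))) := by
        gcongr
    _ = _ := by
        have hpi := Real.pi_pos
        field_simp

end Pool.Agent.Helper47.EB
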