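import Pool.Agent.Helper47.EB.Ann
import Pool.Agent.Helper47.EB.Basic
import Pool.Agent.Helper47.EB.One
import Pool.Agent.Helper47.EB.Gap
import Pool.Agent.Helper47.EB.Dual

set_option autoImplicit false

open MeasureTheory Set Metric Polynomial Filter
open scoped Real Topology

namespace Pool.Agent.Helper47.EB

open Pool.Agent.Helper47.KP (wt den cst wt_nonneg continuous_wt)

lemma wt_anti {D : ℕ} {s t : ℝ} (h : |s| ≤ |t|) : wt D t ≤ wt D s := by
  unfold Pool.Agent.Helper47.KP.wt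
  apply pow_le_pow_left₀ (Real.sqrt_nonneg _)
  apply Real.sqrt_le_sqrt
  have := sq_le_sq.2 h
  linarith

/-- the tail mass -/
noncomputable def tl (N : ℕ) : ℝ := ∫ t in (2 / 3 : ℝ)..1, wt N t

/-- the mass of the middle part -/
noncomputable def md (N : ℕ) : ℝ := ∫ t in (-bb)..bb, wt N t

lemma tl_nonneg (N : ℕ) : 0 ≤ tl N := by
  unfold tl
  apply intervalIntegral.integral_nonneg (by norm_num)
  intro t _
  exact wt_nonneg _ _

lemma tl_le (N : ℕ) : tl N ≤ 1 / 3 * wt N (2 / 3) := by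
  unfold tl
  have h : ∫ t in (2 / 3 : ℝ)..1, wt N t ≤ ∫ _t in (2 / 3 : ℝ)..1, wt N (2 / 3) := by
    apply intervalIntegral.integral_mono_on (by norm_num)
      ((continuous_wt N).intervalIntegrable _ _) intervalIntegrable_const
    intro t ht
    apply wt_anti
    rw [abs_of_pos (by norm_num), abs_of_nonneg (by linarith [ht.1])]
    exact ht.1
  refine h.trans (le_of_eq ?_)
  rw [intervalIntegral.integral_const, smul_eq_mul]
  ring

lemma md_ge (N : ℕ) : 9 / 10 * wt N bb ≤ md N := by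
  unfold md
  have hb := bb_pos
  have h : ∫ _t in (-bb)..bb, wt N bb ≤ ∫ t in (-bb)..bb, wt N t := by
    apply intervalIntegral.integral_mono_on (by linarith) intervalIntegrable_const
      ((continuous_wt N).intervalIntegrable _ _)
    intro t ht
    apply wt_anti
    rw [abs_of_pos hb]
    exact abs_le.2 ht
  refine le_trans ?_ h
  rw [intervalIntegral.integral_const, smul_eq_mul]
  apply mul_le_mul_of_nonneg_right _ (wt_nonneg _ _)
  unfold bb
  norm_num

lemma wt_bb_pos (N : ℕ) : 0 < wt N bb := by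
  apply Pool.Agent.Helper47.KP.wt_pos
  rw [abs_of_pos bb_pos]
  linarith [bb_lt]

lemma md_pos (N : ℕ) : 0 < md N := by
  have := wt_bb_pos N
  linarith [md_ge N]

lemma wt_ratio (N : ℕ) : wt N (2 / 3) ≤ (7 / 8) ^ N * wt N bb := by
  unfold Pool.Agent.Helper47.KP.wt
  rw [← mul_pow]
  apply pow_le_pow_left₀ (Real.sqrt_nonneg _)
  rw [show (7 / 8 : ℝ) = √((7 / 8) ^ 2) by rw [Real.sqrt_sq (by norm_num)], ← Real.sqrt_mul (by norm_num)]
  apply Real.sqrt_le_sqrt
  unfold bb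
  norm_num

lemma ratio_le (N : ℕ) : tl N / md N ≤ (7 / 8) ^ N := by
  rw [div_le_iff₀ (md_pos N)]
  have h1 := tl_le N
  have h2 := md_ge N
  have h3 := wt_ratio N
  have h4 := wt_bb_pos N
  have h5 : (0 : ℝ) < (7 / 8) ^ N := by positivity
  calc tl N ≤ 1 / 3 * ((7 / 8) ^ N * wt N bb) := by linarith
    _ ≤ (7 / 8) ^ N * (9 / 10 * wt N bb) := by nlinarith [mul_pos h5 h4]
    _ ≤ _ := mul_le_mul_of_nonneg_left h2 h5.le

lemma continuous_PsiR (N l : ℕ) : Continuous (PsiR N l) := by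
  unfold PsiR
  have h : ∀ v : ℝ, 98 + v ^ 2 ≠ 0 := fun v => by positivity
  fun_prop (disch := exact h _)

lemma iInt (N : ℕ) (f : ℝ[X]) (a b : ℝ) :
    IntervalIntegrable (fun t => f.eval t * wt N t) volume a b :=
  (f.continuous.mul (continuous_wt N)).intervalIntegrable _ _

lemma abs_iInt_le {N : ℕ} {f : ℝ[X]} {a b F : ℝ} (hab : a ≤ b)
    (hF : ∀ t ∈ Ioc a b, |f.eval t| ≤ F) :
    |∫ t in a..b, f.eval t * wt N t| ≤ F * ∫ t in a..b, wt N t := by
  rw [← intervalIntegral.integral_const_mul, ← Real.norm_eq_abs]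
  refine intervalIntegral.norm_integral_le_of_norm_le hab (Filter.Eventually.of_forall
    fun t ht => ?_) ((continuous_const.mul (continuous_wt N)).intervalIntegrable _ _)
  rw [Real.norm_eq_abs, abs_mul, abs_of_nonneg (wt_nonneg _ _)]
  exact mul_le_mul_of_nonneg_right (hF t ht) (wt_nonneg _ _)

/-- the linear functional -/
noncomputable def Lam (N l : ℕ) (f : ℝ[X]) : ℝ :=
  (∫ t in (1 / 2 : ℝ)..(2 / 3), wt N t / PsiR N l (uu t) * (JJ N l f 1 (uu t)).re) +
    tl N / md N * ∫ t in (-bb)..bb, f.eval t * wt N t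

section

variable {N l : ℕ} (hpos : ∀ t : ℝ, 1 / 2 ≤ t → t ≤ 2 / 3 → 0 < PsiR N l (uu t))

include hpos in
lemma Lam_int (f : ℝ[X]) : IntervalIntegrable
    (fun t => wt N t / PsiR N l (uu t) * (JJ N l f 1 (uu t)).re) volume (1 / 2) (2 / 3) := by
  apply ContinuousOn.intervalIntegrable
  rw [uIcc_of_le (by norm_num)]
  have h1 : ContinuousOn (fun t => JJ N l f 1 (uu t)) (Icc (1 / 2) (2 / 3)) := by
    apply (continuousOn_JJ N l f).comp continuousOn_uu
    intro t ht
    have h := uu_spec ht.1 ht.2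
    exact ⟨h.1, h.2.1⟩
  have h2 : ContinuousOn (fun t => PsiR N l (uu t)) (Icc (1 / 2) (2 / 3)) :=
    (continuous_PsiR N l).comp_continuousOn continuousOn_uu
  apply ContinuousOn.mul
  · exact (continuous_wt N).continuousOn.div h2 (fun t ht => (hpos t ht.1 ht.2).ne')
  · exact Complex.continuous_re.comp_continuousOn h1

include hpos in
lemma Lam_add (f g : ℝ[X]) : Lam N l (f + g) = Lam N l f + Lam N l g := by
  unfold Lam
  have hw := continuous_wt N
  have e1 : ∫ t in (1 / 2 : ℝ)..(2 / 3), wt N t / PsiR N l (uu t) * (JJ N l (f + g) 1 (uu t)).re =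
      (∫ t in (1 / 2 : ℝ)..(2 / 3), wt N t / PsiR N l (uu t) * (JJ N l f 1 (uu t)).re) +
      ∫ t in (1 / 2 : ℝ)..(2 / 3), wt N t / PsiR N l (uu t) * (JJ N l g 1 (uu t)).re := by
    rw [← intervalIntegral.integral_add (Lam_int hpos f) (Lam_int hpos g)]
    apply intervalIntegral.integral_congr
    intro t ht
    rw [uIcc_of_le (by norm_num)] at ht
    have h := uu_spec ht.1 ht.2
    simp only
    rw [JJ_add N l f g (by linarith [h.1]) (by linarith [h.2.1]), Complex.add_re]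
    ring
  have e2 : ∫ t in (-bb)..bb, (f + g).eval t * wt N t =
      (∫ t in (-bb)..bb, f.eval t * wt N t) + ∫ t in (-bb)..bb, g.eval t * wt N t := by
    rw [← intervalIntegral.integral_add (iInt N f _ _) (iInt N g _ _)]
    congr 1
    funext t
    rw [eval_add]
    ring
  rw [e1, e2]
  ring

lemma Lam_mul (N l : ℕ) (c : ℝ) (f : ℝ[X]) : Lam N l (C c * f) = c * Lam N l f := by
  unfold Lam
  have e1 : ∫ t in (1 / 2 : ℝ)..(2 / 3), wt N t / PsiR N l (uu t) * (JJ N l (C c * f) 1 (uu t)).re =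
      c * ∫ t in (1 / 2 : ℝ)..(2 / 3), wt N t / PsiR N l (uu t) * (JJ N l f 1 (uu t)).re := by
    rw [← intervalIntegral.integral_const_mul]
    congr 1
    funext t
    rw [JJ_C_mul, Complex.re_ofReal_mul]
    ring
  have e2 : ∫ t in (-bb)..bb, (C c * f).eval t * wt N t =
      c * ∫ t in (-bb)..bb, f.eval t * wt N t := by
    rw [← intervalIntegral.integral_const_mul]
    congr 1
    funext t
    rw [eval_mul, eval_C]
    ring
  rw [e1, e2]
  ring

/-- the error of the functional -/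
lemma Lam_err {C₀ : ℝ} (hC : ∀ t : ℝ, 1 / 2 ≤ t → t ≤ 2 / 3 → 0 < PsiR N l (uu t) ∧
      wt N t ≤ C₀ * PsiR N l (uu t)) (f : ℝ[X]) {R S : ℝ} (hR : 0 < R)
    (hR1 : R ≤ 44 / 100) (hS : ∀ u : ℂ, ‖u‖ = R → ‖Psi N l u‖ * ‖aeval (zz u) f‖ ≤ S) :
    |Lam N l f - (∫ t in (1 / 2 : ℝ)..1, f.eval t * wt N t) -
      (tl N / md N * (∫ t in (-bb)..bb, f.eval t * wt N t) -
        ∫ t in (2 / 3 : ℝ)..1, f.eval t * wt N t)| ≤ 40 * C₀ * S := by
  have hw := continuous_wt N
  have hfw : ∀ a b : ℝ, IntervalIntegrable (fun t => f.eval t * wt N t) volume a b :=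
    fun a b => (f.continuous.mul hw).intervalIntegrable _ _
  have hS0 : 0 ≤ S := by
    have h := hS (R : ℂ) (by simp [abs_of_pos hR])
    exact le_trans (by positivity) h
  have e0 : Lam N l f - (∫ t in (1 / 2 : ℝ)..1, f.eval t * wt N t) -
      (tl N / md N * (∫ t in (-bb)..bb, f.eval t * wt N t) -
        ∫ t in (2 / 3 : ℝ)..1, f.eval t * wt N t) =
      ∫ t in (1 / 2 : ℝ)..(2 / 3), (wt N t / PsiR N l (uu t) * (JJ N l f 1 (uu t)).re -
        f.eval t * wt N t) := by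
    rw [intervalIntegral.integral_sub (Lam_int (fun t h1 h2 => (hC t h1 h2).1) f) (hfw _ _),
      ← intervalIntegral.integral_add_adjacent_intervals (hfw (1 / 2) (2 / 3)) (hfw (2 / 3) 1)]
    unfold Lam
    ring
  rw [e0, ← Real.norm_eq_abs]
  have hb : ∀ t ∈ Set.uIoc (1 / 2 : ℝ) (2 / 3), ‖wt N t / PsiR N l (uu t) * (JJ N l f 1 (uu t)).re -
      f.eval t * wt N t‖ ≤ 220 * C₀ * S := by
    intro t ht
    rw [uIoc_of_le (by norm_num)] at ht
    have hu := uu_spec ht.1.le ht.2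
    obtain ⟨hp, hq⟩ := hC t ht.1.le ht.2
    have hA := JJ_annulus N l f (v := uu t) hR (by linarith [hu.1]) (by linarith [hu.2.1])
    rw [hu.2.2] at hA
    have e1 : wt N t / PsiR N l (uu t) * (JJ N l f 1 (uu t)).re - f.eval t * wt N t =
        wt N t / PsiR N l (uu t) * (JJ N l f R (uu t)).re := by
      rw [hA, Complex.add_re, Complex.ofReal_re]
      field_simp
      ring
    rw [e1, Real.norm_eq_abs, abs_mul, abs_of_nonneg (div_nonneg (wt_nonneg _ _) hp.le)]
    have h1 : wt N t / PsiR N l (uu t) ≤ C₀ := by rwa [div_le_iff₀ hp]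
    have h2 : |(JJ N l f R (uu t)).re| ≤ 220 * S :=
      (Complex.abs_re_le_norm _).trans (norm_JJ_le hR hR1 hu.1 (by linarith [hu.2.1]) hS)
    have h3 : 0 ≤ C₀ := le_trans (div_nonneg (wt_nonneg _ _) hp.le) h1
    calc wt N t / PsiR N l (uu t) * |(JJ N l f R (uu t)).re| ≤ C₀ * (220 * S) :=
          mul_le_mul h1 h2 (abs_nonneg _) h3
      _ = _ := by ring
  have hC0 : 0 ≤ C₀ := by
    obtain ⟨hp, hq⟩ := hC (1 / 2) le_rfl (by norm_num)
    by_contra hneg
    push Not at hneg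
    have := wt_nonneg N (1 / 2)
    nlinarith
  refine (intervalIntegral.norm_integral_le_of_norm_le_const hb).trans ?_
  rw [abs_of_pos (by norm_num)]
  have : 0 ≤ C₀ * S := mul_nonneg hC0 hS0
  nlinarith

/-- the size of the functional -/
lemma Lam_le {C₀ : ℝ} (hC : ∀ t : ℝ, 1 / 2 ≤ t → t ≤ 2 / 3 → 0 < PsiR N l (uu t) ∧
      wt N t ≤ C₀ * cc ^ N * PsiR N l (uu t)) (f : ℝ[X]) :
    Lam N l f ≤ (10000 * C₀ + (7 / 8) ^ N) * ∫ t in (-bb)..bb, |f.eval t| * wt N t := by
  have hw := continuous_wt N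
  have hb0 := bb_pos
  set I := ∫ t in (-bb)..bb, |f.eval t| * wt N t with hI
  have hI0 : 0 ≤ I := by
    rw [hI]
    apply intervalIntegral.integral_nonneg (by linarith)
    intro t _
    exact mul_nonneg (abs_nonneg _) (wt_nonneg _ _)
  have hC0 : 0 ≤ C₀ := by
    obtain ⟨hp, hq⟩ := hC (1 / 2) le_rfl (by norm_num)
    by_contra hneg
    push Not at hneg
    have h1 := wt_nonneg N (1 / 2)
    have h2 : 0 < cc ^ N * PsiR N l (uu (1 / 2)) := mul_pos (pow_pos cc_pos _) hp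
    nlinarith
  have h1 : ∫ t in (1 / 2 : ℝ)..(2 / 3), wt N t / PsiR N l (uu t) * (JJ N l f 1 (uu t)).re ≤
      10000 * C₀ * I := by
    have hb : ∀ t ∈ Set.uIoc (1 / 2 : ℝ) (2 / 3),
        ‖wt N t / PsiR N l (uu t) * (JJ N l f 1 (uu t)).re‖ ≤ 60000 * C₀ * I := by
      intro t ht
      rw [uIoc_of_le (by norm_num)] at ht
      have hu := uu_spec ht.1.le ht.2
      obtain ⟨hp, hq⟩ := hC t ht.1.le ht.2
      rw [Real.norm_eq_abs, abs_mul, abs_of_nonneg (div_nonneg (wt_nonneg _ _) hp.le)]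
      have h1 : wt N t / PsiR N l (uu t) ≤ C₀ * cc ^ N := by rwa [div_le_iff₀ hp]
      have h2 : |(JJ N l f 1 (uu t)).re| ≤ ‖JJ N l f 1 (uu t)‖ := Complex.abs_re_le_norm _
      have h3 := norm_JJ_one_le N l f (v := uu t) (by linarith [hu.1]) (by linarith [hu.2.1])
      rw [← hI] at h3
      have h4 : 2 / (π * bb * (1 - uu t) ^ 2) ≤ 60000 := by
        have hv : 6 / 1000 ≤ 1 - uu t := by linarith [hu.2.1]
        have hv2 : (6 / 1000) ^ 2 ≤ (1 - uu t) ^ 2 := pow_le_pow_left₀ (by norm_num) hv 2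
        have hpi := Real.pi_gt_three
        have hbb : 49 / 100 ≤ bb := by unfold bb; norm_num
        have h5 : 3 * (49 / 100) * (6 / 1000) ^ 2 ≤ π * bb * (1 - uu t) ^ 2 := by
          apply mul_le_mul _ hv2 (by norm_num) (by positivity)
          exact mul_le_mul hpi.le hbb (by norm_num) (by positivity)
        have h6 : 0 < π * bb * (1 - uu t) ^ 2 := lt_of_lt_of_le (by norm_num) h5
        rw [div_le_iff₀ h6]
        nlinarith
      calc wt N t / PsiR N l (uu t) * |(JJ N l f 1 (uu t)).re|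
          ≤ C₀ * cc ^ N * ‖JJ N l f 1 (uu t)‖ := by
            apply mul_le_mul h1 h2 (abs_nonneg _)
            have := pow_pos cc_pos N
            positivity
        _ = C₀ * (cc ^ N * ‖JJ N l f 1 (uu t)‖) := by ring
        _ ≤ C₀ * (60000 * I) := by
            apply mul_le_mul_of_nonneg_left _ hC0
            exact h3.trans (mul_le_mul_of_nonneg_right h4 hI0)
        _ = _ := by ring
    have h2 := intervalIntegral.norm_integral_le_of_norm_le_const hb
    rw [abs_of_pos (by norm_num)] at h2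
    have h3 := (le_abs_self _).trans h2
    have h4 : 0 ≤ C₀ * I := mul_nonneg hC0 hI0
    linarith
  have h2 : tl N / md N * ∫ t in (-bb)..bb, f.eval t * wt N t ≤ (7 / 8) ^ N * I := by
    have h3 : ∫ t in (-bb)..bb, f.eval t * wt N t ≤ I := by
      rw [hI]
      apply intervalIntegral.integral_mono_on (by linarith)
        ((f.continuous.mul hw).intervalIntegrable _ _)
        ((f.continuous.abs.mul hw).intervalIntegrable _ _)
      intro t _
      exact mul_le_mul_of_nonneg_right (le_abs_self _) (wt_nonneg _ _)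
    have h4 : 0 ≤ tl N / md N := div_nonneg (tl_nonneg N) (md_pos N).le
    calc tl N / md N * ∫ t in (-bb)..bb, f.eval t * wt N t ≤ tl N / md N * I :=
          mul_le_mul_of_nonneg_left h3 h4
      _ ≤ _ := mul_le_mul_of_nonneg_right (ratio_le N) hI0
  unfold Lam
  calc _ ≤ 10000 * C₀ * I + (7 / 8) ^ N * I := add_le_add h1 h2
    _ = _ := by ring

end

/-- the density -/
theorem exists_density3 : ∃ C θ : ℝ, 0 < C ∧ 0 < θ ∧ θ < 1 ∧ ∀ (d n l : ℕ) [NeZero d], 4 ≤ d →
    1 ≤ l → 211 * l ≤ d - 3 → d - 3 < 211 * (l + 1) → C * θ ^ (d - 3) ≤ 1 →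
    ∃ g : ℝ → ℝ, Measurable g ∧ (∀ t, 0 ≤ g t) ∧ (∀ t, g t ≤ 1 + C * θ ^ (d - 3)) ∧
      (∀ t, |g t - 1| ≤ 1) ∧ (∀ t, t ≤ 1 / 2 → |g t - 1| ≤ C * θ ^ (d - 3)) ∧
      (∀ t, 1 / 2 < t → g t = 0) ∧ ∫ t, g t ∂(den d) = 1 ∧
      ∀ f : ℝ[X], f.natDegree ≤ n → ∀ F S R : ℝ, 0 < R → R ≤ 44 / 100 →
        (∀ t ∈ Icc (-1 : ℝ) 1, |f.eval t| ≤ F) →
        (∀ u : ℂ, ‖u‖ = R → ‖Psi (d - 3) l u‖ * ‖aeval (zz u) f‖ ≤ S) →
        |∫ t, g t * f.eval t ∂(den d) - ∫ t, f.eval t ∂(den d)| ≤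
          cst d * (F * wt (d - 3) (2 / 3) + 40 * C * θ ^ (d - 3) * cc ^ (d - 3) * S) := by
  obtain ⟨C₀, θ₀, hC0, hθ0, hθ1, hgap⟩ := gap_le
  set θ := max θ₀ (7 / 8) with hθ
  have hθpos : 0 < θ := lt_of_lt_of_le hθ0 (le_max_left _ _)
  refine ⟨20000 * C₀ + 2, θ, by positivity, hθpos, max_lt hθ1 (by norm_num), ?_⟩
  intro d n l _ hd hl hN1 hN2 hr1
  set N := d - 3 with hN
  have hw := continuous_wt N
  have hb0 := bb_pos
  have hb2 := bb_lt
  have hθN : θ₀ ^ N ≤ θ ^ N := pow_le_pow_left₀ hθ0.le (le_max_left _ _) N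
  have h78 : (7 / 8 : ℝ) ^ N ≤ θ ^ N := pow_le_pow_left₀ (by norm_num) (le_max_right _ _) N
  have hθNp : 0 < θ ^ N := pow_pos hθpos N
  have hccN : 0 < cc ^ N := pow_pos cc_pos N
  have hgap' : ∀ t : ℝ, 1 / 2 ≤ t → t ≤ 2 / 3 → 0 < PsiR N l (uu t) ∧
      wt N t ≤ C₀ * θ ^ N * cc ^ N * PsiR N l (uu t) := by
    intro t h1 h2
    obtain ⟨hp, hq⟩ := hgap N l hN1 hN2 t h1 h2
    refine ⟨hp, hq.trans ?_⟩
    gcongr
  have hpos : ∀ t : ℝ, 1 / 2 ≤ t → t ≤ 2 / 3 → 0 < PsiR N l (uu t) :=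
    fun t h1 h2 => (hgap' t h1 h2).1
  set r' := (10000 * C₀ + 1) * θ ^ N with hr'
  set r := (20000 * C₀ + 2) * θ ^ N with hr
  have hr'0 : 0 < r' := by positivity
  have hrr : r' < r := by
    rw [hr, hr']
    apply mul_lt_mul_of_pos_right _ hθNp
    linarith
  obtain ⟨a, hac, har, haf⟩ := exists_dual_gen (n := n) (D := N) hb0 (by linarith) hr'0.le hrr
    (Lam N l) (Lam_add hpos) (Lam_mul N l) (by
      intro f _
      refine (Lam_le (C₀ := C₀ * θ ^ N) hgap' f).trans ?_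
      apply mul_le_mul_of_nonneg_right
      · rw [hr']
        have e : 10000 * (C₀ * θ ^ N) + (7 / 8) ^ N ≤ 10000 * (C₀ * θ ^ N) + θ ^ N := by linarith
        refine e.trans (le_of_eq ?_)
        ring
      · apply intervalIntegral.integral_nonneg (by linarith)
        intro t _
        exact mul_nonneg (abs_nonneg _) (wt_nonneg _ _))
  have hb := Pool.Agent.Helper47.KP.dens_bounds hb2 hr1 har
  have hgm := Pool.Agent.Helper47.KP.measurable_dens bb hac.measurable
  -- the difference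
  have hdiff : ∀ f : ℝ[X], f.natDegree ≤ n →
      ∫ t, Pool.Agent.Helper47.KP.dens bb a t * f.eval t ∂(den d) - ∫ t, f.eval t ∂(den d) =
      cst d * (Lam N l f - ∫ t in (1 / 2 : ℝ)..1, f.eval t * wt N t) := by
    intro f hf
    rw [Pool.Agent.Helper47.KP.integral_dens hb0 hb2 hac f.continuous, haf f hf,
      Pool.Agent.Helper47.KP.integral_den, ← hN,
      ← intervalIntegral.integral_add_adjacent_intervals (iInt N f (-1) (1 / 2))
        (iInt N f (1 / 2) 1)]
    ring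
  have herr := fun (f : ℝ[X]) (R S : ℝ) (hR : 0 < R) (hR1 : R ≤ 44 / 100)
    (hS : ∀ u : ℂ, ‖u‖ = R → ‖Psi N l u‖ * ‖aeval (zz u) f‖ ≤ S) =>
    Lam_err (C₀ := C₀ * θ ^ N * cc ^ N) hgap' f hR hR1 hS
  refine ⟨Pool.Agent.Helper47.KP.dens bb a, hgm, fun t => (hb t).1, fun t => (hb t).2.1,
    fun t => (hb t).2.2, ?_, fun t ht => Pool.Agent.Helper47.KP.dens_of_gt hb2 a ht, ?_, ?_⟩
  · intro t ht
    unfold Pool.Agent.Helper47.KP.dens
    rw [indicator_of_mem (show t ∈ Iic (1 / 2 : ℝ) from ht)]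
    by_cases h : t ∈ Ioc (-bb) bb
    · rw [indicator_of_mem h, add_sub_cancel_left]
      exact har t
    · rw [indicator_of_notMem h, add_zero, sub_self, abs_zero]
      positivity
  · have h1 := hdiff 1 (by simp)
    simp only [eval_one, mul_one, one_mul] at h1
    have h2 : ∫ _t : ℝ, (1 : ℝ) ∂(den d) = 1 := by
      have h3 := Pool.Agent.Helper47.KP.integral_den (d := d) (fun _ : ℝ => (1 : ℝ))
      rw [h3]
      simp only [one_mul]
      unfold Pool.Agent.Helper47.KP.cst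
      exact inv_mul_cancel₀ (Pool.Agent.Helper47.KP.integral_wt_pos _).ne'
    have h0 : Lam N l 1 - ∫ t in (1 / 2 : ℝ)..1, wt N t = 0 := by
      have h4 : ∀ ε : ℝ, 0 < ε → |Lam N l 1 - ∫ t in (1 / 2 : ℝ)..1, wt N t| ≤
          40 * (C₀ * θ ^ N * cc ^ N) * ε := by
        intro ε hε
        obtain ⟨R, hR, hR1, hS⟩ := small_S N l 1 (by simp; omega) hε
        have h5 := herr 1 R ε hR hR1 hS
        simp only [eval_one, one_mul] at h5
        have e5 : tl N / md N * (∫ t in (-bb)..bb, wt N t) - ∫ t in (2 / 3 : ℝ)..1, wt N t = 0 := by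
          have := md_pos N
          change tl N / md N * md N - tl N = 0
          field_simp
          ring
        rw [e5, sub_zero] at h5
        exact h5
      rw [← abs_nonpos_iff]
      apply le_of_forall_pos_le_add
      intro ε hε
      rw [zero_add]
      have hK : 0 < 40 * (C₀ * θ ^ N * cc ^ N) := by positivity
      have h6 := h4 (ε / (40 * (C₀ * θ ^ N * cc ^ N))) (by positivity)
      rwa [mul_div_cancel₀ _ hK.ne'] at h6
    rw [h0, mul_zero] at h1
    linarith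
  · intro f hf F S R hR hR1 hF hS
    rw [hdiff f hf, abs_mul, abs_of_pos (Pool.Agent.Helper47.KP.cst_pos d)]
    apply mul_le_mul_of_nonneg_left _ (Pool.Agent.Helper47.KP.cst_pos d).le
    have h1 := herr f R S hR hR1 hS
    have hF0 : 0 ≤ F := le_trans (abs_nonneg _) (hF 0 (by norm_num))
    have hS0 : 0 ≤ S := by
      have h := hS (R : ℂ) (by simp [abs_of_pos hR])
      exact le_trans (by positivity) h
    have h2 : |∫ t in (2 / 3 : ℝ)..1, f.eval t * wt N t| ≤ F * tl N :=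
      abs_iInt_le (by norm_num) (fun t ht => hF t ⟨by linarith [ht.1], ht.2⟩)
    have h3 : |∫ t in (-bb)..bb, f.eval t * wt N t| ≤ F * md N :=
      abs_iInt_le (by linarith) (fun t ht => hF t ⟨by linarith [ht.1], by linarith [ht.2]⟩)
    have h4 : |tl N / md N * ∫ t in (-bb)..bb, f.eval t * wt N t| ≤ F * tl N := by
      have hm := md_pos N
      have ht := tl_nonneg N
      rw [abs_mul, abs_of_nonneg (div_nonneg ht hm.le)]
      calc tl N / md N * |∫ t in (-bb)..bb, f.eval t * wt N t| ≤ tl N / md N * (F * md N) :=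
            mul_le_mul_of_nonneg_left h3 (div_nonneg ht hm.le)
        _ = F * tl N := by field_simp
    have h5 := tl_le N
    have h6 : 2 * (F * tl N) ≤ F * wt N (2 / 3) := by
      have h7 : F * tl N ≤ F * (1 / 3 * wt N (2 / 3)) := mul_le_mul_of_nonneg_left h5 hF0
      have h8 : 0 ≤ F * wt N (2 / 3) := mul_nonneg hF0 (wt_nonneg _ _)
      linarith
    have h7 : 40 * (C₀ * θ ^ N * cc ^ N) * S ≤
        40 * (20000 * C₀ + 2) * θ ^ N * cc ^ N * S := by
      have h8 : 0 ≤ θ ^ N * cc ^ N * S := by positivity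
      nlinarith
    set X := Lam N l f - ∫ t in (1 / 2 : ℝ)..1, f.eval t * wt N t
    set Y := tl N / md N * ∫ t in (-bb)..bb, f.eval t * wt N t
    set Z := ∫ t in (2 / 3 : ℝ)..1, f.eval t * wt N t
    have h9 : |X| ≤ |X - (Y - Z)| + |Y| + |Z| := by
      have e : X = (X - (Y - Z)) + Y + (-Z) := by ring
      calc |X| = |(X - (Y - Z)) + Y + (-Z)| := by rw [← e]
        _ ≤ |(X - (Y - Z)) + Y| + |(-Z)| := abs_add_le _ _
        _ ≤ |X - (Y - Z)| + |Y| + |Z| := by
          rw [abs_neg]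
          linarith [abs_add_le (X - (Y - Z)) Y]
    linarith

end Pool.Agent.Helper47.EB
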