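import Pool.Agent.Helper47.EB.Num
import Pool.Agent.Helper32.EB.Ent

set_option autoImplicit false

open MeasureTheory Set Metric Polynomial Filter
open scoped Real Topology

namespace Pool.Agent.Helper47.EB

open Pool.Agent.Helper47.KP (PP)

/-- block EB10a. `(k+N)^(k+N) = ∑_j C(k+N,j) k^j N^(k+N-j)` and the term `j = k` is the largest. -/
theorem choose_lower {k N : ℕ} (hk : 1 ≤ k) (hN : 1 ≤ N) :
    Real.exp (N * ent ((k : ℝ) / N)) ≤ ((k : ℝ) + N + 1) * (Nat.choose (k + N) k : ℝ) :=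
  Pool.Agent.Helper32.EB.choose_lower hk hN

/-- block EB10b. `x ↦ ent x + x log r` is concave on `(0, ∞)` (derivative `log (1+x) - log x`
is antitone). -/
theorem ent_between {a b r c x : ℝ} (ha : 0 < a) (hax : a ≤ x) (hxb : x ≤ b)
    (h1 : c ≤ ent a + a * Real.log r) (h2 : c ≤ ent b + b * Real.log r) :
    c ≤ ent x + x * Real.log r :=
  Pool.Agent.Helper32.EB.ent_between ha hax hxb h1 h2

theorem ent_mono {x y : ℝ} (hx : 0 < x) (hxy : x ≤ y) : ent x ≤ ent y :=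
  Pool.Agent.Helper32.EB.ent_mono hx hxy

/-- block EB11. From `cell_bound`, `choose_lower`, `ent_between`. With
`c = (211 log κ + 18 log β + 60 log R + 844 log cc + 1672/5 log 2)/844`:
`(cc^N ‖Psi‖ ‖PP‖)^4 ≤ K (κ^211 β^18 R^60 cc^844)^l (C(k+N,k) r^k)^(-4)`,
`C(k+N,k) r^k ≥ exp (N c)/(k+N+1)`, `N = 211 l + s`, `s < 211`, `-(1672/5) l ≤ -4 · 836/2110 · N + ..`. -/
theorem cell_exp {R r L β κ a b : ℝ} (hc : Cell R r L β κ) (ha : 0 < a) (hb : b ≤ 1)
    (h1 : EndOK R r β κ a) (h2 : EndOK R r β κ b) :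
    ∃ K : ℝ, 0 < K ∧ ∀ d l k : ℕ, 4 ≤ d → 211 * l ≤ d - 3 → d - 3 < 211 * (l + 1) → 1 ≤ k →
      a * ((d - 3 : ℕ) : ℝ) ≤ k → (k : ℝ) ≤ b * ((d - 3 : ℕ) : ℝ) → ∀ u : ℂ, ‖u‖ = R →
        cc ^ (d - 3) * (‖Psi (d - 3) l u‖ * ‖aeval (zz u) (PP d k)‖) ≤
          K * d * (2 : ℝ) ^ (-(836 / 2110 * (d : ℝ))) := by
  obtain ⟨K₀, hK₀, hcb⟩ := cell_bound hc
  obtain ⟨E, hE⟩ : ∃ E : ℝ, E = 211 * Real.log κ + 18 * Real.log β + 60 * Real.log R + 844 * Real.log cc +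
    1672 / 5 * Real.log 2 := ⟨_, rfl⟩
  obtain ⟨M, hM⟩ : ∃ M : ℝ, M = Real.exp (|E| + (1672 / 5 + 12 * (836 / 2110)) * Real.log 2) := ⟨_, rfl⟩
  have hM0 : 0 < M := by
    rw [hM]
    exact Real.exp_pos _
  have hKM : 0 < K₀ * M := mul_pos hK₀ hM0
  refine ⟨2 * (K₀ * M + 1), by positivity, ?_⟩
  intro d l k hd hl hl' hk hak hkb u hu
  obtain ⟨N, hN⟩ : ∃ N : ℕ, N = d - 3 := ⟨_, rfl⟩
  rw [← hN] at hl hl' hak hkb ⊢
  have hN1 : 1 ≤ N := by omega
  have hdN : (d : ℝ) = (N : ℝ) + 3 := by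
    have : d = N + 3 := by omega
    rw [this]
    push_cast
    ring
  have hNr : (1 : ℝ) ≤ (N : ℝ) := by exact_mod_cast hN1
  have hN0 : (0 : ℝ) < (N : ℝ) := by linarith
  have hkr : (0 : ℝ) ≤ (k : ℝ) := Nat.cast_nonneg _
  have hkN : (k : ℝ) ≤ (N : ℝ) := hkb.trans (by nlinarith)
  have hb0 := hcb d l k (by omega) (by rw [← hN]; exact hl) (by rw [← hN]; exact hl') u hu
  rw [← hN] at hb0
  obtain ⟨Y, hY⟩ : ∃ Y : ℝ, Y = ‖Psi N l u‖ * ‖aeval (zz u) (PP d k)‖ := ⟨_, rfl⟩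
  have hY0 : 0 ≤ Y := by
    rw [hY]
    positivity
  rw [← hY] at hb0 ⊢
  obtain ⟨Cb, hCb⟩ : ∃ Cb : ℝ, Cb = (Nat.choose (k + N) k : ℝ) := ⟨_, rfl⟩
  have hCb0 : 0 ≤ Cb := by
    rw [hCb]
    positivity
  rw [← hCb] at hb0
  -- the entropy
  have h3 := choose_lower hk hN1
  rw [← hCb] at h3
  have hx1 : a ≤ (k : ℝ) / N := by
    rw [le_div_iff₀ hN0]
    exact hak
  have hx2 : (k : ℝ) / N ≤ b := by
    rw [div_le_iff₀ hN0]
    exact hkb
  have h4 := ent_between (r := r) (c := E / 844) ha hx1 hx2 (by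
    unfold EndOK at h1
    rw [hE]
    linarith) (by
    unfold EndOK at h2
    rw [hE]
    linarith)
  have hrk : r ^ k = Real.exp (k * Real.log r) := by
    rw [Real.exp_nat_mul, Real.exp_log hc.r_pos]
  have h5 : Real.exp (N * (E / 844)) ≤ ((k : ℝ) + N + 1) * (Cb * r ^ k) := by
    have e1 : Real.exp (N * (E / 844)) ≤ Real.exp (N * ent ((k : ℝ) / N)) * r ^ k := by
      rw [hrk, ← Real.exp_add]
      apply Real.exp_le_exp.2
      have h6 := mul_le_mul_of_nonneg_left h4 hN0.le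
      have e2 : (N : ℝ) * (ent ((k : ℝ) / N) + (k : ℝ) / N * Real.log r) = N * ent ((k : ℝ) / N) + k * Real.log r := by
        field_simp
      linarith
    have e3 := mul_le_mul_of_nonneg_right h3 (pow_nonneg hc.r_pos.le k)
    have e4 : ((k : ℝ) + N + 1) * Cb * r ^ k = ((k : ℝ) + N + 1) * (Cb * r ^ k) := by ring
    linarith
  -- the fourth power
  obtain ⟨X, hX⟩ : ∃ X : ℝ, X = cc ^ N * Y := ⟨_, rfl⟩
  rw [← hX]
  have hcc0 := cc_pos
  have hX0 : 0 ≤ X := by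
    rw [hX]
    positivity
  obtain ⟨Q, hQ⟩ : ∃ Q : ℝ, Q = κ ^ 211 * β ^ 18 * R ^ 60 := ⟨_, rfl⟩
  have hκ0 := hc.κ_pos
  have hβ0 := hc.β_pos
  have hR0 := hc.R_pos
  have hQ0 : 0 < Q := by
    rw [hQ]
    positivity
  have hlQ : Real.log Q = 211 * Real.log κ + 18 * Real.log β + 60 * Real.log R := by
    rw [hQ, Real.log_mul (by positivity) (by positivity), Real.log_mul (by positivity) (by positivity), Real.log_pow, Real.log_pow,
      Real.log_pow]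
    push_cast
    ring
  rw [← hQ] at hb0
  have hQl : Q ^ l = Real.exp (l * Real.log Q) := by
    rw [Real.exp_nat_mul, Real.exp_log hQ0]
  have hccN : (cc ^ N) ^ 4 = Real.exp (4 * (N * Real.log cc)) := by
    have e1 : cc ^ N = Real.exp (N * Real.log cc) := by
      rw [Real.exp_nat_mul, Real.exp_log hcc0]
    rw [e1, ← Real.exp_nat_mul]
    push_cast
    rfl
  have h7 : (X * Real.exp (N * (E / 844))) ^ 4 ≤ ((k : ℝ) + N + 1) ^ 4 * (Real.exp (4 * (N * Real.log cc)) * (K₀ * Real.exp (l * Real.log Q))) := by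
    have e1 : X * Real.exp (N * (E / 844)) ≤ X * (((k : ℝ) + N + 1) * (Cb * r ^ k)) := mul_le_mul_of_nonneg_left h5 hX0
    have e2 := pow_le_pow_left₀ (by positivity) e1 4
    refine e2.trans ?_
    calc (X * (((k : ℝ) + N + 1) * (Cb * r ^ k))) ^ 4 = ((k : ℝ) + N + 1) ^ 4 * ((cc ^ N) ^ 4 * (Y * (Cb * r ^ k)) ^ 4) := by
          rw [hX]
          ring
      _ ≤ ((k : ℝ) + N + 1) ^ 4 * ((cc ^ N) ^ 4 * (K₀ * Q ^ l)) :=
          mul_le_mul_of_nonneg_left (mul_le_mul_of_nonneg_left hb0 (by positivity)) (by positivity)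
      _ = _ := by rw [hccN, hQl]
  have hcc1 : Real.log cc ≤ 0 := Real.log_nonpos hcc0.le cc_lt.le
  have hl1 : (211 : ℝ) * l ≤ N := by exact_mod_cast hl
  have hl2 : (N : ℝ) < 211 * (l + 1) := by exact_mod_cast hl'
  have h8 : 4 * (N * Real.log cc) + l * Real.log Q ≤ l * (E - 1672 / 5 * Real.log 2) := by
    have e1 : 4 * ((N : ℝ) * Real.log cc) ≤ 4 * ((211 * l) * Real.log cc) := by
      have := mul_le_mul_of_nonpos_right hl1 hcc1
      linarith
    rw [hlQ]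
    have e2 : (l : ℝ) * (E - 1672 / 5 * Real.log 2) = l * (211 * Real.log κ + 18 * Real.log β + 60 * Real.log R) +
        4 * ((211 * l) * Real.log cc) := by
      rw [hE]
      ring
    linarith
  have hlog2 : 0 < Real.log 2 := Real.log_pos (by norm_num)
  have h9 : l * (E - 1672 / 5 * Real.log 2) - 4 * (N * (E / 844)) ≤
      |E| + (1672 / 5 + 12 * (836 / 2110)) * Real.log 2 + 4 * (-(836 / 2110 * (d : ℝ))) * Real.log 2 := by
    -- `s = N - 211 l`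
    have e1 : (l : ℝ) * (E - 1672 / 5 * Real.log 2) - 4 * (N * (E / 844)) =
        -(((N : ℝ) - 211 * l) / 211 * E) - 1672 / 5 * l * Real.log 2 := by ring
    have e2 : -(((N : ℝ) - 211 * l) / 211 * E) ≤ |E| := by
      have g1 : |(((N : ℝ) - 211 * l) / 211 * E)| ≤ 1 * |E| := by
        rw [abs_mul]
        refine mul_le_mul_of_nonneg_right ?_ (abs_nonneg _)
        rw [abs_le]
        constructor <;> linarith
      have g2 := neg_le_abs (((N : ℝ) - 211 * l) / 211 * E)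
      linarith
    have e3 : -(1672 / 5 * (l : ℝ)) ≤ 1672 / 5 + 12 * (836 / 2110) + 4 * (-(836 / 2110 * (d : ℝ))) := by
      rw [hdN]
      linarith
    have e4 := mul_le_mul_of_nonneg_right e3 hlog2.le
    rw [e1]
    linarith
  have h10 : X ^ 4 ≤ ((k : ℝ) + N + 1) ^ 4 * (K₀ * M * ((2 : ℝ) ^ (-(836 / 2110 * (d : ℝ)))) ^ 4) := by
    have e1 : (X * Real.exp (N * (E / 844))) ^ 4 = X ^ 4 * Real.exp (4 * (N * (E / 844))) := by
      rw [mul_pow, ← Real.exp_nat_mul]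
      push_cast
      rfl
    rw [e1] at h7
    have e2 : X ^ 4 = X ^ 4 * Real.exp (4 * (N * (E / 844))) * Real.exp (-(4 * (N * (E / 844)))) := by
      rw [mul_assoc, ← Real.exp_add, add_neg_cancel, Real.exp_zero, mul_one]
    have e3 := mul_le_mul_of_nonneg_right h7 (Real.exp_pos (-(4 * (N * (E / 844))))).le
    rw [← e2] at e3
    refine e3.trans ?_
    have e4 : ((2 : ℝ) ^ (-(836 / 2110 * (d : ℝ)))) ^ 4 = Real.exp (4 * (-(836 / 2110 * (d : ℝ))) * Real.log 2) := by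
      rw [Real.rpow_def_of_pos (by norm_num), ← Real.exp_nat_mul]
      push_cast
      congr 1
      ring
    rw [e4, hM]
    have e5 : ((k : ℝ) + N + 1) ^ 4 * (Real.exp (4 * (N * Real.log cc)) * (K₀ * Real.exp (l * Real.log Q))) *
        Real.exp (-(4 * (N * (E / 844)))) = ((k : ℝ) + N + 1) ^ 4 * (K₀ * Real.exp (4 * (N * Real.log cc) + l * Real.log Q + -(4 * (N * (E / 844))))) := by
      rw [Real.exp_add, Real.exp_add]
      ring
    rw [e5]
    refine mul_le_mul_of_nonneg_left ?_ (by positivity)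
    rw [mul_assoc K₀, ← Real.exp_add]
    refine mul_le_mul_of_nonneg_left ?_ hK₀.le
    apply Real.exp_le_exp.2
    linarith
  have h2d : (k : ℝ) + N + 1 ≤ 2 * d := by
    rw [hdN]
    linarith
  have hd0 : (0 : ℝ) ≤ (d : ℝ) := Nat.cast_nonneg _
  obtain ⟨Z, hZ⟩ : ∃ Z : ℝ, Z = (2 : ℝ) ^ (-(836 / 2110 * (d : ℝ))) := ⟨_, rfl⟩
  have hZ0 : 0 < Z := by
    rw [hZ]
    exact Real.rpow_pos_of_pos (by norm_num) _
  rw [← hZ] at h10 ⊢
  refine le_of_pow_le_pow_left₀ (n := 4) (by norm_num) (by positivity) (h10.trans ?_)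
  have e1 : ((k : ℝ) + N + 1) ^ 4 ≤ (2 * d) ^ 4 := pow_le_pow_left₀ (by positivity) h2d 4
  have e2 : K₀ * M ≤ (K₀ * M + 1) ^ 4 := by
    have g1 : (K₀ * M + 1) ^ 1 ≤ (K₀ * M + 1) ^ 4 := pow_le_pow_right₀ (by linarith) (by norm_num)
    linarith
  calc ((k : ℝ) + N + 1) ^ 4 * (K₀ * M * Z ^ 4) ≤ (2 * d) ^ 4 * ((K₀ * M + 1) ^ 4 * Z ^ 4) :=
        mul_le_mul e1 (mul_le_mul_of_nonneg_right e2 (by positivity)) (by positivity) (by positivity)
    _ = _ := by ring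

end Pool.Agent.Helper47.EB
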