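import Pool.Agent.Helper47.EB.Main
import Pool.Agent.Helper47.KP.Bound

/-!
The `k`-point bounds, `2 ≤ k ≤ 2^(δ d)`, are at least `2^(0.3962 d)`.
-/

set_option autoImplicit false

open MeasureTheory Set Metric Polynomial Filter
open scoped Real Topology

namespace Pool.Agent.Helper47.EB

open Pool.Agent.Helper47.KP (Sph IsFeasible kpoint_bound)

theorem kpoint_barrier3962 : ∃ δ : ℝ, 0 < δ ∧ ∃ d₀ : ℕ, ∀ d : ℕ, d₀ ≤ d → ∀ k : ℕ, 2 ≤ k →
    (k : ℝ) ≤ 2 ^ (δ * d) → ∀ (T : Finset (Sph d) → Sph d → Sph d → ℝ) (lam : ℝ),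
      IsFeasible d k T lam → (2 : ℝ) ^ ((0.3962 : ℝ) * d) ≤ lam := by
  obtain ⟨C, θ, hC, hθ0, hθ1, d₁, hdens⟩ := density
  set ρ := Real.sqrt θ with hρ
  have hρ0 : 0 < ρ := Real.sqrt_pos.2 hθ0
  have hρ1 : ρ < 1 := by rw [hρ, Real.sqrt_lt' one_pos]; simpa using hθ1
  have hρ2 : ρ ^ 2 = θ := Real.sq_sqrt hθ0.le
  have hδ : 0 < Real.logb 2 ρ⁻¹ := Real.logb_pos (by norm_num) ((one_lt_inv₀ hρ0).2 hρ1)
  refine ⟨Real.logb 2 ρ⁻¹, hδ, ?_⟩
  have hpow : ∀ d : ℕ, (2 : ℝ) ^ (Real.logb 2 ρ⁻¹ * d) = (ρ⁻¹) ^ d := by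
    intro d
    rw [Real.rpow_mul (by norm_num), Real.rpow_logb (by norm_num) (by norm_num) (by positivity),
      Real.rpow_natCast]
  have hlim : Tendsto (fun d : ℕ => C * ρ ^ (d - 6)) atTop (𝓝 0) := by
    have h1 := (tendsto_pow_atTop_nhds_zero_of_lt_one hρ0.le hρ1).comp (tendsto_sub_atTop_nat 6)
    simpa using h1.const_mul C
  have hl2 : 0 < Real.log 2 := Real.log_pos (by norm_num)
  obtain ⟨d₂, hd₂⟩ := eventually_atTop.1 (hlim.eventually (gt_mem_nhds hl2))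
  refine ⟨max (max d₁ d₂) 10, fun d hd k hk hkd T lam hf => ?_⟩
  have hdd1 : d₁ ≤ d := le_trans (le_trans (le_max_left _ _) (le_max_left _ _)) hd
  have hdd2 : d₂ ≤ d := le_trans (le_trans (le_max_right _ _) (le_max_left _ _)) hd
  have hd4 : 10 ≤ d := le_trans (le_max_right _ _) hd
  have : NeZero d := ⟨by omega⟩
  rw [hpow] at hkd
  obtain ⟨hr1, g, hgm, hg0, hg1, hgb, hgr, hgz, hI, hgc⟩ := hdens d hdd1
  set r := C * θ ^ (d - 3) with hr
  have hr0 : 0 < r := by positivity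
  have hrk : r * k ≤ Real.log 2 := by
    calc r * k ≤ r * (ρ⁻¹) ^ d := by gcongr
      _ = C * ρ ^ (d - 6) := by
        rw [hr, ← hρ2, ← pow_mul]
        obtain ⟨e, rfl⟩ : ∃ e, d = e + 6 := ⟨d - 6, by omega⟩
        have e1 : 2 * (e + 6 - 3) = (e + 6) + (e + 6 - 6) := by omega
        rw [e1, pow_add, inv_pow]
        field_simp
      _ ≤ Real.log 2 := (hd₂ d hdd2).le
  have hk' : (2 : ℝ) ≤ k := by exact_mod_cast hk
  set E := (2 : ℝ) ^ (-(0.3962 * (d : ℝ))) with hE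
  have hE0 : 0 < E := by positivity
  set N : ℝ := 2 ^ ((0.3962 : ℝ) * d) with hN
  have hN0 : 0 < N := by positivity
  have hEN : E * N = 1 := by
    rw [hE, hN, ← Real.rpow_add (by norm_num), neg_add_cancel, Real.rpow_zero]
  have hexp : (1 + r) ^ (k - 2) ≤ 2 := by
    calc (1 + r) ^ (k - 2) ≤ (1 + r) ^ k := pow_le_pow_right₀ (by linarith) (by omega)
      _ ≤ (Real.exp r) ^ k := by
        gcongr
        have := Real.add_one_le_exp r
        linarith
      _ = Real.exp (r * k) := by rw [← Real.exp_nat_mul, mul_comm]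
      _ ≤ Real.exp (Real.log 2) := Real.exp_le_exp.2 hrk
      _ = 2 := Real.exp_log (by norm_num)
  have hεB : (E / 4) * (N * (1 + r) ^ (k - 2)) ≤ 1 := by
    have hb : N * (1 + r) ^ (k - 2) ≤ N * 2 := mul_le_mul_of_nonneg_left hexp hN0.le
    calc (E / 4) * (N * (1 + r) ^ (k - 2)) ≤ (E / 4) * (N * 2) :=
          mul_le_mul_of_nonneg_left hb (by positivity)
      _ = E * N / 2 := by ring
      _ ≤ 1 := by rw [hEN]; norm_num
  exact kpoint_bound (by omega) hk hf hgm hg0 hr0.le hg1 hI hgz (by positivity)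
    (fun j hj => by
      have := hgc j hj
      rw [abs_le] at this
      exact this.1) hN0 hεB

end Pool.Agent.Helper47.EB
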