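import Pool.Agent.Helper47.EB.Defs

set_option autoImplicit false

open MeasureTheory Set Metric Polynomial Filter
open scoped Real Topology

namespace Pool.Agent.Helper47.EB

open Pool.Agent.Helper47.KP (PP)

/-- the generating function -/
private noncomputable def Fg69 (N : ℕ) (z s : ℂ) : ℂ :=
  Complex.exp (-(((N : ℂ) + 1) / 2) * Complex.log (1 - 2 * z * s + s ^ 2))

private lemma slit69 {z s : ℂ} {r : ℝ} (_hr : 0 < r) (hz : 2 * ‖z‖ * r + r ^ 2 < 1)
    (hs : ‖s‖ ≤ r) : (1 - 2 * z * s + s ^ 2) ∈ Complex.slitPlane := by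
  rw [Complex.mem_slitPlane_iff]
  left
  have h1 : ‖2 * z * s - s ^ 2‖ < 1 := by
    calc ‖2 * z * s - s ^ 2‖ ≤ ‖2 * z * s‖ + ‖s ^ 2‖ := norm_sub_le _ _
      _ = 2 * ‖z‖ * ‖s‖ + ‖s‖ ^ 2 := by simp [norm_pow]
      _ ≤ 2 * ‖z‖ * r + r ^ 2 := by gcongr
      _ < 1 := hz
  have h2 := Complex.abs_re_le_norm (2 * z * s - s ^ 2)
  have h3 : (1 - 2 * z * s + s ^ 2).re = 1 - (2 * z * s - s ^ 2).re := by
    have e : (1 - 2 * z * s + s ^ 2) = 1 - (2 * z * s - s ^ 2) := by ring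
    rw [e, Complex.sub_re, Complex.one_re]
  rw [h3]
  linarith [le_abs_self (2 * z * s - s ^ 2).re]

private lemma hasDeriv69 {N : ℕ} {z s : ℂ} (h : (1 - 2 * z * s + s ^ 2) ∈ Complex.slitPlane) :
    HasDerivAt (Fg69 N z)
      (Fg69 N z s * (((N : ℂ) + 1) * (z - s) / (1 - 2 * z * s + s ^ 2))) s := by
  have h1 : HasDerivAt (fun s : ℂ => 1 - 2 * z * s + s ^ 2) (-(2 * z) + 2 * s) s := by
    have h2 : HasDerivAt (fun s : ℂ => 2 * z * s) (2 * z) s := by
      simpa using (hasDerivAt_id s).const_mul (2 * z)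
    have h3 : HasDerivAt (fun s : ℂ => s ^ 2) (2 * s) s := by
      simpa using hasDerivAt_pow 2 s
    exact (h2.const_sub 1).add h3
  have h2 := ((h1.clog h).const_mul (-(((N : ℂ) + 1) / 2))).cexp
  have h0 : (1 - 2 * z * s + s ^ 2) ≠ 0 := Complex.slitPlane_ne_zero h
  refine h2.congr_deriv ?_
  unfold Fg69
  field_simp
  ring

/-- the integrals -/
private noncomputable def In69 (N : ℕ) (z : ℂ) (r : ℝ) (j : ℕ) : ℂ :=
  ∮ s in C(0, r), (s ^ j)⁻¹ * Fg69 N z s

private lemma contF69 {N : ℕ} {z : ℂ} {r : ℝ} (hr : 0 < r) (hz : 2 * ‖z‖ * r + r ^ 2 < 1)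
    (j : ℕ) : CircleIntegrable (fun s => (s ^ j)⁻¹ * Fg69 N z s) 0 r := by
  refine ContinuousOn.circleIntegrable hr.le ?_
  intro s hs
  have hs1 : ‖s‖ = r := by simpa using hs
  have hs0 : s ≠ 0 := by
    intro h
    rw [h, norm_zero] at hs1
    exact hr.ne hs1
  have h1 : ContinuousAt (fun s : ℂ => (s ^ j)⁻¹) s :=
    (continuousAt_id.pow j).inv₀ (pow_ne_zero j hs0)
  exact (h1.mul (hasDeriv69 (slit69 hr hz hs1.le)).continuousAt).continuousWithinAt

private lemma In_zero69 {N : ℕ} {z : ℂ} {r : ℝ} (hr : 0 < r)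
    (hz : 2 * ‖z‖ * r + r ^ 2 < 1) : In69 N z r 0 = 0 := by
  unfold In69
  have h : DiffContOnCl ℂ (fun s => (s ^ 0)⁻¹ * Fg69 N z s) (ball 0 r) := by
    refine DifferentiableOn.diffContOnCl ?_
    intro s hs
    rw [closure_ball _ hr.ne', mem_closedBall_zero_iff] at hs
    have h1 := (hasDeriv69 (N := N) (slit69 hr hz hs)).differentiableAt
    simpa using h1.differentiableWithinAt
  exact h.circleIntegral_eq_zero hr.le

private lemma In_one69 {N : ℕ} {z : ℂ} {r : ℝ} (hr : 0 < r)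
    (hz : 2 * ‖z‖ * r + r ^ 2 < 1) : In69 N z r 1 = 2 * π * Complex.I := by
  have h : DiffContOnCl ℂ (Fg69 N z) (ball 0 r) := by
    refine DifferentiableOn.diffContOnCl ?_
    intro s hs
    rw [closure_ball _ hr.ne', mem_closedBall_zero_iff] at hs
    exact (hasDeriv69 (N := N) (slit69 hr hz hs)).differentiableAt.differentiableWithinAt
  have h1 := h.circleIntegral_sub_inv_smul (w := 0) (by simpa using hr)
  have e : Fg69 N z 0 = 1 := by
    unfold Fg69
    simp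
  rw [e] at h1
  simp only [sub_zero, smul_eq_mul, mul_one] at h1
  unfold In69
  simpa using h1

private lemma In_rec69 {N : ℕ} {z : ℂ} {r : ℝ} (hr : 0 < r)
    (hz : 2 * ‖z‖ * r + r ^ 2 < 1) (j : ℕ) :
    ((j : ℂ) + 1) * In69 N z r (j + 2) = ((N : ℂ) + 1 + 2 * j) * z * In69 N z r (j + 1) -
      ((N : ℂ) + j) * In69 N z r j := by
  have h0 : (∮ s in C(0, r), (-((j : ℂ) + 1) * ((s ^ (j + 2))⁻¹ * Fg69 N z s) +
      ((N : ℂ) + 1 + 2 * j) * z * ((s ^ (j + 1))⁻¹ * Fg69 N z s)) -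
      ((N : ℂ) + j) * ((s ^ j)⁻¹ * Fg69 N z s)) = 0 := by
    refine circleIntegral.integral_eq_zero_of_hasDerivWithinAt
      (f := fun s => (1 - 2 * z * s + s ^ 2) * Fg69 N z s * (s ^ (j + 1))⁻¹) hr.le ?_
    intro s hs
    have hs1 : ‖s‖ = r := by simpa using hs
    have hs0 : s ≠ 0 := by
      intro h
      rw [h, norm_zero] at hs1
      exact hr.ne hs1
    have hsl := slit69 hr hz hs1.le
    have hD0 : (1 - 2 * z * s + s ^ 2) ≠ 0 := Complex.slitPlane_ne_zero hsl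
    have h1 : HasDerivAt (fun s : ℂ => 1 - 2 * z * s + s ^ 2) (-(2 * z) + 2 * s) s := by
      have h2 : HasDerivAt (fun s : ℂ => 2 * z * s) (2 * z) s := by
        simpa using (hasDerivAt_id s).const_mul (2 * z)
      have h3 : HasDerivAt (fun s : ℂ => s ^ 2) (2 * s) s := by
        simpa using hasDerivAt_pow 2 s
      exact (h2.const_sub 1).add h3
    have h2 := hasDeriv69 (N := N) hsl
    have h3 : HasDerivAt (fun s : ℂ => (s ^ (j + 1))⁻¹)
        (-(((j : ℂ) + 1) * s ^ j) / (s ^ (j + 1)) ^ 2) s := by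
      have h4 := (hasDerivAt_pow (j + 1) s).fun_inv (pow_ne_zero (j + 1) hs0)
      simpa using h4
    refine (((h1.mul h2).mul h3).congr_deriv ?_).hasDerivWithinAt
    simp only [Pi.mul_apply]
    field_simp
    ring
  rw [circleIntegral.integral_sub, circleIntegral.integral_add, circleIntegral.integral_const_mul,
    circleIntegral.integral_const_mul, circleIntegral.integral_const_mul] at h0
  · unfold In69
    linear_combination -h0
  · exact (contF69 hr hz (j + 2)).const_mul _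
  · exact (contF69 hr hz (j + 1)).const_mul _
  · exact ((contF69 hr hz (j + 2)).const_mul _).add ((contF69 hr hz (j + 1)).const_mul _)
  · exact (contF69 hr hz j).const_mul _

private lemma PP_recC69 {d : ℕ} (hd : 3 ≤ d) (j : ℕ) (z : ℂ) :
    ((j : ℂ) + d - 1) * aeval z (PP d (j + 2)) =
      (2 * j + d) * (z * aeval z (PP d (j + 1))) - (j + 1) * aeval z (PP d j) := by
  have hd' : (3 : ℝ) ≤ d := by exact_mod_cast hd
  have hj : (0 : ℝ) ≤ j := Nat.cast_nonneg j
  have h : (j : ℝ) + d - 1 ≠ 0 := by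
    have : 0 < (j : ℝ) + d - 1 := by linarith
    exact this.ne'
  have hC : (j : ℂ) + d - 1 ≠ 0 := by exact_mod_cast h
  rw [Pool.Agent.Helper47.KP.PP_succ, map_sub, map_mul, map_mul, map_mul, aeval_X, aeval_C, aeval_C]
  simp only [Complex.coe_algebraMap]
  push_cast
  field_simp

private lemma In_PP69 {d : ℕ} (hd : 3 ≤ d) (z : ℂ) {r : ℝ} (hr : 0 < r)
    (hz : 2 * ‖z‖ * r + r ^ 2 < 1) (k : ℕ) :
    In69 (d - 3) z r (k + 1) =
      2 * π * Complex.I * ((Nat.choose (k + (d - 3)) k : ℂ) * aeval z (PP d k)) ∧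
    In69 (d - 3) z r (k + 2) =
      2 * π * Complex.I * ((Nat.choose (k + 1 + (d - 3)) (k + 1) : ℂ) * aeval z (PP d (k + 1))) := by
  obtain ⟨N, rfl⟩ : ∃ N, d = N + 3 := ⟨d - 3, by omega⟩
  have hN : N + 3 - 3 = N := by omega
  rw [hN]
  induction k with
  | zero =>
    refine ⟨?_, ?_⟩
    · rw [zero_add, In_one69 hr hz]
      simp [Pool.Agent.Helper47.KP.PP_zero]
    · have h := In_rec69 (N := N) hr hz 0
      rw [In_zero69 hr hz, zero_add, In_one69 hr hz] at h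
      have h2 : (Nat.choose (0 + 1 + N) (0 + 1) : ℂ) = N + 1 := by
        rw [show 0 + 1 + N = N + 1 by ring, zero_add, Nat.choose_one_right]
        push_cast
        ring
      rw [h2, zero_add, Pool.Agent.Helper47.KP.PP_one, aeval_X]
      push_cast at h
      linear_combination h
  | succ k ih =>
    refine ⟨ih.2, ?_⟩
    have h := In_rec69 (N := N) hr hz (k + 1)
    rw [show k + 1 + 2 = k + 3 by ring, show k + 1 + 1 = k + 2 by ring] at h
    rw [show k + 1 + 2 = k + 3 by ring, show k + 1 + 1 = k + 2 by ring]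
    rw [ih.1, ih.2] at h
    have hrec := PP_recC69 (d := N + 3) (by omega) k z
    -- binomial coefficients
    have hb1 : ((k : ℂ) + 2) * (Nat.choose (k + 2 + N) (k + 2) : ℂ) =
        (k + 2 + N) * (Nat.choose (k + 1 + N) (k + 1) : ℂ) := by
      have h3 := Nat.add_one_mul_choose_eq (k + 1 + N) (k + 1)
      have h4 : (k + 2 + N) * Nat.choose (k + 1 + N) (k + 1) =
          Nat.choose (k + 2 + N) (k + 2) * (k + 2) := by
        have e1 : k + 1 + N + 1 = k + 2 + N := by omega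
        have e2 : k + 1 + 1 = k + 2 := by omega
        rw [e1, e2] at h3
        exact h3
      have h5 : (((k + 2 + N) * Nat.choose (k + 1 + N) (k + 1) : ℕ) : ℂ) =
          ((Nat.choose (k + 2 + N) (k + 2) * (k + 2) : ℕ) : ℂ) := by rw [h4]
      push_cast at h5
      linear_combination -h5
    have hb0 : ((k : ℂ) + 1) * (Nat.choose (k + 1 + N) (k + 1) : ℂ) =
        (k + 1 + N) * (Nat.choose (k + N) k : ℂ) := by
      have h3 := Nat.add_one_mul_choose_eq (k + N) k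
      have h4 : (k + 1 + N) * Nat.choose (k + N) k =
          Nat.choose (k + 1 + N) (k + 1) * (k + 1) := by
        have e1 : k + N + 1 = k + 1 + N := by omega
        rw [e1] at h3
        exact h3
      have h5 : (((k + 1 + N) * Nat.choose (k + N) k : ℕ) : ℂ) =
          ((Nat.choose (k + 1 + N) (k + 1) * (k + 1) : ℕ) : ℂ) := by rw [h4]
      push_cast at h5
      linear_combination -h5
    have hk2 : ((k : ℂ) + 2) ≠ 0 := by
      have : ((k : ℂ) + 2) = ((k + 2 : ℕ) : ℂ) := by push_cast; ring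
      rw [this]
      exact_mod_cast (by omega : k + 2 ≠ 0)
    apply mul_left_cancel₀ hk2
    push_cast at h hrec
    linear_combination h + (2 * π * Complex.I) * (-aeval z (PP (N + 3) (k + 2)) * hb1 -
      (Nat.choose (k + 1 + N) (k + 1) : ℂ) * hrec + aeval z (PP (N + 3) k) * hb0)

/-- block EB5. Coefficient bound from the generating function
`∑ C(k+N,k) PP_k(z) s^k = (1 - 2 z s + s²)^(-(N+1)/2)`, `N = d - 3`. Hint: put
`F s = exp (-((N+1)/2) * log (1 - 2 z s + s²))` (the argument has positive real part on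
`‖s‖ ≤ r`), `T k = (2πi)⁻¹ ∮ F s / s^(k+1)` over `‖s‖ = r`. From
`(1 - 2 z s + s²) F' = (N+1)(z - s) F` and `∮ d/ds [(1 - 2zs + s²) F s^(-k-1)] = 0`
(`circleIntegral.integral_eq_zero_of_hasDerivWithinAt`):
`(k+1) T (k+1) = (2k+N+1) z T k - (k+N) T (k-1)`, `T 0 = 1`, so `T k = C(k+N,k) PP_k(z)`
(compare with `KP.PP_rec`); and `‖T k‖ ≤ r^(-k) sup ‖F‖`, `‖F‖^4 = (‖1-2zs+s²‖²)^(-(N+1))`. -/
theorem PP_coeff_bound {d : ℕ} (hd : 3 ≤ d) (k : ℕ) (z : ℂ) {r m : ℝ} (hr : 0 < r)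
    (hz : 2 * ‖z‖ * r + r ^ 2 < 1) (hm : 0 < m)
    (hD : ∀ s : ℂ, ‖s‖ = r → m ≤ ‖1 - 2 * z * s + s ^ 2‖ ^ 2) :
    ((Nat.choose (k + (d - 3)) k : ℝ) * ‖aeval z (PP d k)‖ * r ^ k) ^ 4 * m ^ (d - 2) ≤ 1 := by
  have hI := (In_PP69 hd z hr hz k).1
  set N := d - 3 with hN
  have hm1 : 0 < m ^ (d - 2) := pow_pos hm _
  set K : ℝ := √(√((m ^ (d - 2))⁻¹)) with hK
  have hK0 : 0 ≤ K := Real.sqrt_nonneg _
  have hK4 : K ^ 4 = (m ^ (d - 2))⁻¹ := by
    have h1 : K ^ 4 = (K ^ 2) ^ 2 := by ring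
    rw [h1, hK, Real.sq_sqrt (Real.sqrt_nonneg _), Real.sq_sqrt (by positivity)]
  have hF : ∀ s : ℂ, ‖s‖ = r → ‖Fg69 N z s‖ ≤ K := by
    intro s hs
    have hsl := slit69 hr hz hs.le
    have hD0 : (1 - 2 * z * s + s ^ 2) ≠ 0 := Complex.slitPlane_ne_zero hsl
    have hDp : 0 < ‖1 - 2 * z * s + s ^ 2‖ := norm_pos_iff.2 hD0
    have h1 : ‖Fg69 N z s‖ ^ 4 = ((‖1 - 2 * z * s + s ^ 2‖ ^ 2) ^ (d - 2))⁻¹ := by
      have e1 : ‖Fg69 N z s‖ = Real.exp (-(((N : ℝ) + 1) / 2) * Real.log ‖1 - 2 * z * s + s ^ 2‖) := by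
        unfold Fg69
        rw [Complex.norm_exp]
        congr 1
        have e2 : (-(((N : ℂ) + 1) / 2)) = ((-(((N : ℝ) + 1) / 2) : ℝ) : ℂ) := by push_cast; ring
        rw [e2, Complex.re_ofReal_mul, Complex.log_re]
      have e3 : (d - 2 : ℕ) = N + 1 := by omega
      rw [e1, ← Real.exp_nat_mul, e3, ← pow_mul, ← Real.exp_log hDp, ← Real.exp_nat_mul,
        ← Real.exp_neg, Real.log_exp]
      congr 1
      push_cast
      ring
    have h2 : ‖Fg69 N z s‖ ^ 4 ≤ K ^ 4 := by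
      rw [h1, hK4]
      exact inv_anti₀ hm1 (pow_le_pow_left₀ hm.le (hD s hs) _)
    exact le_of_pow_le_pow_left₀ (by norm_num) hK0 h2
  have hIn : ‖In69 N z r (k + 1)‖ ≤ 2 * π * r * ((r ^ (k + 1))⁻¹ * K) := by
    unfold In69
    refine circleIntegral.norm_integral_le_of_norm_le_const hr.le fun s hs => ?_
    have hs1 : ‖s‖ = r := by simpa using hs
    rw [norm_mul, norm_inv, norm_pow, hs1]
    gcongr
    exact hF s hs1
  rw [hI] at hIn
  have h2 : ‖2 * (π : ℂ) * Complex.I * ((Nat.choose (k + N) k : ℂ) * aeval z (PP d k))‖ =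
      2 * π * ((Nat.choose (k + N) k : ℝ) * ‖aeval z (PP d k)‖) := by
    rw [norm_mul, norm_mul, norm_mul, norm_mul, Complex.norm_I, Complex.norm_real,
      Real.norm_of_nonneg Real.pi_pos.le, Complex.norm_natCast]
    norm_num
  rw [h2] at hIn
  have h3 : (Nat.choose (k + N) k : ℝ) * ‖aeval z (PP d k)‖ * r ^ k ≤ K := by
    have hpi := Real.pi_pos
    have h4 : (Nat.choose (k + N) k : ℝ) * ‖aeval z (PP d k)‖ ≤ (r ^ k)⁻¹ * K := by
      have h5 : 2 * π * ((Nat.choose (k + N) k : ℝ) * ‖aeval z (PP d k)‖) ≤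
          2 * π * ((r ^ k)⁻¹ * K) := by
        refine hIn.trans (le_of_eq ?_)
        rw [pow_succ]
        field_simp
      exact le_of_mul_le_mul_left h5 (by positivity)
    calc (Nat.choose (k + N) k : ℝ) * ‖aeval z (PP d k)‖ * r ^ k ≤ ((r ^ k)⁻¹ * K) * r ^ k := by
          gcongr
      _ = K := by
          have : r ^ k ≠ 0 := (pow_pos hr k).ne'
          field_simp
  calc ((Nat.choose (k + N) k : ℝ) * ‖aeval z (PP d k)‖ * r ^ k) ^ 4 * m ^ (d - 2)
      ≤ K ^ 4 * m ^ (d - 2) := by gcongr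
    _ = 1 := by rw [hK4]; exact inv_mul_cancel₀ hm1.ne'

end Pool.Agent.Helper47.EB
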