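import Pool.Agent.Helper47.EB.Dens
import Pool.Agent.Helper47.EB.Ent

/-!
The density with all Gegenbauer coefficients at most `2^(-0.3962 d)/4`.
-/

set_option autoImplicit false

open MeasureTheory Set Metric Polynomial Filter
open scoped Real Topology RealInnerProductSpace

namespace Pool.Agent.Helper47.EB

open Pool.Agent.Helper47.KP (den PP cst wt Sph EE nrm)

lemma exists_inner {d : ℕ} (hd : 2 ≤ d) {t : ℝ} (ht : t ∈ Icc (-1 : ℝ) 1) :
    ∃ x y : Sph d, ⟪(x : EE d), (y : EE d)⟫ = t := by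
  have hne : (⟨0, by omega⟩ : Fin d) ≠ ⟨1, by omega⟩ := by
    intro h
    have := congrArg Fin.val h
    simp at this
  set i : Fin d := ⟨0, by omega⟩
  set j : Fin d := ⟨1, by omega⟩
  have h1 : 0 ≤ 1 - t ^ 2 := by nlinarith [ht.1, ht.2]
  have hij : ⟪(EuclideanSpace.single i (1 : ℝ) : EE d), EuclideanSpace.single j (1 : ℝ)⟫ = 0 := by
    rw [EuclideanSpace.inner_single_left]
    simp [hne]
  have hii : ∀ k : Fin d, ⟪(EuclideanSpace.single k (1 : ℝ) : EE d), EuclideanSpace.single k (1 : ℝ)⟫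
      = 1 := by
    intro k
    rw [EuclideanSpace.inner_single_left]
    simp
  refine ⟨⟨EuclideanSpace.single i 1, by simp⟩,
    ⟨t • EuclideanSpace.single i (1 : ℝ) + √(1 - t ^ 2) • EuclideanSpace.single j (1 : ℝ), ?_⟩, ?_⟩
  · rw [mem_sphere_zero_iff_norm]
    have h2 : ‖t • (EuclideanSpace.single i (1 : ℝ) : EE d) +
        √(1 - t ^ 2) • EuclideanSpace.single j (1 : ℝ)‖ ^ 2 = 1 := by
      rw [← real_inner_self_eq_norm_sq, inner_add_left, inner_add_right, inner_add_right,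
        real_inner_smul_left, real_inner_smul_left, real_inner_smul_left, real_inner_smul_left,
        real_inner_smul_right, real_inner_smul_right, real_inner_smul_right, real_inner_smul_right,
        hii, hii, hij, real_inner_comm, hij]
      have h3 := Real.mul_self_sqrt h1
      linear_combination h3
    have h4 := norm_nonneg (t • (EuclideanSpace.single i (1 : ℝ) : EE d) +
        √(1 - t ^ 2) • EuclideanSpace.single j (1 : ℝ))
    nlinarith
  · show ⟪(EuclideanSpace.single i (1 : ℝ) : EE d), t • EuclideanSpace.single i (1 : ℝ) +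
      √(1 - t ^ 2) • EuclideanSpace.single j (1 : ℝ)⟫ = t
    rw [inner_add_right, real_inner_smul_right, real_inner_smul_right, hii, hij]
    ring

lemma abs_PP_eval_le {d : ℕ} [NeZero d] (hd : 3 ≤ d) (j : ℕ) {t : ℝ} (ht : t ∈ Icc (-1 : ℝ) 1) :
    |(PP d j).eval t| ≤ 1 := by
  obtain ⟨x, y, hxy⟩ := exists_inner (d := d) (by omega) ht
  have h := Pool.Agent.Helper47.KP.abs_PP_le hd j x y
  rwa [hxy] at h

/-- the trivial bound -/
lemma coef_trivial {d : ℕ} [NeZero d] (hd3 : 3 ≤ d) {g : ℝ → ℝ} (hgm : Measurable g)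
    (h1 : ∀ t, |g t - 1| ≤ 1) {j n : ℕ} (hj : 1 ≤ j) (hnj : n ≤ j) :
    |∫ t, g t * (PP d j).eval t ∂(den d)| ≤
      Real.sqrt (1 / (Nat.choose (n + (d - 3)) n : ℝ)) := by
  have hw := Pool.Agent.Helper47.KP.continuous_wt (d - 3)
  have hpos := Pool.Agent.Helper47.KP.nrm_pos hd3 (d := d) j
  have hle := Pool.Agent.Helper47.KP.nrm_le hd3 (d := d) hnj
  refine le_trans ?_ (Real.sqrt_le_sqrt hle)
  set s := Real.sqrt (nrm d j) with hs
  have hs0 : 0 < s := Real.sqrt_pos.2 hpos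
  have hs2 : s * s = nrm d j := Real.mul_self_sqrt hpos.le
  have hM' : ∀ t ∈ Icc (-1 : ℝ) 1, |(PP d j).eval t| ≤ 1 := fun t ht => abs_PP_eval_le hd3 j ht
  have i1 : Integrable (fun t => (PP d j).eval t) (den d) := by
    refine Integrable.of_bound (PP d j).continuous.aestronglyMeasurable 1 ?_
    filter_upwards [Pool.Agent.Helper47.KP.den_supp] with t ht
    exact hM' t ht
  have i3 : Integrable (fun t => (g t - 1) * (PP d j).eval t) (den d) := by
    refine Integrable.of_bound ((hgm.sub_const 1).mul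
      (PP d j).continuous.measurable).aestronglyMeasurable 1 ?_
    filter_upwards [Pool.Agent.Helper47.KP.den_supp] with t ht
    rw [norm_mul, Real.norm_eq_abs, Real.norm_eq_abs]
    calc |g t - 1| * |(PP d j).eval t| ≤ 1 * 1 :=
          mul_le_mul (h1 t) (hM' t ht) (abs_nonneg _) (by norm_num)
      _ = 1 := one_mul 1
  have i4 : Integrable (fun t => (s + (PP d j).eval t ^ 2 / s) / 2) (den d) := by
    refine Integrable.of_bound (by
      apply Continuous.aestronglyMeasurable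
      exact (continuous_const.add (((PP d j).continuous.pow 2).div_const _)).div_const _)
      ((s + 1 ^ 2 / s) / 2) ?_
    filter_upwards [Pool.Agent.Helper47.KP.den_supp] with t ht
    rw [Real.norm_eq_abs, abs_of_nonneg (by positivity)]
    have h1 : (PP d j).eval t ^ 2 ≤ 1 ^ 2 := by
      rw [← sq_abs]
      exact pow_le_pow_left₀ (abs_nonneg _) (hM' t ht) 2
    gcongr
  have e1 : ∫ t, g t * (PP d j).eval t ∂(den d) =
      ∫ t, (g t - 1) * (PP d j).eval t ∂(den d) := by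
    have e2 : ∀ t, g t * (PP d j).eval t = (g t - 1) * (PP d j).eval t + (PP d j).eval t := by
      intro t; ring
    simp only [e2]
    rw [integral_add i3 i1, Pool.Agent.Helper47.KP.integral_PP_den hd3 hj, add_zero]
  rw [e1]
  refine (abs_integral_le_integral_abs).trans ?_
  have h2 : ∫ t, |(g t - 1) * (PP d j).eval t| ∂(den d) ≤
      ∫ t, (s + (PP d j).eval t ^ 2 / s) / 2 ∂(den d) := by
    apply integral_mono i3.abs i4
    intro t
    show |(g t - 1) * (PP d j).eval t| ≤ (s + (PP d j).eval t ^ 2 / s) / 2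
    rw [abs_mul]
    have h4 := abs_nonneg ((PP d j).eval t)
    have h5 : |(PP d j).eval t| ≤ (s + (PP d j).eval t ^ 2 / s) / 2 := by
      rw [le_div_iff₀ (by norm_num : (0 : ℝ) < 2), ← sq_abs]
      have h6 : s + |(PP d j).eval t| ^ 2 / s = (s ^ 2 + |(PP d j).eval t| ^ 2) / s := by
        field_simp
      rw [h6, le_div_iff₀ hs0]
      nlinarith [sq_nonneg (s - |(PP d j).eval t|)]
    calc |g t - 1| * |(PP d j).eval t| ≤ 1 * |(PP d j).eval t| :=
          mul_le_mul_of_nonneg_right (h1 t) h4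
      _ ≤ _ := by rw [one_mul]; exact h5
  refine h2.trans (le_of_eq ?_)
  rw [Pool.Agent.Helper47.KP.integral_den]
  have e2 : ∀ t, (s + (PP d j).eval t ^ 2 / s) / 2 * wt (d - 3) t =
      s / 2 * wt (d - 3) t + 1 / (2 * s) * ((PP d j).eval t ^ 2 * wt (d - 3) t) := by
    intro t; field_simp
  simp only [e2]
  rw [intervalIntegral.integral_add, intervalIntegral.integral_const_mul,
    intervalIntegral.integral_const_mul]
  · have e3 : cst d * ∫ t in (-1 : ℝ)..1, wt (d - 3) t = 1 := by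
      unfold Pool.Agent.Helper47.KP.cst
      exact inv_mul_cancel₀ (Pool.Agent.Helper47.KP.integral_wt_pos _).ne'
    have e4 : cst d * ∫ t in (-1 : ℝ)..1, (PP d j).eval t ^ 2 * wt (d - 3) t = nrm d j := rfl
    set I1 := ∫ t in (-1 : ℝ)..1, wt (d - 3) t
    set I2 := ∫ t in (-1 : ℝ)..1, (PP d j).eval t ^ 2 * wt (d - 3) t
    have e5 : cst d * (s / 2 * I1 + 1 / (2 * s) * I2) =
        s / 2 * (cst d * I1) + 1 / (2 * s) * (cst d * I2) := by ring
    rw [e5, e3, e4, ← hs2]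
    field_simp
    ring
  · exact (continuous_const.mul hw).intervalIntegrable _ _
  · exact (continuous_const.mul (((PP d j).continuous.pow 2).mul hw)).intervalIntegrable _ _

lemma cst_le {d : ℕ} (hd : 5 ≤ d) : cst d ≤ d := by
  unfold Pool.Agent.Helper47.KP.cst
  set N := d - 3 with hN
  have hN2 : 2 ≤ N := by omega
  have hNR : (2 : ℝ) ≤ N := by exact_mod_cast hN2
  have hNd : (N : ℝ) ≤ d := by exact_mod_cast (show N ≤ d by omega)
  have hN0 : (0 : ℝ) < N := by linarith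
  have hNi : (1 : ℝ) / N ≤ 1 / 2 := one_div_le_one_div_of_le (by norm_num) hNR
  have hNi0 : (0 : ℝ) < 1 / N := by positivity
  have h1 : 1 / (N : ℝ) ≤ ∫ t in (-1 : ℝ)..1, wt N t := by
    have h2 : ∫ _t in (-(1 / (N : ℝ)))..(1 / N), (1 / 2 : ℝ) ≤
        ∫ t in (-(1 / (N : ℝ)))..(1 / N), wt N t := by
      apply intervalIntegral.integral_mono_on (by linarith) intervalIntegrable_const
        ((Pool.Agent.Helper47.KP.continuous_wt N).intervalIntegrable _ _)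
      intro t ht
      have h3 : t ^ 2 ≤ (1 / (N : ℝ)) ^ 2 := sq_le_sq' ht.1 ht.2
      have h4 : t ^ 2 ≤ 1 := by nlinarith
      unfold Pool.Agent.Helper47.KP.wt
      have h5 : 1 - t ^ 2 ≤ √(1 - t ^ 2) := by
        apply Real.le_sqrt_of_sq_le
        nlinarith [sq_nonneg t]
      have h6 : (1 - t ^ 2) ^ N ≤ √(1 - t ^ 2) ^ N := pow_le_pow_left₀ (by linarith) h5 N
      have h7 : 1 + (N : ℝ) * (-t ^ 2) ≤ (1 + -t ^ 2) ^ N :=
        one_add_mul_le_pow (by linarith) N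
      have h8 : (N : ℝ) * t ^ 2 ≤ 1 / 2 := by
        calc (N : ℝ) * t ^ 2 ≤ (N : ℝ) * (1 / (N : ℝ)) ^ 2 := by gcongr
          _ = 1 / (N : ℝ) := by field_simp
          _ ≤ 1 / 2 := hNi
      have h9 : (1 + -t ^ 2) ^ N = (1 - t ^ 2) ^ N := by ring
      rw [h9] at h7
      linarith
    rw [intervalIntegral.integral_const, smul_eq_mul] at h2
    have h3 : ∫ t in (-(1 / (N : ℝ)))..(1 / N), wt N t ≤ ∫ t in (-1 : ℝ)..1, wt N t := by
      apply intervalIntegral.integral_mono_interval (by linarith) (by linarith) (by linarith)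
      · exact Filter.Eventually.of_forall fun t => Pool.Agent.Helper47.KP.wt_nonneg N t
      · exact (Pool.Agent.Helper47.KP.continuous_wt N).intervalIntegrable _ _
    linarith
  have h2 : (∫ t in (-1 : ℝ)..1, wt N t)⁻¹ ≤ (1 / (N : ℝ))⁻¹ := inv_anti₀ hNi0 h1
  rw [one_div, inv_inv] at h2
  linarith

lemma wt_two_thirds {d : ℕ} (hd : 3 ≤ d) :
    wt (d - 3) (2 / 3) ≤ 3 * (2 : ℝ) ^ (-(836 / 2110 * (d : ℝ))) := by
  unfold Pool.Agent.Helper47.KP.wt
  have h1 : √(1 - (2 / 3 : ℝ) ^ 2) ≤ (2 : ℝ) ^ (-(836 / 2110 : ℝ)) := by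
    have h2 : (0 : ℝ) ≤ (2 : ℝ) ^ (-(836 / 2110 : ℝ)) := by positivity
    apply Real.sqrt_le_iff.2
    refine ⟨h2, ?_⟩
    have h3 : (2 : ℝ) ^ (-(4 / 5 : ℝ)) ≤ ((2 : ℝ) ^ (-(836 / 2110 : ℝ))) ^ 2 := by
      rw [← Real.rpow_natCast, ← Real.rpow_mul (by norm_num)]
      apply Real.rpow_le_rpow_of_exponent_le (by norm_num)
      norm_num
    refine le_trans ?_ h3
    have h4 : ((1 - (2 / 3 : ℝ) ^ 2)) ^ 5 ≤ ((2 : ℝ) ^ (-(4 / 5 : ℝ))) ^ 5 := by
      rw [← Real.rpow_natCast ((2 : ℝ) ^ (-(4 / 5 : ℝ))), ← Real.rpow_mul (by norm_num)]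
      norm_num
    exact le_of_pow_le_pow_left₀ (by norm_num) (by positivity) h4
  calc √(1 - (2 / 3 : ℝ) ^ 2) ^ (d - 3) ≤ ((2 : ℝ) ^ (-(836 / 2110 : ℝ))) ^ (d - 3) :=
        pow_le_pow_left₀ (Real.sqrt_nonneg _) h1 _
    _ = (2 : ℝ) ^ (3 * (836 / 2110 : ℝ)) * (2 : ℝ) ^ (-(836 / 2110 * (d : ℝ))) := by
        rw [← Real.rpow_natCast, ← Real.rpow_mul (by norm_num), ← Real.rpow_add (by norm_num)]
        congr 1
        push_cast [Nat.cast_sub hd]
        ring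
    _ ≤ 3 * (2 : ℝ) ^ (-(836 / 2110 * (d : ℝ))) := by
        apply mul_le_mul_of_nonneg_right _ (by positivity)
        have h5 : (2 : ℝ) ^ (3 * (836 / 2110 : ℝ)) ≤ (2 : ℝ) ^ (3 / 2 : ℝ) := by
          apply Real.rpow_le_rpow_of_exponent_le (by norm_num)
          norm_num
        have h6 : (2 : ℝ) ^ (3 / 2 : ℝ) ≤ 3 := by
          have h7 : ((2 : ℝ) ^ (3 / 2 : ℝ)) ^ 2 ≤ 3 ^ 2 := by
            rw [← Real.rpow_natCast, ← Real.rpow_mul (by norm_num)]
            norm_num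
          exact le_of_pow_le_pow_left₀ (by norm_num) (by norm_num) h7
        exact h5.trans h6

/-- all cells -/
lemma cell_cases : ∃ K : ℝ, 0 < K ∧ ∀ d l k : ℕ, 4 ≤ d → 211 * l ≤ d - 3 → d - 3 < 211 * (l + 1) →
    1 ≤ k → 2 / 29 * ((d - 3 : ℕ) : ℝ) ≤ k → (k : ℝ) ≤ 8 / 39 * ((d - 3 : ℕ) : ℝ) →
    ∃ R : ℝ, 0 < R ∧ R ≤ 44 / 100 ∧ ∀ u : ℂ, ‖u‖ = R →
      cc ^ (d - 3) * (‖Psi (d - 3) l u‖ * ‖aeval (zz u) (PP d k)‖) ≤
        K * d * (2 : ℝ) ^ (-(836 / 2110 * (d : ℝ))) := by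
  obtain ⟨K1, hK1, h1⟩ := cell_exp cell1 (by norm_num) (by norm_num) end1a end1b
  obtain ⟨K2, hK2, h2⟩ := cell_exp cell2 (by norm_num) (by norm_num) end2a end2b
  obtain ⟨K3, hK3, h3⟩ := cell_exp cell3 (by norm_num) (by norm_num) end3a end3b
  obtain ⟨K4, hK4, h4⟩ := cell_exp cell4 (by norm_num) (by norm_num) end4a end4b
  obtain ⟨K5, hK5, h5⟩ := cell_exp cell5 (by norm_num) (by norm_num) end5a end5b
  obtain ⟨K6, hK6, h6⟩ := cell_exp cell6 (by norm_num) (by norm_num) end6a end6b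
  refine ⟨K1 + K2 + K3 + K4 + K5 + K6, by positivity, ?_⟩
  intro d l k hd hl1 hl2 hk ha hb
  have hmono : ∀ K' : ℝ, K' ≤ K1 + K2 + K3 + K4 + K5 + K6 →
      K' * d * (2 : ℝ) ^ (-(836 / 2110 * (d : ℝ))) ≤
      (K1 + K2 + K3 + K4 + K5 + K6) * d * (2 : ℝ) ^ (-(836 / 2110 * (d : ℝ))) := by
    intro K' hK'
    gcongr
  by_cases c1 : (k : ℝ) ≤ 7 / 51 * ((d - 3 : ℕ) : ℝ)
  · exact ⟨21 / 100, by norm_num, by norm_num, fun u hu =>
      (h1 d l k hd hl1 hl2 hk ha c1 u hu).trans (hmono K1 (by linarith))⟩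
  by_cases c2 : (k : ℝ) ≤ 3 / 20 * ((d - 3 : ℕ) : ℝ)
  · exact ⟨27 / 100, by norm_num, by norm_num, fun u hu =>
      (h2 d l k hd hl1 hl2 hk (not_le.1 c1).le c2 u hu).trans (hmono K2 (by linarith))⟩
  by_cases c3 : (k : ℝ) ≤ 7 / 43 * ((d - 3 : ℕ) : ℝ)
  · exact ⟨29 / 100, by norm_num, by norm_num, fun u hu =>
      (h3 d l k hd hl1 hl2 hk (not_le.1 c2).le c3 u hu).trans (hmono K3 (by linarith))⟩
  by_cases c4 : (k : ℝ) ≤ 7 / 40 * ((d - 3 : ℕ) : ℝ)
  · exact ⟨30 / 100, by norm_num, by norm_num, fun u hu =>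
      (h4 d l k hd hl1 hl2 hk (not_le.1 c3).le c4 u hu).trans (hmono K4 (by linarith))⟩
  by_cases c5 : (k : ℝ) ≤ 1 / 5 * ((d - 3 : ℕ) : ℝ)
  · exact ⟨32 / 100, by norm_num, by norm_num, fun u hu =>
      (h5 d l k hd hl1 hl2 hk (not_le.1 c4).le c5 u hu).trans (hmono K5 (by linarith))⟩
  · exact ⟨44 / 100, by norm_num, by norm_num, fun u hu =>
      (h6 d l k hd hl1 hl2 hk (not_le.1 c5).le hb u hu).trans (hmono K6 (by linarith))⟩

lemma final_small (K : ℝ) : ∃ d₀ : ℕ, ∀ d : ℕ, d₀ ≤ d →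
    K * (d : ℝ) ^ 2 * (2 : ℝ) ^ (-(836 / 2110 * (d : ℝ))) ≤ (2 : ℝ) ^ (-(0.3962 * (d : ℝ))) / 4 := by
  set ρ : ℝ := (2 : ℝ) ^ (-(836 / 2110 - 0.3962 : ℝ)) with hρ
  have hρ0 : 0 < ρ := by positivity
  have hρ1 : ρ < 1 := by
    rw [hρ]
    apply Real.rpow_lt_one_of_one_lt_of_neg (by norm_num)
    norm_num
  have hlim := (tendsto_pow_const_mul_const_pow_of_lt_one 2 hρ0.le hρ1).const_mul K
  rw [mul_zero] at hlim
  obtain ⟨d₀, hd₀⟩ := eventually_atTop.1 (hlim.eventually (gt_mem_nhds (show (0 : ℝ) < 1 / 4 by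
    norm_num)))
  refine ⟨d₀, fun d hd => ?_⟩
  have h1 := (hd₀ d hd).le
  have e1 : (2 : ℝ) ^ (-(836 / 2110 * (d : ℝ))) = ρ ^ d * (2 : ℝ) ^ (-(0.3962 * (d : ℝ))) := by
    rw [hρ, ← Real.rpow_natCast, ← Real.rpow_mul (by norm_num), ← Real.rpow_add (by norm_num)]
    congr 1
    ring
  rw [e1]
  have h2 : (0 : ℝ) < (2 : ℝ) ^ (-(0.3962 * (d : ℝ))) := by positivity
  calc K * (d : ℝ) ^ 2 * (ρ ^ d * (2 : ℝ) ^ (-(0.3962 * (d : ℝ)))) =
        (K * ((d : ℝ) ^ 2 * ρ ^ d)) * (2 : ℝ) ^ (-(0.3962 * (d : ℝ))) := by ring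
    _ ≤ 1 / 4 * (2 : ℝ) ^ (-(0.3962 * (d : ℝ))) := mul_le_mul_of_nonneg_right h1 h2.le
    _ = _ := by ring

/-- the trivial range -/
lemma triv_bound {d n : ℕ} (hd : 4 ≤ d) (hn : 8 / 39 * ((d - 3 : ℕ) : ℝ) ≤ n)
    (hn2 : n ≤ d) :
    Real.sqrt (1 / (Nat.choose (n + (d - 3)) n : ℝ)) ≤
      6 * d * (2 : ℝ) ^ (-(836 / 2110 * (d : ℝ))) := by
  set N := d - 3 with hN
  have hN1 : 1 ≤ N := by omega
  have hNR : (1 : ℝ) ≤ N := by exact_mod_cast hN1
  have hdN : (d : ℝ) = N + 3 := by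
    have : d = N + 3 := by omega
    exact_mod_cast this
  have hn0 : 0 < (n : ℝ) := lt_of_lt_of_le (by positivity) hn
  have hn1 : 1 ≤ n := by exact_mod_cast hn0
  have hc := choose_lower hn1 hN1
  have he : ent (8 / 39) ≤ ent ((n : ℝ) / N) := by
    apply ent_mono (by norm_num)
    rw [le_div_iff₀ (by linarith)]
    exact hn
  have he2 := end_triv
  have hl2 : 0 < Real.log 2 := Real.log_pos (by norm_num)
  have h1 : (2 : ℝ) ^ (793 / 1000 * (N : ℝ)) ≤ ((n : ℝ) + N + 1) * (Nat.choose (n + N) n : ℝ) := by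
    refine le_trans ?_ hc
    rw [Real.rpow_def_of_pos (by norm_num)]
    apply Real.exp_le_exp.2
    calc Real.log 2 * (793 / 1000 * (N : ℝ)) = N * (793 / 1000 * Real.log 2) := by ring
      _ ≤ N * ent ((n : ℝ) / N) := by
        apply mul_le_mul_of_nonneg_left _ (by linarith)
        linarith
  have hchp : 0 < (Nat.choose (n + N) n : ℝ) := by exact_mod_cast Nat.choose_pos (by omega)
  have hnd : (n : ℝ) ≤ d := by exact_mod_cast hn2
  have hd0 : (0 : ℝ) < d := by linarith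
  apply Real.sqrt_le_iff.2
  refine ⟨by positivity, ?_⟩
  rw [div_le_iff₀ hchp]
  have h2 : (2 : ℝ) ^ (793 / 1000 * (N : ℝ)) ≤ 3 * d * (Nat.choose (n + N) n : ℝ) := by
    refine h1.trans ?_
    apply mul_le_mul_of_nonneg_right _ hchp.le
    linarith
  have e1 : (6 * (d : ℝ) * (2 : ℝ) ^ (-(836 / 2110 * (d : ℝ)))) ^ 2 * (Nat.choose (n + N) n : ℝ) =
      12 * d * (2 : ℝ) ^ (-(836 / 1055 * (d : ℝ))) * (3 * d * (Nat.choose (n + N) n : ℝ)) := by
    have e2 : ((2 : ℝ) ^ (-(836 / 2110 * (d : ℝ)))) ^ 2 = (2 : ℝ) ^ (-(836 / 1055 * (d : ℝ))) := by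
      rw [← Real.rpow_natCast, ← Real.rpow_mul (by norm_num)]
      congr 1
      push_cast
      ring
    rw [mul_pow, e2]
    ring
  rw [e1]
  have h3 : (1 : ℝ) ≤ 12 * d * (2 : ℝ) ^ (-(836 / 1055 * (d : ℝ))) *
      (2 : ℝ) ^ (793 / 1000 * (N : ℝ)) := by
    have e3 : 12 * d * (2 : ℝ) ^ (-(836 / 1055 * (d : ℝ))) * (2 : ℝ) ^ (793 / 1000 * (N : ℝ)) =
        12 * d * (2 : ℝ) ^ (-(836 / 1055 * (d : ℝ)) + 793 / 1000 * (N : ℝ)) := by
      rw [Real.rpow_add (by norm_num)]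
      ring
    rw [e3]
    have h4 : (2 : ℝ) ^ (-3 : ℝ) ≤ (2 : ℝ) ^ (-(836 / 1055 * (d : ℝ)) + 793 / 1000 * (N : ℝ)) := by
      apply Real.rpow_le_rpow_of_exponent_le (by norm_num)
      rw [hdN]
      nlinarith
    have h5 : (2 : ℝ) ^ (-3 : ℝ) = 1 / 8 := by
      rw [Real.rpow_neg (by norm_num)]
      norm_num
    rw [h5] at h4
    have h6 : (4 : ℝ) ≤ d := by exact_mod_cast hd
    nlinarith
  refine h3.trans ?_
  apply mul_le_mul_of_nonneg_left h2 (by positivity)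

theorem density : ∃ C θ : ℝ, 0 < C ∧ 0 < θ ∧ θ < 1 ∧ ∃ d₀ : ℕ, ∀ (d : ℕ) [NeZero d], d₀ ≤ d →
    C * θ ^ (d - 3) ≤ 1 ∧
    ∃ g : ℝ → ℝ, Measurable g ∧ (∀ t, 0 ≤ g t) ∧ (∀ t, g t ≤ 1 + C * θ ^ (d - 3)) ∧
      (∀ t, |g t - 1| ≤ 1) ∧ (∀ t, t ≤ 1 / 2 → |g t - 1| ≤ C * θ ^ (d - 3)) ∧
      (∀ t, 1 / 2 < t → g t = 0) ∧ ∫ t, g t ∂(den d) = 1 ∧
      ∀ j, 1 ≤ j → |∫ t, g t * (PP d j).eval t ∂(den d)| ≤
        (2 : ℝ) ^ (-(0.3962 * (d : ℝ))) / 4 := by
  obtain ⟨C, θ, hC, hθ0, hθ1, hdens⟩ := exists_density3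
  obtain ⟨K, hK, hcell⟩ := cell_cases
  refine ⟨C, θ, hC, hθ0, hθ1, ?_⟩
  have hlim : Tendsto (fun d : ℕ => C * θ ^ (d - 3)) atTop (𝓝 0) := by
    have h1 := (tendsto_pow_atTop_nhds_zero_of_lt_one hθ0.le hθ1).comp (tendsto_sub_atTop_nat 3)
    simpa using h1.const_mul C
  obtain ⟨d₁, hd₁⟩ := eventually_atTop.1 (hlim.eventually (gt_mem_nhds (zero_lt_one (α := ℝ))))
  obtain ⟨d₂, hd₂⟩ := final_small (46 + 40 * K)
  refine ⟨max (max d₁ d₂) 10000, ?_⟩
  intro d _ hd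
  have hd1 : d₁ ≤ d := le_trans (le_trans (le_max_left _ _) (le_max_left _ _)) hd
  have hd2 : d₂ ≤ d := le_trans (le_trans (le_max_right _ _) (le_max_left _ _)) hd
  have hd4 : 10000 ≤ d := le_trans (le_max_right _ _) hd
  have hr1 : C * θ ^ (d - 3) ≤ 1 := (hd₁ d hd1).le
  refine ⟨hr1, ?_⟩
  set N := d - 3 with hN
  set l := N / 211 with hl
  have hN1 : 211 * l ≤ N := Nat.mul_div_le _ _
  have hN2 : N < 211 * (l + 1) := by
    have := Nat.lt_mul_div_succ N (show 0 < 211 by norm_num)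
    rw [← hl] at this
    exact this
  have hdR : (10000 : ℝ) ≤ d := by exact_mod_cast hd4
  have hNR : (N : ℝ) = d - 3 := by
    rw [hN, Nat.cast_sub (by omega)]
    norm_num
  obtain ⟨g, hgm, hg0, hg1, hgb, hgr, hgz, hgi, hge⟩ := hdens d d l (by omega) (by omega) hN1 hN2 hr1
  refine ⟨g, hgm, hg0, hg1, hgb, hgr, hgz, hgi, ?_⟩
  intro j hj
  set X := (2 : ℝ) ^ (-(836 / 2110 * (d : ℝ))) with hX
  have hX0 : 0 < X := by positivity
  have hfin : (46 + 40 * K) * (d : ℝ) ^ 2 * X ≤ (2 : ℝ) ^ (-(0.3962 * (d : ℝ))) / 4 := hd₂ d hd2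
  refine le_trans ?_ hfin
  have hcst := cst_le (d := d) (by omega)
  have hcst0 := Pool.Agent.Helper47.KP.cst_pos d
  have hwt := wt_two_thirds (d := d) (by omega)
  have hwt0 : 0 < wt N (2 / 3) := by
    apply Pool.Agent.Helper47.KP.wt_pos
    rw [abs_of_pos (by norm_num)]
    norm_num
  rw [← hX, ← hN] at hwt
  have hcc : cc ^ N ≤ 1 := pow_le_one₀ cc_pos.le cc_lt.le
  have hcc0 : 0 < cc ^ N := pow_pos cc_pos N
  have hz : ∫ t, (PP d j).eval t ∂(den d) = 0 :=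
    Pool.Agent.Helper47.KP.integral_PP_den (by omega) hj
  have hd0 : (0 : ℝ) < d := by linarith
  have hd1' : (1 : ℝ) ≤ d := by linarith
  by_cases c1 : 8 / 39 * (N : ℝ) ≤ j
  · -- trivial range
    set n := ⌈8 / 39 * (N : ℝ)⌉₊ with hn
    have hnj : n ≤ j := Nat.ceil_le.2 c1
    have hn1 : 8 / 39 * (N : ℝ) ≤ n := Nat.le_ceil _
    have hn2 : n ≤ d := by
      apply Nat.ceil_le.2
      rw [hNR]
      linarith
    refine (coef_trivial (by omega) hgm hgb hj hnj).trans ((triv_bound (by omega) hn1 hn2).trans ?_)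
    rw [← hX]
    apply mul_le_mul_of_nonneg_right _ hX0.le
    nlinarith [mul_pos hK hd0, mul_pos hK (mul_pos hd0 hd0)]
  push Not at c1
  have hjd : (PP d j).natDegree ≤ d := by
    refine (Pool.Agent.Helper47.KP.natDegree_PP j).trans ?_
    have h1 : (j : ℝ) ≤ d := by rw [hNR] at c1; linarith
    exact_mod_cast h1
  have herr : ∀ S R : ℝ, 0 < R → R ≤ 44 / 100 →
      (∀ u : ℂ, ‖u‖ = R → ‖Psi N l u‖ * ‖aeval (zz u) (PP d j)‖ ≤ S) →
      |∫ t, g t * (PP d j).eval t ∂(den d)| ≤ d * (3 * X + 40 * (cc ^ N * S)) := by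
    intro S R hR hR1 hS
    have h1 := hge (PP d j) hjd 1 S R hR hR1 (fun t ht => abs_PP_eval_le (by omega) j ht) hS
    rw [hz, sub_zero] at h1
    have hS0 : 0 ≤ S := by
      have h := hS (R : ℂ) (by simp [abs_of_pos hR])
      exact le_trans (by positivity) h
    refine h1.trans ?_
    have h2 : 1 * wt N (2 / 3) + 40 * C * θ ^ N * cc ^ N * S ≤ 3 * X + 40 * (cc ^ N * S) := by
      have h3 : 0 ≤ cc ^ N * S := by positivity
      have h4 : (C * θ ^ N) * (cc ^ N * S) ≤ 1 * (cc ^ N * S) := mul_le_mul_of_nonneg_right hr1 h3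
      have h5 : 40 * C * θ ^ N * cc ^ N * S = 40 * ((C * θ ^ N) * (cc ^ N * S)) := by ring
      rw [h5]
      linarith
    have h6 : 0 ≤ 1 * wt N (2 / 3) + 40 * C * θ ^ N * cc ^ N * S := by positivity
    exact mul_le_mul hcst h2 h6 hd0.le
  by_cases c2 : j < 15 * l
  · -- exactness
    obtain ⟨R, hR, hR1, hS⟩ := small_S N l (PP d j)
      (lt_of_le_of_lt (Pool.Agent.Helper47.KP.natDegree_PP j) c2) hX0
    refine (herr X R hR hR1 hS).trans ?_
    have h1 : cc ^ N * X ≤ 1 * X := mul_le_mul_of_nonneg_right hcc hX0.le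
    have h2 : (d : ℝ) * (3 * X + 40 * (cc ^ N * X)) ≤ d * (43 * X) := by
      apply mul_le_mul_of_nonneg_left _ hd0.le
      linarith
    refine h2.trans ?_
    have h3 : (d : ℝ) * (43 * X) = (43 * d) * X := by ring
    rw [h3]
    apply mul_le_mul_of_nonneg_right _ hX0.le
    nlinarith [mul_pos hK (mul_pos hd0 hd0)]
  · push Not at c2
    have hk : 2 / 29 * ((d - 3 : ℕ) : ℝ) ≤ j := by
      have h1 : (15 * (l : ℝ)) ≤ j := by exact_mod_cast c2
      have h2 : (N : ℝ) < 211 * (l + 1) := by exact_mod_cast hN2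
      rw [← hN]
      have h3 : (9997 : ℝ) ≤ N := by rw [hNR]; linarith
      linarith
    obtain ⟨R, hR, hR1, hS⟩ := hcell d l j (by omega) hN1 hN2 hj hk c1.le
    rw [← hX, ← hN] at hS
    have hS' : ∀ u : ℂ, ‖u‖ = R → ‖Psi N l u‖ * ‖aeval (zz u) (PP d j)‖ ≤ K * d * X / cc ^ N := by
      intro u hu
      rw [le_div_iff₀ hcc0, mul_comm]
      exact hS u hu
    refine (herr _ R hR hR1 hS').trans ?_
    rw [mul_div_cancel₀ _ hcc0.ne']
    have h1 : (d : ℝ) * (3 * X + 40 * (K * d * X)) = (3 * d + 40 * K * d ^ 2) * X := by ring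
    rw [h1]
    apply mul_le_mul_of_nonneg_right _ hX0.le
    nlinarith

end Pool.Agent.Helper47.EB
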