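import Pool.Agent.Helper47.EB.Cell

set_option autoImplicit false

open MeasureTheory Set Metric Polynomial Filter
open scoped Real Topology

namespace Pool.Agent.Helper47.EB

/-- `(1/N) log C(κN+N, N)` -/
noncomputable def ent (x : ℝ) : ℝ := (1 + x) * Real.log (1 + x) - x * Real.log x

/-- the numerical condition at an end point -/
def EndOK (R r β κ x : ℝ) : Prop :=
  211 * Real.log κ + 18 * Real.log β + 60 * Real.log R + 844 * Real.log cc +
    1672 / 5 * Real.log 2 ≤ 844 * (ent x + x * Real.log r)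

/-! block EB8: the six cells (rational arithmetic; `poly` is a cubic inequality on `[-1,1]`, minima
of the (scaled) slack about `1e-5`; multipliers `(1 ± x) * (x - x₀)^2`) -/

theorem cell1 : Cell (21 / 100) (91 / 1000) (7 / 50000) (59 / 20000) (16143 / 10000) := by
  refine ⟨by norm_num, by norm_num, by norm_num, by norm_num, by norm_num, by norm_num, by unfold bb; norm_num,
    by unfold bb; norm_num, by unfold bb; norm_num, by unfold bb; norm_num, fun x h1 h2 => ?_⟩
  have h3 : 0 ≤ x + 1 := by linarith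
  have h4 : 0 ≤ 1 - x := by linarith
  unfold al bb
  linarith [mul_nonneg h3 (sq_nonneg (x - 1)), mul_nonneg h4 (sq_nonneg (x - 1)), mul_nonneg h3 h4,
    mul_nonneg h3 h3, mul_nonneg h4 h4, mul_nonneg (mul_nonneg h3 h3) h4, mul_nonneg (mul_nonneg h3 h4) h4]
theorem cell2 : Cell (27 / 100) (125 / 1000) (31 / 50000) (13 / 2000) (8361 / 5000) := by
  refine ⟨by norm_num, by norm_num, by norm_num, by norm_num, by norm_num, by norm_num, by unfold bb; norm_num,
    by unfold bb; norm_num, by unfold bb; norm_num, by unfold bb; norm_num, fun x h1 h2 => ?_⟩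
  have h3 : 0 ≤ x + 1 := by linarith
  have h4 : 0 ≤ 1 - x := by linarith
  unfold al bb
  linarith [mul_nonneg h3 (sq_nonneg (x - (733 / 1000))), mul_nonneg h4 (sq_nonneg (x - (733 / 1000))), mul_nonneg h3 h4,
    mul_nonneg h3 h3, mul_nonneg h4 h4, mul_nonneg (mul_nonneg h3 h3) h4, mul_nonneg (mul_nonneg h3 h4) h4]
theorem cell3 : Cell (29 / 100) (135 / 1000) (87 / 100000) (71 / 10000) (1703 / 1000) := by
  refine ⟨by norm_num, by norm_num, by norm_num, by norm_num, by norm_num, by norm_num, by unfold bb; norm_num,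
    by unfold bb; norm_num, by unfold bb; norm_num, by unfold bb; norm_num, fun x h1 h2 => ?_⟩
  have h3 : 0 ≤ x + 1 := by linarith
  have h4 : 0 ≤ 1 - x := by linarith
  unfold al bb
  linarith [mul_nonneg h3 (sq_nonneg (x - (-46 / 1000))), mul_nonneg h4 (sq_nonneg (x - (-46 / 1000))), mul_nonneg h3 h4,
    mul_nonneg h3 h3, mul_nonneg h4 h4, mul_nonneg (mul_nonneg h3 h3) h4, mul_nonneg (mul_nonneg h3 h4) h4]
theorem cell4 : Cell (30 / 100) (145 / 1000) (63 / 50000) (29 / 4000) (17637 / 10000) := by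
  refine ⟨by norm_num, by norm_num, by norm_num, by norm_num, by norm_num, by norm_num, by unfold bb; norm_num,
    by unfold bb; norm_num, by unfold bb; norm_num, by unfold bb; norm_num, fun x h1 h2 => ?_⟩
  have h3 : 0 ≤ x + 1 := by linarith
  have h4 : 0 ≤ 1 - x := by linarith
  unfold al bb
  linarith [mul_nonneg h3 (sq_nonneg (x - (-521 / 1000))), mul_nonneg h4 (sq_nonneg (x - (-521 / 1000))), mul_nonneg h3 h4,
    mul_nonneg h3 h3, mul_nonneg h4 h4, mul_nonneg (mul_nonneg h3 h3) h4, mul_nonneg (mul_nonneg h3 h4) h4]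
theorem cell5 : Cell (32 / 100) (158 / 1000) (191 / 100000) (213 / 25000) (18139 / 10000) := by
  refine ⟨by norm_num, by norm_num, by norm_num, by norm_num, by norm_num, by norm_num, by unfold bb; norm_num,
    by unfold bb; norm_num, by unfold bb; norm_num, by unfold bb; norm_num, fun x h1 h2 => ?_⟩
  have h3 : 0 ≤ x + 1 := by linarith
  have h4 : 0 ≤ 1 - x := by linarith
  unfold al bb
  linarith [mul_nonneg h3 (sq_nonneg (x - (-1))), mul_nonneg h4 (sq_nonneg (x - (-1))), mul_nonneg h3 h4,
    mul_nonneg h3 h3, mul_nonneg h4 h4, mul_nonneg (mul_nonneg h3 h3) h4, mul_nonneg (mul_nonneg h3 h4) h4]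
theorem cell6 : Cell (44 / 100) (221 / 1000) (569 / 50000) (3377 / 100000) (3771 / 2000) := by
  refine ⟨by norm_num, by norm_num, by norm_num, by norm_num, by norm_num, by norm_num, by unfold bb; norm_num,
    by unfold bb; norm_num, by unfold bb; norm_num, by unfold bb; norm_num, fun x h1 h2 => ?_⟩
  have h3 : 0 ≤ x + 1 := by linarith
  have h4 : 0 ≤ 1 - x := by linarith
  unfold al bb
  linarith [mul_nonneg h3 (sq_nonneg (x - (-1))), mul_nonneg h4 (sq_nonneg (x - (-1))), mul_nonneg h3 h4,
    mul_nonneg h3 h3, mul_nonneg h4 h4, mul_nonneg (mul_nonneg h3 h3) h4, mul_nonneg (mul_nonneg h3 h4) h4]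

/-! block EB9: the end points. Multiply by `5 q` (`x = p/q`) and compare integer powers
(`decide +kernel` on naturals, about `10^6` digits) -/

/-- the integer form of the condition at an end point -/
private theorem endOK_of_nat30 {R r β κ x : ℝ} (Rn Rd rn rd bn bd kn kd p q : ℕ)
    (hR : R = Rn / Rd) (hr : r = rn / rd) (hb : β = bn / bd) (hk : κ = kn / kd) (hx : x = p / q)
    (h0 : 0 < Rn ∧ 0 < Rd ∧ 0 < rn ∧ 0 < rd ∧ 0 < bn ∧ 0 < bd ∧ 0 < kn ∧ 0 < kd ∧ 0 < p ∧ 0 < q)
    (h : kn ^ (1055 * q) * bn ^ (90 * q) * Rn ^ (300 * q) * 43681 ^ (4220 * q) * 2 ^ (1672 * q) *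
        (p ^ (4220 * p) * q ^ (4220 * q) * rd ^ (4220 * p)) ≤
      kd ^ (1055 * q) * bd ^ (90 * q) * Rd ^ (300 * q) * 46817 ^ (4220 * q) *
        ((q + p) ^ (4220 * (q + p)) * rn ^ (4220 * p))) : EndOK R r β κ x := by
  obtain ⟨a1, a2, a3, a4, a5, a6, a7, a8, a9, a10⟩ := h0
  have b1 : (0 : ℝ) < Rn := by exact_mod_cast a1
  have b2 : (0 : ℝ) < Rd := by exact_mod_cast a2
  have b3 : (0 : ℝ) < rn := by exact_mod_cast a3
  have b4 : (0 : ℝ) < rd := by exact_mod_cast a4
  have b5 : (0 : ℝ) < bn := by exact_mod_cast a5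
  have b6 : (0 : ℝ) < bd := by exact_mod_cast a6
  have b7 : (0 : ℝ) < kn := by exact_mod_cast a7
  have b8 : (0 : ℝ) < kd := by exact_mod_cast a8
  have b9 : (0 : ℝ) < p := by exact_mod_cast a9
  have b10 : (0 : ℝ) < q := by exact_mod_cast a10
  have h' : (kn : ℝ) ^ (1055 * q) * (bn : ℝ) ^ (90 * q) * (Rn : ℝ) ^ (300 * q) *
        (43681 : ℝ) ^ (4220 * q) * (2 : ℝ) ^ (1672 * q) *
        ((p : ℝ) ^ (4220 * p) * (q : ℝ) ^ (4220 * q) * (rd : ℝ) ^ (4220 * p)) ≤
      (kd : ℝ) ^ (1055 * q) * (bd : ℝ) ^ (90 * q) * (Rd : ℝ) ^ (300 * q) *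
        (46817 : ℝ) ^ (4220 * q) *
        (((q : ℝ) + p) ^ (4220 * (q + p)) * (rn : ℝ) ^ (4220 * p)) := by
    exact_mod_cast h
  have h1 := Real.log_le_log (by positivity) h'
  have b11 : (0 : ℝ) < (q : ℝ) + p := by positivity
  rw [Real.log_mul (by positivity) (by positivity), Real.log_mul (by positivity) (by positivity),
    Real.log_mul (by positivity) (by positivity), Real.log_mul (by positivity) (by positivity),
    Real.log_mul (by positivity) (by positivity), Real.log_mul (by positivity) (by positivity),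
    Real.log_mul (by positivity) (by positivity),
    Real.log_mul (by positivity) (by positivity), Real.log_mul (by positivity) (by positivity),
    Real.log_mul (by positivity) (by positivity), Real.log_mul (by positivity) (by positivity),
    Real.log_mul (by positivity) (by positivity)] at h1
  simp only [Real.log_pow] at h1
  push_cast at h1
  have e1 : 1 + (p : ℝ) / q = (q + p) / q := by field_simp
  unfold EndOK ent cc
  rw [hR, hr, hb, hk, hx, e1, Real.log_div b1.ne' b2.ne', Real.log_div b3.ne' b4.ne',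
    Real.log_div b5.ne' b6.ne', Real.log_div b7.ne' b8.ne', Real.log_div b9.ne' b10.ne',
    Real.log_div b11.ne' b10.ne', Real.log_div (by norm_num) (by norm_num)]
  generalize Real.log (Rn : ℝ) = l1 at *
  generalize Real.log (Rd : ℝ) = l2 at *
  generalize Real.log (rn : ℝ) = l3 at *
  generalize Real.log (rd : ℝ) = l4 at *
  generalize Real.log (bn : ℝ) = l5 at *
  generalize Real.log (bd : ℝ) = l6 at *
  generalize Real.log (kn : ℝ) = l7 at *
  generalize Real.log (kd : ℝ) = l8 at *
  generalize Real.log ((q : ℝ) + p) = l11 at *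
  generalize Real.log (p : ℝ) = l9 at *
  generalize Real.log (q : ℝ) = l10 at *
  generalize Real.log (43681 : ℝ) = m1 at *
  generalize Real.log (46817 : ℝ) = m2 at *
  generalize Real.log (2 : ℝ) = m3 at *
  have e2 : 5 * (q : ℝ) * (844 * (((q : ℝ) + p) / q * (l11 - l10) - p / q * (l9 - l10) +
      p / q * (l3 - l4)) - (211 * (l7 - l8) + 18 * (l5 - l6) + 60 * (l1 - l2) + 844 * (m1 - m2) +
      1672 / 5 * m3)) = 4220 * (((q : ℝ) + p) * (l11 - l10) - p * (l9 - l10) +
      p * (l3 - l4)) - q * (1055 * (l7 - l8) + 90 * (l5 - l6) + 300 * (l1 - l2) +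
      4220 * (m1 - m2) + 1672 * m3) := by
    field_simp
    ring
  have e3 : 0 ≤ 5 * (q : ℝ) * (844 * (((q : ℝ) + p) / q * (l11 - l10) - p / q * (l9 - l10) +
      p / q * (l3 - l4)) - (211 * (l7 - l8) + 18 * (l5 - l6) + 60 * (l1 - l2) + 844 * (m1 - m2) +
      1672 / 5 * m3)) := by
    rw [e2]
    linarith
  have e4 := nonneg_of_mul_nonneg_right e3 (by positivity)
  linarith

theorem end1a : EndOK (21 / 100) (91 / 1000) (59 / 20000) (16143 / 10000) (2 / 29) :=
  endOK_of_nat30 21 100 91 1000 59 20000 16143 10000 2 29 (by norm_num) (by norm_num)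
    (by norm_num) (by norm_num) (by norm_num) (by decide) (by decide +kernel)
theorem end1b : EndOK (21 / 100) (91 / 1000) (59 / 20000) (16143 / 10000) (7 / 51) :=
  endOK_of_nat30 21 100 91 1000 59 20000 16143 10000 7 51 (by norm_num) (by norm_num)
    (by norm_num) (by norm_num) (by norm_num) (by decide) (by decide +kernel)
theorem end2a : EndOK (27 / 100) (125 / 1000) (13 / 2000) (8361 / 5000) (7 / 51) :=
  endOK_of_nat30 27 100 125 1000 13 2000 8361 5000 7 51 (by norm_num) (by norm_num)
    (by norm_num) (by norm_num) (by norm_num) (by decide) (by decide +kernel)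
theorem end2b : EndOK (27 / 100) (125 / 1000) (13 / 2000) (8361 / 5000) (3 / 20) :=
  endOK_of_nat30 27 100 125 1000 13 2000 8361 5000 3 20 (by norm_num) (by norm_num)
    (by norm_num) (by norm_num) (by norm_num) (by decide) (by decide +kernel)
theorem end3a : EndOK (29 / 100) (135 / 1000) (71 / 10000) (1703 / 1000) (3 / 20) :=
  endOK_of_nat30 29 100 135 1000 71 10000 1703 1000 3 20 (by norm_num) (by norm_num)
    (by norm_num) (by norm_num) (by norm_num) (by decide) (by decide +kernel)
theorem end3b : EndOK (29 / 100) (135 / 1000) (71 / 10000) (1703 / 1000) (7 / 43) :=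
  endOK_of_nat30 29 100 135 1000 71 10000 1703 1000 7 43 (by norm_num) (by norm_num)
    (by norm_num) (by norm_num) (by norm_num) (by decide) (by decide +kernel)
theorem end4a : EndOK (30 / 100) (145 / 1000) (29 / 4000) (17637 / 10000) (7 / 43) :=
  endOK_of_nat30 30 100 145 1000 29 4000 17637 10000 7 43 (by norm_num) (by norm_num)
    (by norm_num) (by norm_num) (by norm_num) (by decide) (by decide +kernel)
theorem end4b : EndOK (30 / 100) (145 / 1000) (29 / 4000) (17637 / 10000) (7 / 40) :=
  endOK_of_nat30 30 100 145 1000 29 4000 17637 10000 7 40 (by norm_num) (by norm_num)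
    (by norm_num) (by norm_num) (by norm_num) (by decide) (by decide +kernel)
theorem end5a : EndOK (32 / 100) (158 / 1000) (213 / 25000) (18139 / 10000) (7 / 40) :=
  endOK_of_nat30 32 100 158 1000 213 25000 18139 10000 7 40 (by norm_num) (by norm_num)
    (by norm_num) (by norm_num) (by norm_num) (by decide) (by decide +kernel)
theorem end5b : EndOK (32 / 100) (158 / 1000) (213 / 25000) (18139 / 10000) (1 / 5) :=
  endOK_of_nat30 32 100 158 1000 213 25000 18139 10000 1 5 (by norm_num) (by norm_num)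
    (by norm_num) (by norm_num) (by norm_num) (by decide) (by decide +kernel)
theorem end6a : EndOK (44 / 100) (221 / 1000) (3377 / 100000) (3771 / 2000) (1 / 5) :=
  endOK_of_nat30 44 100 221 1000 3377 100000 3771 2000 1 5 (by norm_num) (by norm_num)
    (by norm_num) (by norm_num) (by norm_num) (by decide) (by decide +kernel)
theorem end6b : EndOK (44 / 100) (221 / 1000) (3377 / 100000) (3771 / 2000) (8 / 39) :=
  endOK_of_nat30 44 100 221 1000 3377 100000 3771 2000 8 39 (by norm_num) (by norm_num)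
    (by norm_num) (by norm_num) (by norm_num) (by decide) (by decide +kernel)

/-- the trivial range -/
theorem end_triv : 793 / 1000 * Real.log 2 ≤ ent (8 / 39) := by
  have h : 2 ^ 30927 * (8 ^ 8000 * 39 ^ 39000) ≤ 47 ^ 47000 := by decide +kernel
  have h' : (2 : ℝ) ^ 30927 * ((8 : ℝ) ^ 8000 * (39 : ℝ) ^ 39000) ≤ (47 : ℝ) ^ 47000 := by
    exact_mod_cast h
  have h1 := Real.log_le_log (by positivity) h'
  rw [Real.log_mul (by positivity) (by positivity), Real.log_mul (by positivity) (by positivity),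
    Real.log_pow, Real.log_pow, Real.log_pow, Real.log_pow] at h1
  push_cast at h1
  unfold ent
  rw [show (1 : ℝ) + 8 / 39 = 47 / 39 by norm_num, Real.log_div (by norm_num) (by norm_num),
    Real.log_div (by norm_num) (by norm_num)]
  linarith

end Pool.Agent.Helper47.EB
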